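import Mathlib

/-!
Analytic continuation of a holomorphic function from a disc to a larger disc.
-/

set_option autoImplicit false

open Metric Set Filter Topology
open scoped ENNReal NNReal

namespace Pool.Agent.Q162.Sch

/-- `E`, holomorphic in `|w| < R`, extends holomorphically to a neighbourhood of `w1`. -/
def LocExt (E : ℂ → ℂ) (R : ℝ) (w1 : ℂ) : Prop :=
  ∃ (ε : ℝ) (E1 : ℂ → ℂ), 0 < ε ∧ DifferentiableOn ℂ E1 (ball w1 ε) ∧
    ∀ w ∈ ball w1 ε ∩ ball 0 R, E1 w = E w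

theorem eqOn_convex {f g : ℂ → ℂ} {s : Set ℂ} (hs : IsOpen s) (hc : Convex ℝ s)
    (hf : DifferentiableOn ℂ f s) (hg : DifferentiableOn ℂ g s) {z : ℂ} (hz : z ∈ s)
    (h : f =ᶠ[𝓝 z] g) : EqOn f g s :=
  (hf.analyticOnNhd hs).eqOn_of_preconnected_of_eventuallyEq (hg.analyticOnNhd hs)
    hc.isPreconnected hz h

theorem proj_dist {R : ℝ} (hR : 0 < R) {w : ℂ} (hw : R ≤ ‖w‖) :
    ‖w - ((R / ‖w‖ : ℝ) : ℂ) * w‖ = ‖w‖ - R := by
  have hw0 : 0 < ‖w‖ := hR.trans_le hw
  have h1 : w - ((R / ‖w‖ : ℝ) : ℂ) * w = ((1 - R / ‖w‖ : ℝ) : ℂ) * w := by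
    push_cast; ring
  have h2 : 0 ≤ 1 - R / ‖w‖ := by
    rw [sub_nonneg, div_le_one hw0]; exact hw
  rw [h1, norm_mul, Complex.norm_real, Real.norm_of_nonneg h2]
  field_simp

theorem proj_norm {R : ℝ} (hR : 0 < R) {w : ℂ} (hw : R ≤ ‖w‖) :
    ‖((R / ‖w‖ : ℝ) : ℂ) * w‖ = R := by
  have hw0 : 0 < ‖w‖ := hR.trans_le hw
  rw [norm_mul, Complex.norm_real, Real.norm_of_nonneg (by positivity)]
  field_simp

theorem extend {E : ℂ → ℂ} {R : ℝ} (hR : 0 < R) (hE : DifferentiableOn ℂ E (ball 0 R))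
    (h : ∀ w1 : ℂ, ‖w1‖ = R → LocExt E R w1) :
    ∃ (R' : ℝ) (F : ℂ → ℂ), R < R' ∧ DifferentiableOn ℂ F (ball 0 R') ∧
      ∀ w ∈ ball (0 : ℂ) R, F w = E w := by
  classical
  -- uniform radius
  have hunif : ∃ δ : ℝ, 0 < δ ∧ δ ≤ R ∧ ∀ w1 : ℂ, ‖w1‖ = R → ∃ E1 : ℂ → ℂ,
      DifferentiableOn ℂ E1 (ball w1 δ) ∧ ∀ w ∈ ball w1 δ ∩ ball 0 R, E1 w = E w := by
    choose ε E1 hε hE1 hag using h
    obtain ⟨δ, hδ, hcov⟩ := lebesgue_number_lemma_of_metric
      (c := fun i : {w : ℂ // ‖w‖ = R} => ball i.1 (ε i.1 i.2)) (isCompact_sphere (0 : ℂ) R)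
      (fun i => isOpen_ball)
      (fun w hw => mem_iUnion.2 ⟨⟨w, mem_sphere_zero_iff_norm.1 hw⟩, mem_ball_self (hε _ _)⟩)
    refine ⟨min δ R, lt_min hδ hR, min_le_right _ _, fun w1 hw1 => ?_⟩
    obtain ⟨i, hi⟩ := hcov w1 (mem_sphere_zero_iff_norm.2 hw1)
    have hsub : ball w1 (min δ R) ⊆ ball i.1 (ε i.1 i.2) :=
      (ball_subset_ball (min_le_left _ _)).trans hi
    exact ⟨E1 i.1 i.2, (hE1 i.1 i.2).mono hsub, fun w hw => hag i.1 i.2 w ⟨hsub hw.1, hw.2⟩⟩
  obtain ⟨δ, hδ, hδR, hu⟩ := hunif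
  have hu' : ∀ w1 : ℂ, ∃ E1 : ℂ → ℂ, ‖w1‖ = R →
      DifferentiableOn ℂ E1 (ball w1 δ) ∧ ∀ w ∈ ball w1 δ ∩ ball 0 R, E1 w = E w := by
    intro w1
    by_cases hw : ‖w1‖ = R
    · obtain ⟨E1, h1⟩ := hu w1 hw
      exact ⟨E1, fun _ => h1⟩
    · exact ⟨E, fun h => absurd h hw⟩
  choose G hG using hu'
  set F : ℂ → ℂ := fun w => if ‖w‖ < R then E w else G (((R / ‖w‖ : ℝ) : ℂ) * w) w with hF
  refine ⟨R + δ / 4, F, by linarith, ?_, ?_⟩
  · intro w0 hw0
    rw [mem_ball_zero_iff] at hw0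
    by_cases hlt : ‖w0‖ < R
    · have hEd : DifferentiableAt ℂ E w0 :=
        hE.differentiableAt (isOpen_ball.mem_nhds (mem_ball_zero_iff.2 hlt))
      have hFE : F =ᶠ[𝓝 w0] E := by
        filter_upwards [isOpen_ball.mem_nhds (mem_ball_zero_iff.2 hlt)] with w hw
        simp only [hF]
        rw [if_pos (mem_ball_zero_iff.1 hw)]
      exact (hFE.differentiableAt_iff.2 hEd).differentiableWithinAt
    · have hge : R ≤ ‖w0‖ := not_lt.1 hlt
      set π0 : ℂ := ((R / ‖w0‖ : ℝ) : ℂ) * w0 with hπ0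
      have hn0 : ‖π0‖ = R := proj_norm hR hge
      have hd0 : ‖w0 - π0‖ < δ / 4 := by rw [proj_dist hR hge]; linarith
      obtain ⟨hG0, hG0'⟩ := hG π0 hn0
      have hmem0 : ∀ w : ℂ, ‖w - w0‖ < δ / 4 → ‖w - π0‖ < δ / 2 := by
        intro w hw
        calc ‖w - π0‖ = ‖(w - w0) + (w0 - π0)‖ := by ring_nf
          _ ≤ ‖w - w0‖ + ‖w0 - π0‖ := norm_add_le _ _
          _ < δ / 2 := by linarith
      have hFG : F =ᶠ[𝓝 w0] G π0 := by
        have hN1 : ball w0 (δ / 4) ∈ 𝓝 w0 := ball_mem_nhds _ (by linarith)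
        have hN2 : ball (0 : ℂ) (R + δ / 4) ∈ 𝓝 w0 :=
          isOpen_ball.mem_nhds (mem_ball_zero_iff.2 hw0)
        filter_upwards [hN1, hN2] with w hw1 hw2
        rw [mem_ball, dist_eq_norm] at hw1
        rw [mem_ball_zero_iff] at hw2
        have hwπ0 := hmem0 w hw1
        have hwm : w ∈ ball π0 δ := by rw [mem_ball, dist_eq_norm]; linarith
        by_cases hwR : ‖w‖ < R
        · simp only [hF]
          rw [if_pos hwR]
          exact (hG0' w ⟨hwm, mem_ball_zero_iff.2 hwR⟩).symm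
        · have hwge : R ≤ ‖w‖ := not_lt.1 hwR
          simp only [hF]
          rw [if_neg hwR]
          set π1 : ℂ := ((R / ‖w‖ : ℝ) : ℂ) * w with hπ1
          have hn1 : ‖π1‖ = R := proj_norm hR hwge
          have hd1 : ‖w - π1‖ < δ / 4 := by rw [proj_dist hR hwge]; linarith
          obtain ⟨hG1, hG1'⟩ := hG π1 hn1
          have hw1m : w ∈ ball π1 δ := by rw [mem_ball, dist_eq_norm]; linarith
          set τ : ℝ := δ / (8 * R) with hτ
          have hτ0 : 0 < τ := by positivity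
          have hτR : τ * R = δ / 8 := by rw [hτ]; field_simp
          have hτ1 : τ ≤ 1 := by
            rw [hτ, div_le_one (by positivity)]; linarith
          set q : ℂ := ((1 - τ : ℝ) : ℂ) * π1 with hq
          have hqn : ‖q‖ < R := by
            rw [hq, norm_mul, Complex.norm_real, Real.norm_of_nonneg (by linarith), hn1]
            nlinarith
          have hq1 : ‖q - π1‖ = δ / 8 := by
            have : q - π1 = ((-τ : ℝ) : ℂ) * π1 := by rw [hq]; push_cast; ring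
            rw [this, norm_mul, Complex.norm_real, norm_neg, Real.norm_of_nonneg hτ0.le, hn1, hτR]
          have hq0 : ‖q - π0‖ < δ := by
            calc ‖q - π0‖ = ‖(q - π1) + ((π1 - w) + (w - π0))‖ := by ring_nf
              _ ≤ ‖q - π1‖ + ‖(π1 - w) + (w - π0)‖ := norm_add_le _ _
              _ ≤ ‖q - π1‖ + (‖π1 - w‖ + ‖w - π0‖) := by gcongr; exact norm_add_le _ _
              _ < δ := by rw [norm_sub_rev π1 w]; linarith
          have hEq := eqOn_convex (f := G π1) (g := G π0) (s := ball π1 δ ∩ ball π0 δ)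
            (isOpen_ball.inter isOpen_ball) ((convex_ball _ _).inter (convex_ball _ _))
            (hG1.mono inter_subset_left) (hG0.mono inter_subset_right) (z := q)
            ⟨by rw [mem_ball, dist_eq_norm]; linarith, by rw [mem_ball, dist_eq_norm]; exact hq0⟩
            (by
              have hO : ball π1 δ ∩ ball π0 δ ∩ ball 0 R ∈ 𝓝 q :=
                ((isOpen_ball.inter isOpen_ball).inter isOpen_ball).mem_nhds
                  ⟨⟨by rw [mem_ball, dist_eq_norm]; linarith,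
                    by rw [mem_ball, dist_eq_norm]; exact hq0⟩, mem_ball_zero_iff.2 hqn⟩
              filter_upwards [hO] with x hx
              rw [hG1' x ⟨hx.1.1, hx.2⟩, hG0' x ⟨hx.1.2, hx.2⟩])
          exact hEq ⟨hw1m, hwm⟩
      have hGd : DifferentiableAt ℂ (G π0) w0 :=
        hG0.differentiableAt (isOpen_ball.mem_nhds (by
          rw [mem_ball, dist_eq_norm]; linarith))
      exact (hFG.differentiableAt_iff.2 hGd).differentiableWithinAt
  · intro w hw
    simp only [hF]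
    rw [if_pos (mem_ball_zero_iff.1 hw)]

theorem radius_le {φ : ℂ → ℂ} {p : FormalMultilinearSeries ℂ ℂ ℂ} (hp : HasFPowerSeriesAt φ p 0)
    {F : ℂ → ℂ} {R : ℝ} (hF : DifferentiableOn ℂ F (ball 0 R)) (hFφ : F =ᶠ[𝓝 0] φ) :
    ENNReal.ofReal R ≤ p.radius := by
  refine ENNReal.le_of_forall_nnreal_lt fun s hs => ?_
  by_cases hs0 : s = 0
  · simp [hs0]
  have hs0' : 0 < s := pos_iff_ne_zero.2 hs0
  have hsR : (s : ℝ) < R := by
    have := hs
    rw [ENNReal.lt_ofReal_iff_toReal_lt ENNReal.coe_ne_top] at this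
    simpa using this
  have h1 : HasFPowerSeriesOnBall F (cauchyPowerSeries F 0 s) 0 s :=
    (hF.mono (closedBall_subset_ball hsR)).hasFPowerSeriesOnBall hs0'
  have h2 : cauchyPowerSeries F 0 s = p :=
    h1.hasFPowerSeriesAt.eq_formalMultilinearSeries (hp.congr hFφ.symm)
  rw [← h2]
  exact h1.r_le

theorem maximal {φ : ℂ → ℂ} {r : ℝ} (hr : 0 < r) (hφ : DifferentiableOn ℂ φ (ball 0 r)) :
    (∃ E : ℂ → ℂ, Differentiable ℂ E ∧ ∀ w ∈ ball (0 : ℂ) r, E w = φ w) ∨
    ∃ (R : ℝ) (E : ℂ → ℂ) (w1 : ℂ), r ≤ R ∧ DifferentiableOn ℂ E (ball 0 R) ∧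
      (∀ w ∈ ball (0 : ℂ) r, E w = φ w) ∧ ‖w1‖ = R ∧ ¬ LocExt E R w1 := by
  have hana : AnalyticAt ℂ φ 0 :=
    hφ.analyticAt (isOpen_ball.mem_nhds (mem_ball_self hr))
  obtain ⟨p, hp⟩ := hana
  have hpos : 0 < p.radius := lt_of_lt_of_le (ENNReal.ofReal_pos.2 hr)
    (radius_le hp hφ (EventuallyEq.refl _ _))
  have hsum := p.hasFPowerSeriesOnBall hpos
  have hsφ : p.sum =ᶠ[𝓝 0] φ := by
    have h1 := hsum.hasFPowerSeriesAt.eventually_hasSum
    have h2 := hp.eventually_hasSum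
    filter_upwards [h1, h2] with w hw1 hw2
    have := hw1.unique hw2
    simpa using this
  have hd := hsum.differentiableOn
  by_cases htop : p.radius = ⊤
  · left
    refine ⟨p.sum, ?_, ?_⟩
    · have : (Metric.eball (0 : ℂ) p.radius) = univ := by
        rw [htop]; ext x; simp [Metric.mem_eball, edist_lt_top]
      rw [this] at hd
      exact differentiableOn_univ.1 hd
    · have : (Metric.eball (0 : ℂ) p.radius) = univ := by
        rw [htop]; ext x; simp [Metric.mem_eball, edist_lt_top]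
      rw [this] at hd
      exact eqOn_convex isOpen_ball (convex_ball _ _) (hd.mono (subset_univ _)) hφ
        (mem_ball_self hr) hsφ
  · right
    set R : ℝ := p.radius.toReal with hRdef
    have hRr : ENNReal.ofReal R = p.radius := ENNReal.ofReal_toReal htop
    have hball : Metric.eball (0 : ℂ) p.radius = ball 0 R := by
      rw [← hRr, Metric.eball_ofReal]
    rw [hball] at hd
    have hrR : r ≤ R := by
      have h1 := radius_le hp hφ (EventuallyEq.refl _ _)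
      rw [← hRr] at h1
      exact (ENNReal.ofReal_le_ofReal_iff ENNReal.toReal_nonneg).1 h1
    have hEφ : ∀ w ∈ ball (0 : ℂ) r, p.sum w = φ w :=
      eqOn_convex isOpen_ball (convex_ball _ _) (hd.mono (ball_subset_ball hrR)) hφ
        (mem_ball_self hr) hsφ
    by_contra hcon
    push Not at hcon
    have hall : ∀ w1 : ℂ, ‖w1‖ = R → LocExt p.sum R w1 := fun w1 hw1 =>
      hcon R p.sum w1 hrR hd hEφ hw1
    obtain ⟨R', F, hRR', hF, hFE⟩ := extend (hr.trans_le hrR) hd hall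
    have hFφ : F =ᶠ[𝓝 0] φ := by
      filter_upwards [hsφ, isOpen_ball.mem_nhds (mem_ball_self (x := (0 : ℂ)) (hr.trans_le hrR))]
        with w h1 h2
      rw [hFE w h2, h1]
    have := radius_le hp hF hFφ
    rw [← hRr] at this
    have h3 := (ENNReal.ofReal_le_ofReal_iff ENNReal.toReal_nonneg).1 this
    linarith

end Pool.Agent.Q162.Sch
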