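import Mathlib

/-!
Local analysis of the solutions of a polynomial equation with holomorphic coefficients.
-/

set_option autoImplicit false

open Metric Set Filter Topology

namespace Pool.Agent.Q162.Sch

theorem small_root {m : ℕ} {X κ η : ℝ} (hX : 0 ≤ X) (hη : 0 < η) (hη1 : η ≤ 1) (hκ : 0 ≤ κ)
    (h : X ^ m ≤ κ * ∑ j ∈ Finset.range m, X ^ j) (hs : κ * m < η ^ m) : X ≤ η := by
  by_contra hlt
  push Not at hlt
  have hX0 : 0 < X := hη.trans hlt
  have h1 : ∀ j ∈ Finset.range m, η ^ m * X ^ j ≤ X ^ m := by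
    intro j hj
    have hj' := (Finset.mem_range.1 hj).le
    calc η ^ m * X ^ j ≤ η ^ (m - j) * X ^ j := by
          gcongr ?_ * _
          exact pow_le_pow_of_le_one hη.le hη1 (Nat.sub_le _ _)
      _ ≤ X ^ (m - j) * X ^ j := by gcongr
      _ = X ^ m := by rw [← pow_add, Nat.sub_add_cancel hj']
  have h2 : η ^ m * X ^ m ≤ κ * m * X ^ m := by
    calc η ^ m * X ^ m ≤ η ^ m * (κ * ∑ j ∈ Finset.range m, X ^ j) := by gcongr
      _ = κ * ∑ j ∈ Finset.range m, η ^ m * X ^ j := by rw [← Finset.mul_sum]; ring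
      _ ≤ κ * ∑ _j ∈ Finset.range m, X ^ m := by
          gcongr with j hj
          exact h1 j hj
      _ = κ * m * X ^ m := by simp; ring
  have := le_of_mul_le_mul_right h2 (pow_pos hX0 m)
  linarith

/-- All solutions of the equation are `o(1 / |w - w1|)` when the coefficients are mild. -/
theorem mild_small {m : ℕ} (hm : 1 ≤ m) {A : ℕ → ℂ → ℂ} {E : ℂ → ℂ} {w1 : ℂ} {S : Set ℂ}
    (hw1 : w1 ∉ S)
    (hne : ∀ᶠ w in 𝓝[≠] w1, A m w ≠ 0)
    (ht : ∀ j < m, Tendsto (fun w => A j w / A m w * (w - w1) ^ (m - j)) (𝓝[≠] w1) (𝓝 0))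
    (hrel : ∀ᶠ w in 𝓝[≠] w1, w ∈ S → ∑ j ∈ Finset.range (m + 1), A j w * E w ^ j = 0)
    {η : ℝ} (hη : 0 < η) :
    ∃ δ > 0, ∀ w ∈ S, ‖w - w1‖ < δ → ‖w - w1‖ * ‖E w‖ ≤ η := by
  set η' : ℝ := min η 1 with hη'
  have hη'0 : 0 < η' := lt_min hη one_pos
  have hη'1 : η' ≤ 1 := min_le_right _ _
  have hm0 : (0 : ℝ) < m := by exact_mod_cast hm
  set κ : ℝ := η' ^ m / (2 * m) with hκ
  have hκ0 : 0 < κ := by positivity
  have hκm : κ * m < η' ^ m := by
    have : κ * m = η' ^ m / 2 := by rw [hκ]; field_simp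
    rw [this]
    linarith [pow_pos hη'0 m]
  have hsm : ∀ᶠ w in 𝓝[≠] w1, ∀ j ∈ Finset.range m, ‖A j w / A m w * (w - w1) ^ (m - j)‖ ≤ κ := by
    rw [Filter.eventually_all_finset]
    intro j hj
    have h1 := (ht j (Finset.mem_range.1 hj)).norm
    rw [norm_zero] at h1
    exact (h1.eventually (gt_mem_nhds hκ0)).mono fun w hw => le_of_lt hw
  have hall : ∀ᶠ w in 𝓝[≠] w1, w ∈ S → ‖w - w1‖ * ‖E w‖ ≤ η := by
    filter_upwards [hsm, hne, hrel] with w h1 h2 h3 hwS
    have h3 := h3 hwS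
    set Y : ℂ := (w - w1) * E w with hY
    have hYm : Y ^ m = - ∑ j ∈ Finset.range m, (A j w / A m w * (w - w1) ^ (m - j)) * Y ^ j := by
      rw [Finset.sum_range_succ] at h3
      have h4 : A m w * E w ^ m = - ∑ j ∈ Finset.range m, A j w * E w ^ j := by
        linear_combination h3
      have h5 : E w ^ m = - ∑ j ∈ Finset.range m, (A j w / A m w) * E w ^ j := by
        have : E w ^ m = (A m w)⁻¹ * (A m w * E w ^ m) := by field_simp
        rw [this, h4, mul_neg, Finset.mul_sum]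
        congr 1
        refine Finset.sum_congr rfl fun j _ => ?_
        field_simp
      rw [hY, mul_pow, h5, mul_neg, Finset.mul_sum]
      congr 1
      refine Finset.sum_congr rfl fun j hj => ?_
      have hj' := (Finset.mem_range.1 hj).le
      rw [mul_pow]
      have : (w - w1) ^ m = (w - w1) ^ (m - j) * (w - w1) ^ j := by
        rw [← pow_add, Nat.sub_add_cancel hj']
      rw [this]; ring
    have hX : ‖Y‖ ≤ η' := by
      refine small_root (m := m) (norm_nonneg _) hη'0 hη'1 hκ0.le ?_ hκm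
      rw [← norm_pow, hYm, norm_neg, Finset.mul_sum]
      refine (norm_sum_le _ _).trans (Finset.sum_le_sum fun j hj => ?_)
      rw [norm_mul, norm_pow]
      exact mul_le_mul_of_nonneg_right (h1 j hj) (by positivity)
    rw [← norm_mul]
    exact hX.trans (min_le_left _ _)
  rw [eventually_nhdsWithin_iff, Metric.eventually_nhds_iff] at hall
  obtain ⟨δ, hδ, h⟩ := hall
  refine ⟨δ, hδ, fun w hw hd => h (by rwa [dist_eq_norm]) ?_ hw⟩
  rintro rfl
  exact hw1 hw

/-- The unique small solution of the reversed equation. -/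
theorem reversed_root {m : ℕ} (hm : 1 ≤ m) {A : ℕ → ℂ → ℂ} {w1 : ℂ}
    (hA : ∀ j ≤ m, AnalyticAt ℂ (A j) w1) (h0 : A m w1 = 0) (h1 : A (m - 1) w1 ≠ 0) :
    ∃ (ε : ℝ) (y : ℂ → ℂ), 0 < ε ∧ DifferentiableOn ℂ y (ball w1 ε) ∧
      ∀ w ∈ ball w1 ε, ∀ ζ : ℂ, ‖ζ‖ < ε →
        ∑ j ∈ Finset.range (m + 1), A (m - j) w * ζ ^ j = 0 → ζ = y w := by
  set G : ℂ × ℂ → ℂ := fun p => ∑ j ∈ Finset.range (m + 1), A (m - j) p.1 * p.2 ^ j with hG
  set u : ℂ × ℂ := (w1, 0) with hu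
  have hGc : ContDiffAt ℂ 1 G u := by
    rw [hG]
    refine ContDiffAt.sum fun j _ => ?_
    refine ContDiffAt.mul ?_ (contDiffAt_snd.pow j)
    have hAj : ContDiffAt ℂ 1 (A (m - j)) u.1 := (hA (m - j) (Nat.sub_le _ _)).contDiffAt
    exact hAj.comp u contDiffAt_fst
  have hGu : G u = 0 := by
    simp only [hG, hu]
    rw [Finset.sum_range_succ']
    simp [h0]
  have hline : HasDerivAt (fun ζ : ℂ => G (w1, ζ)) (A (m - 1) w1) 0 := by
    have hd : HasDerivAt (fun ζ : ℂ => ∑ j ∈ Finset.range (m + 1), A (m - j) w1 * ζ ^ j)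
        (∑ j ∈ Finset.range (m + 1), A (m - j) w1 * ((j : ℂ) * (0 : ℂ) ^ (j - 1))) 0 := by
      refine HasDerivAt.fun_sum fun j _ => ?_
      exact (hasDerivAt_pow j (0 : ℂ)).const_mul _
    have he : ∑ j ∈ Finset.range (m + 1), A (m - j) w1 * ((j : ℂ) * (0 : ℂ) ^ (j - 1)) =
        A (m - 1) w1 := by
      rw [Finset.sum_eq_single 1]
      · simp
      · intro j _ hj
        rcases Nat.eq_zero_or_pos j with rfl | hjp
        · simp
        · have : j - 1 ≠ 0 := by omega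
          simp [this]
      · intro h
        exact absurd (Finset.mem_range.2 (by omega)) h
    rw [he] at hd
    exact hd
  have hinvt : (fderiv ℂ G u ∘L .inr ℂ ℂ ℂ).IsInvertible := by
    have hL : (fderiv ℂ G u ∘L .inr ℂ ℂ ℂ) 1 = A (m - 1) w1 := by
      have hGd : HasFDerivAt G (fderiv ℂ G u) u :=
        (hGc.differentiableAt one_ne_zero).hasFDerivAt
      have hpath : HasDerivAt (fun ζ : ℂ => ((w1, ζ) : ℂ × ℂ)) ((0, 1) : ℂ × ℂ) 0 :=
        (hasDerivAt_const (0 : ℂ) w1).prodMk (hasDerivAt_id (0 : ℂ))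
      have h2 := HasFDerivAt.comp_hasDerivAt (x := (0 : ℂ)) (f := fun ζ : ℂ => ((w1, ζ) : ℂ × ℂ))
        (l := G) hGd hpath
      have h3 : HasDerivAt (fun ζ : ℂ => G (w1, ζ)) (fderiv ℂ G u (0, 1)) 0 := h2
      have h4 := h3.unique hline
      rw [← h4]
      simp
    have heq : (fderiv ℂ G u ∘L .inr ℂ ℂ ℂ) =
        ((ContinuousLinearEquiv.unitsEquivAut ℂ (Units.mk0 (A (m - 1) w1) h1) : ℂ ≃L[ℂ] ℂ) :
          ℂ →L[ℂ] ℂ) := by
      ext
      rw [hL]
      simp
    rw [heq]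
    exact ⟨_, rfl⟩
  have hy1 := hGc.contDiffAt_implicitFunction one_ne_zero hinvt
  have hy2 := hGc.eventually_apply_eq_iff_implicitFunction one_ne_zero hinvt
  set y := hGc.implicitFunction one_ne_zero hinvt with hy
  have hyd : ∀ᶠ w in 𝓝 w1, DifferentiableAt ℂ y w :=
    (hy1.eventually (by simp)).mono fun w hw => hw.differentiableAt one_ne_zero
  obtain ⟨ε1, hε1, h1'⟩ := Metric.eventually_nhds_iff.1 hyd
  obtain ⟨ε2, hε2, h2'⟩ := Metric.eventually_nhds_iff.1 hy2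
  refine ⟨min ε1 ε2, y, lt_min hε1 hε2, ?_, ?_⟩
  · intro w hw
    exact (h1' (lt_of_lt_of_le (mem_ball.1 hw) (min_le_left _ _))).differentiableWithinAt
  · intro w hw ζ hζ hz
    have hd : dist ((w, ζ) : ℂ × ℂ) u < ε2 := by
      rw [Prod.dist_eq, max_lt_iff]
      refine ⟨lt_of_lt_of_le (mem_ball.1 hw) (min_le_right _ _), ?_⟩
      simp only [hu, dist_zero_right]
      exact lt_of_lt_of_le hζ (min_le_right _ _)
    have h3 := h2' hd
    have h4 : G (w, ζ) = G u := by rw [hGu]; exact hz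
    exact (h3.1 h4).symm

end Pool.Agent.Q162.Sch
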