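import Pool.Agent.Results.MP_83fd13_an.BranchSingularities
import Pool.Agent.Q162.Sch.Ext
import Pool.Agent.Q162.Sch.Local

/-!
Domains whose Schwarz function satisfies an algebraic equation: the core argument in the plane of
the uniformizing variable.
-/

set_option autoImplicit false

open MeasureTheory Metric Set Filter Topology ComplexConjugate
open Pool.Agent.Results.MP_83fd13_an.BranchSingularities

namespace Pool.Agent.Q162.Sch

theorem branch_of_lt {φ E : ℂ → ℂ} {r R : ℝ} (hr : 1 < r) (hrR : r ≤ R)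
    (hE : DifferentiableOn ℂ E (ball 0 R)) (hEφ : ∀ w ∈ ball (0 : ℂ) r, E w = φ w)
    {z : ℂ} (h1 : 1 < ‖z‖) (h2 : ‖z‖ < R) : Branch φ r z E := by
  have hz0 : 0 < ‖z‖ := by linarith
  have hsc : ∀ t : ℝ, 0 ≤ t → ‖((t / ‖z‖ : ℝ) : ℂ) * z‖ = t := by
    intro t ht
    rw [norm_mul, Complex.norm_real, Real.norm_of_nonneg (by positivity)]
    field_simp
  have hsd : ∀ s t : ℝ, ‖((s / ‖z‖ : ℝ) : ℂ) * z - ((t / ‖z‖ : ℝ) : ℂ) * z‖ = |s - t| := by
    intro s t
    have : ((s / ‖z‖ : ℝ) : ℂ) * z - ((t / ‖z‖ : ℝ) : ℂ) * z = (((s - t) / ‖z‖ : ℝ) : ℂ) * z := by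
      push_cast; ring
    rw [this, norm_mul, Complex.norm_real, Real.norm_eq_abs, abs_div, abs_of_pos hz0]
    field_simp
  have hzz : z = ((‖z‖ / ‖z‖ : ℝ) : ℂ) * z := by
    rw [div_self hz0.ne']; simp
  set s : ℝ := (1 + min r ‖z‖) / 2 with hs
  have hm1 : 1 < min r ‖z‖ := lt_min hr h1
  have hs1 : 1 < s := by rw [hs]; linarith
  have hsr : s < r := by
    have := min_le_left r ‖z‖
    rw [hs]; linarith
  set z0 : ℂ := ((s / ‖z‖ : ℝ) : ℂ) * z with hz0def
  have hz0n : ‖z0‖ = s := hsc s (by linarith)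
  set c : ℂ := (((1 + R) / 2 / ‖z‖ : ℝ) : ℂ) * z with hc
  have hcn : ‖c‖ = (1 + R) / 2 := hsc _ (by linarith)
  have hbase : Branch φ r z0 φ := Branch.base z0 (by rw [hz0n]; exact hs1) (by rw [hz0n]; exact hsr)
  have hsub : ∀ w ∈ ball c ((R - 1) / 2), 1 < ‖w‖ ∧ ‖w‖ < R := by
    intro w hw
    rw [mem_ball, dist_eq_norm] at hw
    constructor
    · have := norm_sub_norm_le c w
      rw [norm_sub_rev, hcn] at this
      linarith
    · have := norm_sub_norm_le w c
      rw [hcn] at this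
      linarith
  refine Branch.step z0 z c ((R - 1) / 2) φ E hbase (fun w hw => (hsub w hw).1) ?_ ?_ ?_ ?_
  · exact hE.mono fun w hw => mem_ball_zero_iff.2 (hsub w hw).2
  · rw [mem_ball, dist_eq_norm, hz0def, hc, hsd, abs_lt]
    constructor <;> linarith
  · rw [mem_ball, dist_eq_norm, hc]
    nth_rewrite 1 [hzz]
    rw [hsd, abs_lt]
    constructor <;> linarith
  · have : ball (0 : ℂ) r ∈ 𝓝 z0 := isOpen_ball.mem_nhds (mem_ball_zero_iff.2 (by rw [hz0n]; exact hsr))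
    filter_upwards [this] with w hw
    exact (hEφ w hw).symm

/-- points on the radius through `w1`, close to `w1`. -/
theorem radial {R : ℝ} (hR : 1 < R) {w1 : ℂ} (hw1 : ‖w1‖ = R) {η : ℝ} (hη : 0 < η) :
    ∃ τ : ℝ, 0 < τ ∧ τ < 1 ∧ τ * R < η ∧ τ * R < R - 1 ∧
      ‖((1 - τ : ℝ) : ℂ) * w1‖ = R - τ * R ∧ ‖((1 - τ : ℝ) : ℂ) * w1 - w1‖ = τ * R := by
  set τ : ℝ := min η (R - 1) / (2 * R) with hτ
  have hmin : 0 < min η (R - 1) := lt_min hη (by linarith)
  have hτR : τ * R = min η (R - 1) / 2 := by rw [hτ]; field_simp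
  have hτ0 : 0 < τ := by positivity
  have h1 : min η (R - 1) ≤ η := min_le_left _ _
  have h2 : min η (R - 1) ≤ R - 1 := min_le_right _ _
  have hτ1 : τ < 1 := by
    rw [hτ, div_lt_one (by positivity)]; linarith
  refine ⟨τ, hτ0, hτ1, by linarith, by linarith, ?_, ?_⟩
  · rw [norm_mul, Complex.norm_real, Real.norm_of_nonneg (by linarith), hw1]; ring
  · have : ((1 - τ : ℝ) : ℂ) * w1 - w1 = ((-τ : ℝ) : ℂ) * w1 := by push_cast; ring
    rw [this, norm_mul, Complex.norm_real, norm_neg, Real.norm_of_nonneg hτ0.le, hw1]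

/-- Extension when the function is `o(1 / |w - w1|)`. -/
theorem of_small {φ E : ℂ → ℂ} {r R lam : ℝ} {w1 : ℂ} (hlam : 0 < lam)
    (hBB : BranchesBlowUp φ r lam) (hR : 1 < R) (hw1 : ‖w1‖ = R)
    (hbr : ∀ z : ℂ, 1 < ‖z‖ → ‖z‖ < R → Branch φ r z E)
    (hE : DifferentiableOn ℂ E (ball 0 R))
    (hsmall : ∀ η : ℝ, 0 < η → ∃ δ > 0, ∀ w ∈ ball (0 : ℂ) R, ‖w - w1‖ < δ →
      ‖w - w1‖ * ‖E w‖ ≤ η) : LocExt E R w1 := by
  set ρ : ℝ := (R - 1) / 4 with hρ
  have hρ0 : 0 < ρ := by rw [hρ]; linarith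
  have hR0 : 0 < R := by linarith
  set c : ℂ := ((1 - ρ / R : ℝ) : ℂ) * w1 with hc
  have hρR : ρ / R < 1 := by rw [div_lt_one hR0]; linarith
  have hcn : ‖c‖ = R - ρ := by
    rw [hc, norm_mul, Complex.norm_real, Real.norm_of_nonneg (by linarith), hw1]
    field_simp
  have hcw : ‖w1 - c‖ = ρ := by
    have : w1 - c = ((ρ / R : ℝ) : ℂ) * w1 := by rw [hc]; push_cast; ring
    rw [this, norm_mul, Complex.norm_real, Real.norm_of_nonneg (by positivity), hw1]
    field_simp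
  have hsubR : ∀ w ∈ ball c ρ, ‖w‖ < R := by
    intro w hw
    rw [mem_ball, dist_eq_norm] at hw
    have := norm_sub_norm_le w c
    rw [hcn] at this
    linarith
  set D : ℝ := ‖deriv φ (1 / conj w1)‖ with hD
  have hD0 : 0 ≤ D := norm_nonneg _
  set η : ℝ := 1 / (lam * D + 1) with hη
  have hη0 : 0 < η := by positivity
  have hηs : lam * D * η < 3 * ‖w1‖ ^ 2 := by
    have h1 : lam * D * η < 1 := by
      rw [hη, mul_one_div, div_lt_one (by positivity)]; linarith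
    rw [hw1]
    nlinarith
  obtain ⟨δ, hδ, hs⟩ := hsmall η hη0
  obtain ⟨ε, E1, hε, hE1, hag⟩ := hBB c ρ E w1 η δ hρ0 (by
      intro w hw
      rw [mem_closedBall, dist_eq_norm] at hw
      have := norm_sub_norm_le c w
      rw [norm_sub_rev, hcn] at this
      have h2 : ρ = (R - 1) / 4 := hρ
      linarith)
    (hE.mono fun w hw => mem_ball_zero_iff.2 (hsubR w hw))
    ⟨c, mem_ball_self hρ0, hbr c (by rw [hcn]; linarith) (by rw [hcn]; linarith)⟩
    (by rw [mem_sphere, dist_eq_norm]; exact hcw) hδ hηs (by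
      intro w hw hwd
      refine le_trans ?_ (hs w (mem_ball_zero_iff.2 (hsubR w hw)) hwd)
      refine mul_le_mul_of_nonneg_right ?_ (norm_nonneg _)
      have h3 : ‖w1 - c‖ ≤ ‖w - c‖ + ‖w - w1‖ := by
        calc ‖w1 - c‖ = ‖(w - c) - (w - w1)‖ := by ring_nf
          _ ≤ _ := norm_sub_le _ _
      rw [hcw] at h3
      linarith)
  obtain ⟨τ, hτ0, hτ1, hτη, hτR, hτn, hτd⟩ := radial hR hw1 (lt_min hε hρ0)
  set p : ℂ := ((1 - τ : ℝ) : ℂ) * w1 with hp
  have hpε : p ∈ ball w1 ε := by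
    rw [mem_ball, dist_eq_norm, hτd]
    exact lt_of_lt_of_le hτη (min_le_left _ _)
  have hpR : p ∈ ball (0 : ℂ) R := by
    rw [mem_ball_zero_iff, hτn]
    nlinarith
  have hpc : p ∈ ball c ρ := by
    rw [mem_ball, dist_eq_norm]
    have h4 : p - c = ((ρ / R - τ : ℝ) : ℂ) * w1 := by rw [hp, hc]; push_cast; ring
    rw [h4, norm_mul, Complex.norm_real, hw1, Real.norm_eq_abs, ← abs_of_pos hR0, ← abs_mul, abs_of_pos hR0]
    have h5 : (ρ / R - τ) * R = ρ - τ * R := by field_simp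
    have h6 : τ * R < ρ := lt_of_lt_of_le hτη (min_le_right _ _)
    have h7 : 0 < τ * R := by positivity
    rw [h5, abs_lt]
    constructor <;> linarith
  refine ⟨ε, E1, hε, hE1, ?_⟩
  refine eqOn_convex (isOpen_ball.inter isOpen_ball) ((convex_ball _ _).inter (convex_ball _ _))
    (hE1.mono inter_subset_left) (hE.mono inter_subset_right) (z := p) ⟨hpε, hpR⟩ ?_
  filter_upwards [(isOpen_ball.inter isOpen_ball).mem_nhds ⟨hpε, hpc⟩] with w hw
  exact hag w hw

/-- Extension when `1 / E` continues holomorphically to `w1`. -/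
theorem of_recip {φ E : ℂ → ℂ} {r R : ℝ} {w1 : ℂ}
    (hNF : NoFiniteIsolatedSingularity φ r) (hR : 1 < R) (hw1 : ‖w1‖ = R)
    (hbr : ∀ z : ℂ, 1 < ‖z‖ → ‖z‖ < R → Branch φ r z E)
    (hE : DifferentiableOn ℂ E (ball 0 R)) {ε : ℝ} (hε : 0 < ε) {y : ℂ → ℂ}
    (hy : DifferentiableOn ℂ y (ball w1 ε)) {z0 : ℂ} (hz0 : z0 ∈ ball w1 ε ∩ ball 0 R)
    (hEy : ∀ᶠ w in 𝓝 z0, E w * y w = 1) : LocExt E R w1 := by
  have hEy' : ∀ w ∈ ball w1 ε ∩ ball 0 R, E w * y w = 1 :=
    eqOn_convex (f := fun w => E w * y w) (g := fun _ => (1 : ℂ)) (isOpen_ball.inter isOpen_ball)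
      ((convex_ball _ _).inter (convex_ball _ _))
      ((hE.mono inter_subset_right).mul (hy.mono inter_subset_left))
      (differentiableOn_const _) hz0 hEy
  have hyan : AnalyticAt ℂ y w1 := hy.analyticAt (isOpen_ball.mem_nhds (mem_ball_self hε))
  have hyne : ∀ᶠ w in 𝓝[≠] w1, y w ≠ 0 := by
    rcases hyan.eventually_eq_zero_or_eventually_ne_zero with h | h
    · exfalso
      have hz := eqOn_convex (f := y) (g := fun _ => (0 : ℂ)) isOpen_ball (convex_ball _ _) hy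
        (differentiableOn_const _) (mem_ball_self hε) h
      have h1 := hEy' z0 hz0
      rw [hz hz0.1, mul_zero] at h1
      exact zero_ne_one h1
    · exact h
  rw [eventually_nhdsWithin_iff, Metric.eventually_nhds_iff] at hyne
  obtain ⟨ε1, hε1, hne⟩ := hyne
  set ε' : ℝ := min (min ε ε1) (R - 1) with hε'
  have hε'0 : 0 < ε' := lt_min (lt_min hε hε1) (by linarith)
  have hε'ε : ε' ≤ ε := (min_le_left _ _).trans (min_le_left _ _)
  have hε'1 : ε' ≤ ε1 := (min_le_left _ _).trans (min_le_right _ _)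
  have hε'R : ε' ≤ R - 1 := min_le_right _ _
  have hne' : ∀ w ∈ ball w1 ε' \ {w1}, y w ≠ 0 := fun w hw =>
    hne (lt_of_lt_of_le (mem_ball.1 hw.1) hε'1) hw.2
  have hout : ∀ w ∈ ball w1 ε', 1 < ‖w‖ := by
    intro w hw
    rw [mem_ball, dist_eq_norm] at hw
    have := norm_sub_norm_le w1 w
    rw [norm_sub_rev, hw1] at this
    linarith
  set ψ : ℂ → ℂ := fun w => (y w)⁻¹ with hψ
  have hψd : DifferentiableOn ℂ ψ (ball w1 ε' \ {w1}) :=
    (hy.mono (diff_subset.trans (ball_subset_ball hε'ε))).inv hne'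
  obtain ⟨τ, hτ0, hτ1, hτη, hτR, hτn, hτd⟩ := radial hR hw1 hε'0
  set p : ℂ := ((1 - τ : ℝ) : ℂ) * w1 with hp
  have hpε : p ∈ ball w1 ε' := by
    rw [mem_ball, dist_eq_norm, hτd]; exact hτη
  have hpR : p ∈ ball (0 : ℂ) R := by
    rw [mem_ball_zero_iff, hτn]
    nlinarith
  have hEψ : ∀ w ∈ ball w1 ε' ∩ ball 0 R, E w = ψ w := by
    intro w hw
    have h1 := hEy' w ⟨ball_subset_ball hε'ε hw.1, hw.2⟩
    have h2 : y w ≠ 0 := by
      intro h0; rw [h0, mul_zero] at h1; exact zero_ne_one h1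
    simp only [hψ]
    exact eq_inv_of_mul_eq_one_left h1
  have hopen : IsOpen (ball w1 ε' ∩ ball (0 : ℂ) R) := isOpen_ball.inter isOpen_ball
  obtain ⟨ρ0, hρ0, hρs⟩ := Metric.isOpen_iff.1 hopen p ⟨hpε, hpR⟩
  have hw1R : w1 ∉ ball (0 : ℂ) R := by rw [mem_ball_zero_iff, hw1]; exact lt_irrefl _
  have hbrψ : Branch φ r p ψ := by
    refine Branch.step p p p ρ0 E ψ (hbr p (hout p hpε) (mem_ball_zero_iff.1 hpR))
      (fun w hw => hout w (hρs hw).1) ?_ (mem_ball_self hρ0) (mem_ball_self hρ0) ?_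
    · refine hψd.mono fun w hw => ⟨(hρs hw).1, ?_⟩
      rintro rfl
      exact hw1R (hρs hw).2
    · filter_upwards [hopen.mem_nhds ⟨hpε, hpR⟩] with w hw
      exact hEψ w hw
  obtain ⟨E', hE'd, hE'⟩ := hNF w1 ε' ψ hε'0 hout hψd ⟨p, ⟨hpε, by
    intro h
    rw [mem_singleton_iff] at h
    rw [h] at hpR
    exact hw1R hpR⟩, hbrψ⟩
  refine ⟨ε', E', hε'0, hE'd, fun w hw => ?_⟩
  rw [hE' w hw.1 (by rintro rfl; exact hw1R hw.2), hEψ w hw]

theorem annulus_preconnected (κ R : ℝ) (hκ : 0 ≤ κ) :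
    IsPreconnected {w : ℂ | κ < ‖w‖ ∧ ‖w‖ < R} := by
  have h : {w : ℂ | κ < ‖w‖ ∧ ‖w‖ < R} =
      (fun p : ℝ × ℝ => (p.1 : ℂ) * Complex.exp (p.2 * Complex.I)) '' (Ioo κ R ×ˢ univ) := by
    ext w
    constructor
    · rintro ⟨h1, h2⟩
      exact ⟨(‖w‖, w.arg), ⟨⟨h1, h2⟩, mem_univ _⟩, Complex.norm_mul_exp_arg_mul_I w⟩
    · rintro ⟨⟨t, θ⟩, ⟨ht, _⟩, rfl⟩
      have ht0 : 0 ≤ t := hκ.trans ht.1.le
      simp only [mem_setOf_eq, norm_mul, Complex.norm_exp_ofReal_mul_I, mul_one,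
        Complex.norm_real, Real.norm_of_nonneg ht0]
      exact ht
  rw [h]
  refine (isPreconnected_Ioo.prod isPreconnected_univ).image _ ?_
  fun_prop

theorem relation_annulus {φ E : ℂ → ℂ} {r R κ : ℝ} (hr : 1 < r) (hrR : r ≤ R) (hκ0 : 0 ≤ κ)
    (hκ : κ < 1)
    (hE : DifferentiableOn ℂ E (ball 0 R)) (hEφ : ∀ w ∈ ball (0 : ℂ) r, E w = φ w)
    {m : ℕ} {A : ℕ → ℂ → ℂ} (hA : ∀ j ≤ m, DifferentiableOn ℂ (A j) {w | κ < ‖w‖})
    (hrel : ∀ w : ℂ, ‖w‖ = 1 → ∑ j ∈ Finset.range (m + 1), A j w * φ w ^ j = 0) :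
    ∀ w : ℂ, κ < ‖w‖ → ‖w‖ < R → ∑ j ∈ Finset.range (m + 1), A j w * E w ^ j = 0 := by
  set U : Set ℂ := {w : ℂ | κ < ‖w‖ ∧ ‖w‖ < R} with hU
  have hUo : IsOpen U := (isOpen_lt continuous_const continuous_norm).inter
    (isOpen_lt continuous_norm continuous_const)
  have hd : DifferentiableOn ℂ (fun w => ∑ j ∈ Finset.range (m + 1), A j w * E w ^ j) U := by
    refine DifferentiableOn.fun_sum fun j hj => ?_
    refine DifferentiableOn.mul ?_ (DifferentiableOn.pow ?_ _)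
    · exact (hA j (by rw [Finset.mem_range] at hj; omega)).mono fun w hw => hw.1
    · exact hE.mono fun w hw => mem_ball_zero_iff.2 hw.2
  have h1U : (1 : ℂ) ∈ U := by
    constructor
    · rw [norm_one]; exact hκ
    · rw [norm_one]; linarith
  have hfreq : ∃ᶠ z in 𝓝[≠] (1 : ℂ), ∑ j ∈ Finset.range (m + 1), A j z * E z ^ j = 0 := by
    have hder : HasDerivAt (fun θ : ℝ => Complex.exp (θ * Complex.I)) (Complex.exp ((0 : ℝ) * Complex.I) * Complex.I) 0 := by
      have h1 : HasDerivAt (fun θ : ℝ => (θ : ℂ) * Complex.I) (1 * Complex.I) 0 :=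
        (Complex.ofRealCLM.hasDerivAt (x := (0 : ℝ))).mul_const _
      have h2 := h1.cexp
      simpa using h2
    have hne : Complex.exp ((0 : ℝ) * Complex.I) * Complex.I ≠ 0 := by simp
    have ht := hder.tendsto_nhdsNE hne
    have h01 : Complex.exp ((0 : ℝ) * Complex.I) = 1 := by simp
    rw [h01] at ht
    have hev : ∀ᶠ θ : ℝ in 𝓝[≠] (0 : ℝ),
        ∑ j ∈ Finset.range (m + 1), A j (Complex.exp (θ * Complex.I)) *
          E (Complex.exp (θ * Complex.I)) ^ j = 0 := by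
      refine Eventually.of_forall fun θ => ?_
      have hn : ‖Complex.exp (θ * Complex.I)‖ = 1 := Complex.norm_exp_ofReal_mul_I θ
      rw [hEφ _ (mem_ball_zero_iff.2 (by rw [hn]; exact hr))]
      exact hrel _ hn
    exact ht.frequently hev.frequently
  have hz := (hd.analyticOnNhd hUo).eqOn_zero_of_preconnected_of_frequently_eq_zero
    (annulus_preconnected κ R hκ0) h1U hfreq
  intro w h1 h2
  exact hz ⟨h1, h2⟩

/-- The core argument. -/
theorem core {φ : ℂ → ℂ} {r : ℝ} (hr : 1 < r) (hφ : DifferentiableOn ℂ φ (ball 0 r))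
    (hinj : InjOn φ (ball 0 r)) {lam : ℝ} (hlam : 0 < lam) (hS : Solvable (φ '' ball 0 1) lam)
    (hnd : ¬ ∃ (p : ℂ) (r0 : ℝ), 0 < r0 ∧ φ '' ball 0 1 = ball p r0)
    {m : ℕ} (hm : 1 ≤ m) {A : ℕ → ℂ → ℂ} {κ : ℝ} (hκ0 : 0 ≤ κ) (hκ : κ < 1)
    (hA : ∀ j ≤ m, DifferentiableOn ℂ (A j) {w | κ < ‖w‖})
    (hrel : ∀ w : ℂ, ‖w‖ = 1 → ∑ j ∈ Finset.range (m + 1), A j w * φ w ^ j = 0)
    (hgood : ∀ w1 : ℂ, 1 < ‖w1‖ → A (m - 1) w1 ≠ 0 ∨ ((∀ᶠ w in 𝓝[≠] w1, A m w ≠ 0) ∧
      ∀ j < m, Tendsto (fun w => A j w / A m w * (w - w1) ^ (m - j)) (𝓝[≠] w1) (𝓝 0))) :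
    False := by
  obtain ⟨hBB, -, hrest⟩ := result φ r hr hφ hinj lam hlam hS
  obtain ⟨hNF, -, -⟩ := hrest hnd
  rcases maximal (by linarith) hφ with ⟨E, hE, hEφ⟩ | ⟨R, E, w1, hrR, hE, hEφ, hw1, hno⟩
  · -- the entire case
    have him : E '' ball 0 1 = φ '' ball 0 1 :=
      image_congr fun w hw => hEφ w (ball_subset_ball hr.le hw)
    have hinjE : InjOn E (ball 0 r) := fun x hx y hy h => hinj hx hy (by
      rw [← hEφ x hx, ← hEφ y hy]; exact h)
    obtain ⟨-, -, h3⟩ := result E r hr hE.differentiableOn hinjE lam hlam (by rw [him]; exact hS)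
    obtain ⟨-, -, h4⟩ := h3 (by rw [him]; exact hnd)
    exact h4 fun z => (hE.analyticAt z).meromorphicAt
  · refine hno ?_
    have hR : 1 < R := by linarith
    have hbr : ∀ z : ℂ, 1 < ‖z‖ → ‖z‖ < R → Branch φ r z E := fun z h1 h2 =>
      branch_of_lt hr hrR hE hEφ h1 h2
    have hrelE := relation_annulus hr hrR hκ0 hκ hE hEφ hA hrel
    have hw1R : w1 ∉ ball (0 : ℂ) R := by rw [mem_ball_zero_iff, hw1]; exact lt_irrefl _
    have hUo : IsOpen {w : ℂ | κ < ‖w‖} := isOpen_lt continuous_const continuous_norm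
    have hw1U : w1 ∈ {w : ℂ | κ < ‖w‖} := by
      simp only [mem_setOf_eq, hw1]; linarith
    have hAan : ∀ j ≤ m, AnalyticAt ℂ (A j) w1 := fun j hj =>
      (hA j hj).analyticAt (hUo.mem_nhds hw1U)
    have hmild : ((∀ᶠ w in 𝓝[≠] w1, A m w ≠ 0) ∧
        ∀ j < m, Tendsto (fun w => A j w / A m w * (w - w1) ^ (m - j)) (𝓝[≠] w1) (𝓝 0)) →
        LocExt E R w1 := by
      rintro ⟨hne, ht⟩
      refine of_small hlam hBB hR hw1 hbr hE fun η hη => ?_
      refine mild_small hm hw1R hne ht ?_ hη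
      refine eventually_nhdsWithin_of_eventually_nhds ?_
      filter_upwards [hUo.mem_nhds hw1U] with w hw hwR
      exact hrelE w hw (mem_ball_zero_iff.1 hwR)
    rcases hgood w1 (by rw [hw1]; exact hR) with hg | hg
    · by_cases hAm : A m w1 = 0
      · obtain ⟨ε, y, hε, hy, hyu⟩ := reversed_root hm hAan hAm hg
        by_cases hb : ∃ (M δ : ℝ), 0 < δ ∧ ∀ w ∈ ball w1 δ ∩ ball 0 R, ‖E w‖ ≤ M
        · obtain ⟨M, δ, hδ, hM⟩ := hb
          refine of_small hlam hBB hR hw1 hbr hE fun η hη => ?_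
          refine ⟨min δ (η / (|M| + 1)), lt_min hδ (by positivity), fun w hw hwd => ?_⟩
          have h1 : ‖E w‖ ≤ |M| + 1 := by
            have := hM w ⟨by rw [mem_ball, dist_eq_norm]; exact lt_of_lt_of_le hwd (min_le_left _ _),
              hw⟩
            have h2 := le_abs_self M
            linarith
          have h2 : ‖w - w1‖ ≤ η / (|M| + 1) := (lt_of_lt_of_le hwd (min_le_right _ _)).le
          calc ‖w - w1‖ * ‖E w‖ ≤ η / (|M| + 1) * (|M| + 1) := by gcongr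
            _ = η := by field_simp
        · push Not at hb
          obtain ⟨δ, hδ, hδU⟩ := Metric.isOpen_iff.1 hUo w1 hw1U
          obtain ⟨z0, hz0, hEz0⟩ := hb (1 / ε) (min δ ε) (lt_min hδ hε)
          have hz0ε : z0 ∈ ball w1 ε := ball_subset_ball (min_le_right _ _) hz0.1
          refine of_recip hNF hR hw1 hbr hE hε hy (z0 := z0) ⟨hz0ε, hz0.2⟩ ?_
          have hcont : ContinuousAt (fun w => ‖E w‖) z0 :=
            ((hE.differentiableAt (isOpen_ball.mem_nhds hz0.2)).continuousAt).norm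
          have hbig : ∀ᶠ w in 𝓝 z0, 1 / ε < ‖E w‖ := hcont.eventually (lt_mem_nhds hEz0)
          filter_upwards [hbig, (isOpen_ball.inter isOpen_ball).mem_nhds hz0] with w h1 h2
          have hε1 : 0 < 1 / ε := by positivity
          have hE0 : E w ≠ 0 := by
            intro h0
            rw [h0, norm_zero] at h1
            linarith
          have hz : ∑ j ∈ Finset.range (m + 1), A (m - j) w * ((E w)⁻¹) ^ j = 0 := by
            have h3 := hrelE w (hδU (ball_subset_ball (min_le_left _ _) h2.1))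
              (mem_ball_zero_iff.1 h2.2)
            rw [← Finset.sum_range_reflect] at h3
            have h4 : ∑ j ∈ Finset.range (m + 1), A (m - j) w * ((E w)⁻¹) ^ j =
                ((E w)⁻¹) ^ m * ∑ j ∈ Finset.range (m + 1),
                  A (m + 1 - 1 - j) w * E w ^ (m + 1 - 1 - j) := by
              rw [Finset.mul_sum]
              refine Finset.sum_congr rfl fun j hj => ?_
              have hj' : j ≤ m := by rw [Finset.mem_range] at hj; omega
              rw [Nat.add_sub_cancel]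
              have h5 : ((E w)⁻¹) ^ m = ((E w)⁻¹) ^ j * ((E w)⁻¹) ^ (m - j) := by
                rw [← pow_add]; congr 1; omega
              rw [h5]
              have h6 : ((E w)⁻¹) ^ (m - j) * E w ^ (m - j) = 1 := by
                rw [← mul_pow, inv_mul_cancel₀ hE0, one_pow]
              linear_combination (-(A (m - j) w * ((E w)⁻¹) ^ j)) * h6
            rw [h4, h3, mul_zero]
          have h7 : ‖(E w)⁻¹‖ < ε := by
            rw [norm_inv]
            have := (inv_lt_inv₀ (lt_trans hε1 h1) hε1).2 h1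
            simpa using this
          have h8 := hyu w (ball_subset_ball (min_le_right _ _) h2.1) _ h7 hz
          rw [← h8, mul_inv_cancel₀ hE0]
      · refine hmild ⟨?_, fun j hj => ?_⟩
        · exact eventually_nhdsWithin_of_eventually_nhds
            ((hAan m le_rfl).continuousAt.eventually_ne hAm)
        · have h1 : ContinuousAt (fun w => A j w / A m w * (w - w1) ^ (m - j)) w1 := by
            refine ContinuousAt.mul ?_ ?_
            · exact (hAan j hj.le).continuousAt.div (hAan m le_rfl).continuousAt hAm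
            · fun_prop
          have h2 := h1.tendsto
          have h3 : m - j ≠ 0 := by omega
          simp only [sub_self, zero_pow h3, mul_zero] at h2
          exact h2.mono_left nhdsWithin_le_nhds
    · exact hmild hg

end Pool.Agent.Q162.Sch
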