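import Mathlib

/-!
Zeros of exponential sums `Σ c_i exp(ν_i ζ)` move by at most one if the coefficients have a small
relative change.
-/

set_option autoImplicit false

open Metric Set Filter Topology

namespace Pool.Agent.Q162.Sch

/-- exponentials with distinct frequencies are linearly independent -/
theorem exp_indep {ι : Type*} [Fintype ι] {ν : ι → ℂ} (hν : Function.Injective ν) {b : ι → ℂ}
    (h : ∀ z : ℂ, ∑ i, b i * Complex.exp (ν i * z) = 0) : b = 0 := by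
  classical
  set χ : ι → (Multiplicative ℂ →* ℂ) := fun i =>
    { toFun := fun z => Complex.exp (ν i * Multiplicative.toAdd z)
      map_one' := by simp
      map_mul' := fun x y => by simp [mul_add, Complex.exp_add] } with hχdef
  have hχ : Function.Injective χ := by
    intro i j hij
    apply hν
    have h1 : ∀ z : ℂ, Complex.exp (ν i * z) = Complex.exp (ν j * z) := fun z =>
      DFunLike.congr_fun hij (Multiplicative.ofAdd z)
    have hd : ∀ k : ι, HasDerivAt (fun z : ℂ => Complex.exp (ν k * z)) (ν k) 0 := by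
      intro k
      have := ((hasDerivAt_id (0 : ℂ)).const_mul (ν k)).cexp
      simpa using this
    have h4 : (fun z : ℂ => Complex.exp (ν i * z)) = fun z => Complex.exp (ν j * z) := funext h1
    have h2 := hd i
    rw [h4] at h2
    exact h2.unique (hd j)
  have hli := (linearIndependent_monoidHom (Multiplicative ℂ) ℂ).comp χ hχ
  rw [Fintype.linearIndependent_iff] at hli
  funext i
  refine hli b ?_ i
  funext z
  have := h (Multiplicative.toAdd z)
  simpa [Finset.sum_apply, hχdef] using this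

theorem exp_lower {ι : Type*} [Fintype ι] {ν : ι → ℂ} (hν : Function.Injective ν) :
    ∃ m0 : ℝ, 0 < m0 ∧ ∀ b : ι → ℂ, ‖b‖ = 1 → ∃ ρ : ℝ, 0 < ρ ∧ ρ < 1 ∧
      ∀ η : ℂ, ‖η‖ = ρ → m0 ≤ ‖∑ i, b i * Complex.exp (ν i * η)‖ := by
  classical
  set C : ℝ := ∑ i, Real.exp ‖ν i‖ with hC
  have hC0 : 0 ≤ C := Finset.sum_nonneg fun i _ => (Real.exp_pos _).le
  have hdiff : ∀ (b b' : ι → ℂ) (η : ℂ), ‖η‖ ≤ 1 →
      ‖∑ i, b' i * Complex.exp (ν i * η) - ∑ i, b i * Complex.exp (ν i * η)‖ ≤ ‖b' - b‖ * C := by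
    intro b b' η hη
    rw [← Finset.sum_sub_distrib, hC, Finset.mul_sum]
    refine (norm_sum_le _ _).trans (Finset.sum_le_sum fun i _ => ?_)
    rw [← sub_mul, norm_mul]
    refine mul_le_mul (norm_le_pi_norm (b' - b) i) ?_ (norm_nonneg _) (norm_nonneg _)
    rw [Complex.norm_exp]
    refine Real.exp_le_exp.2 ((Complex.re_le_norm _).trans ?_)
    rw [norm_mul]
    calc ‖ν i‖ * ‖η‖ ≤ ‖ν i‖ * 1 := by gcongr
      _ = ‖ν i‖ := mul_one _
  have hcomp : IsCompact (sphere (0 : ι → ℂ) 1) := isCompact_sphere _ _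
  have key : ∃ m0 : ℝ, 0 < m0 ∧ ∀ b ∈ sphere (0 : ι → ℂ) 1, ∃ ρ : ℝ, 0 < ρ ∧ ρ < 1 ∧
      ∀ η : ℂ, ‖η‖ = ρ → m0 ≤ ‖∑ i, b i * Complex.exp (ν i * η)‖ := by
    refine hcomp.induction_on (p := fun s => ∃ m0 : ℝ, 0 < m0 ∧ ∀ b ∈ s, ∃ ρ : ℝ, 0 < ρ ∧ ρ < 1 ∧
      ∀ η : ℂ, ‖η‖ = ρ → m0 ≤ ‖∑ i, b i * Complex.exp (ν i * η)‖) ?_ ?_ ?_ ?_
    · exact ⟨1, one_pos, fun b hb => absurd hb (notMem_empty b)⟩
    · rintro s t hst ⟨m0, h0, h⟩
      exact ⟨m0, h0, fun b hb => h b (hst hb)⟩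
    · rintro s t ⟨m0, h0, h⟩ ⟨m1, h1, h'⟩
      refine ⟨min m0 m1, lt_min h0 h1, fun b hb => ?_⟩
      rcases hb with hb | hb
      · obtain ⟨ρ, a1, a2, a3⟩ := h b hb
        exact ⟨ρ, a1, a2, fun η hη => (min_le_left _ _).trans (a3 η hη)⟩
      · obtain ⟨ρ, a1, a2, a3⟩ := h' b hb
        exact ⟨ρ, a1, a2, fun η hη => (min_le_right _ _).trans (a3 η hη)⟩
    · intro b hb
      have hb0 : b ≠ 0 := by
        rintro rfl
        rw [mem_sphere_iff_norm, sub_zero, norm_zero] at hb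
        exact zero_ne_one hb
      set f : ℂ → ℂ := fun η => ∑ i, b i * Complex.exp (ν i * η) with hf
      have hfd : Differentiable ℂ f := by
        rw [hf]
        fun_prop
      have hfne : ∀ᶠ η in 𝓝[≠] (0 : ℂ), f η ≠ 0 := by
        rcases (hfd.analyticAt 0).eventually_eq_zero_or_eventually_ne_zero with h | h
        · exfalso
          apply hb0
          apply exp_indep hν
          intro z
          have := (hfd.differentiableOn.analyticOnNhd isOpen_univ).eqOn_zero_of_preconnected_of_eventuallyEq_zero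
            isPreconnected_univ (mem_univ 0) h
          exact this (mem_univ z)
        · exact h
      rw [eventually_nhdsWithin_iff, Metric.eventually_nhds_iff] at hfne
      obtain ⟨ε, hε, hε'⟩ := hfne
      set ρ : ℝ := min (ε / 2) (1 / 2) with hρ
      have hρ0 : 0 < ρ := lt_min (by linarith) (by norm_num)
      have hρ1 : ρ < 1 := lt_of_le_of_lt (min_le_right _ _) (by norm_num)
      have hρε : ρ < ε := lt_of_le_of_lt (min_le_left _ _) (by linarith)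
      obtain ⟨η0, hη0, hmin⟩ := (isCompact_sphere (0 : ℂ) ρ).exists_isMinOn
        ⟨(ρ : ℂ), by simp [abs_of_pos hρ0]⟩ (hfd.continuous.norm.continuousOn)
      set m : ℝ := ‖f η0‖ with hm
      have hm0 : 0 < m := by
        rw [mem_sphere_zero_iff_norm] at hη0
        refine norm_pos_iff.2 (hε' (by rw [dist_zero_right, hη0]; exact hρε) ?_)
        intro h0
        rw [mem_singleton_iff] at h0
        rw [h0, norm_zero] at hη0
        linarith
      refine ⟨ball b (m / (2 * (C + 1))) , mem_nhdsWithin_of_mem_nhds (ball_mem_nhds _ (by positivity)),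
        m / 2, by linarith, fun b' hb' => ⟨ρ, hρ0, hρ1, fun η hη => ?_⟩⟩
      have h1 : m ≤ ‖f η‖ := hmin (mem_sphere_zero_iff_norm.2 hη)
      have h2 := hdiff b b' η (by rw [hη]; exact hρ1.le)
      have h3 : ‖b' - b‖ * C ≤ m / 2 := by
        rw [mem_ball, dist_eq_norm] at hb'
        calc ‖b' - b‖ * C ≤ m / (2 * (C + 1)) * (C + 1) := by
              gcongr
              linarith
          _ = m / 2 := by field_simp
      have h4 : ‖f η‖ ≤ ‖∑ i, b' i * Complex.exp (ν i * η)‖ +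
          ‖∑ i, b' i * Complex.exp (ν i * η) - ∑ i, b i * Complex.exp (ν i * η)‖ := by
        have e : f η = (∑ i, b' i * Complex.exp (ν i * η)) -
            (∑ i, b' i * Complex.exp (ν i * η) - ∑ i, b i * Complex.exp (ν i * η)) := by
          simp only [hf]; ring
        rw [e]
        exact norm_sub_le _ _
      linarith
  obtain ⟨m0, h0, h⟩ := key
  exact ⟨m0, h0, fun b hb => h b (by rw [mem_sphere_iff_norm, sub_zero]; exact hb)⟩

theorem exp_stab {ι : Type*} [Fintype ι] {ν : ι → ℂ} (hν : Function.Injective ν) :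
    ∃ δ0 : ℝ, 0 < δ0 ∧ ∀ (T : Set ℂ) (c : ι → ℂ → ℂ) (ζ : ℂ → ℂ) (x : ℂ), IsPreconnected T →
      x ∈ T → ContinuousOn ζ T → (∀ y ∈ T, ∑ i, c i y * Complex.exp (ν i * ζ y) = 0) →
      (∃ i, c i x ≠ 0) → (∀ y ∈ T, ∀ i, ‖c i y - c i x‖ ≤ δ0 * ‖c i x‖) →
      ∀ y ∈ T, ‖ζ y - ζ x‖ ≤ 1 := by
  classical
  obtain ⟨m0, hm0, hlow⟩ := exp_lower hν
  set C : ℝ := ∑ i, Real.exp ‖ν i‖ with hC
  have hC0 : 0 ≤ C := Finset.sum_nonneg fun i _ => (Real.exp_pos _).le
  refine ⟨m0 / (2 * (C + 1)), by positivity, ?_⟩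
  intro T c ζ x hT hx hζ hrel hne hch
  set δ0 : ℝ := m0 / (2 * (C + 1)) with hδ0
  have hδ00 : 0 < δ0 := by positivity
  set b : ι → ℂ := fun i => c i x * Complex.exp (ν i * ζ x) with hb
  have hb0 : 0 < ‖b‖ := by
    obtain ⟨i, hi⟩ := hne
    rw [norm_pos_iff]
    intro h0
    have := congrFun h0 i
    simp only [hb, Pi.zero_apply] at this
    rcases mul_eq_zero.1 this with h | h
    · exact hi h
    · exact Complex.exp_ne_zero _ h
  obtain ⟨ρ, hρ0, hρ1, hρ⟩ := hlow (fun i => ((‖b‖⁻¹ : ℝ) : ℂ) * b i) (by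
    have : (fun i => ((‖b‖⁻¹ : ℝ) : ℂ) * b i) = ((‖b‖⁻¹ : ℝ) : ℂ) • b := rfl
    rw [this, norm_smul, Complex.norm_real, norm_inv, norm_norm, inv_mul_cancel₀ hb0.ne'])
  have hne' : ∀ y ∈ T, ‖ζ y - ζ x‖ ≠ ρ := by
    intro y hy hyρ
    have h1 := hρ (ζ y - ζ x) hyρ
    have e1 : ∑ i, ((‖b‖⁻¹ : ℝ) : ℂ) * b i * Complex.exp (ν i * (ζ y - ζ x)) =
        ((‖b‖⁻¹ : ℝ) : ℂ) * ∑ i, c i x * Complex.exp (ν i * ζ y) := by
      rw [Finset.mul_sum]
      refine Finset.sum_congr rfl fun i _ => ?_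
      simp only [hb]
      have : Complex.exp (ν i * ζ x) * Complex.exp (ν i * (ζ y - ζ x)) =
          Complex.exp (ν i * ζ y) := by
        rw [← Complex.exp_add]; congr 1; ring
      rw [← this]; ring
    rw [e1, norm_mul, Complex.norm_real, norm_inv, norm_norm] at h1
    have h2 : m0 * ‖b‖ ≤ ‖∑ i, c i x * Complex.exp (ν i * ζ y)‖ := by
      have := mul_le_mul_of_nonneg_right h1 hb0.le
      calc m0 * ‖b‖ ≤ _ := this
        _ = _ := by rw [mul_comm, ← mul_assoc, mul_inv_cancel₀ hb0.ne', one_mul]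
    have h3 : ∑ i, c i x * Complex.exp (ν i * ζ y) =
        - ∑ i, (c i y - c i x) * Complex.exp (ν i * ζ y) := by
      have := hrel y hy
      simp only [sub_mul, Finset.sum_sub_distrib, this]
      ring
    have h4 : ‖∑ i, c i x * Complex.exp (ν i * ζ y)‖ ≤ δ0 * ‖b‖ * C := by
      rw [h3, norm_neg, hC, Finset.mul_sum]
      refine (norm_sum_le _ _).trans (Finset.sum_le_sum fun i _ => ?_)
      rw [norm_mul]
      have e2 : Complex.exp (ν i * ζ y) =
          Complex.exp (ν i * ζ x) * Complex.exp (ν i * (ζ y - ζ x)) := by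
        rw [← Complex.exp_add]; congr 1; ring
      have e3 : ‖Complex.exp (ν i * (ζ y - ζ x))‖ ≤ Real.exp ‖ν i‖ := by
        rw [Complex.norm_exp]
        refine Real.exp_le_exp.2 ((Complex.re_le_norm _).trans ?_)
        rw [norm_mul, hyρ]
        calc ‖ν i‖ * ρ ≤ ‖ν i‖ * 1 := by gcongr
          _ = ‖ν i‖ := mul_one _
      have e4 : ‖c i x‖ * ‖Complex.exp (ν i * ζ x)‖ ≤ ‖b‖ := by
        rw [← norm_mul]
        exact norm_le_pi_norm b i
      calc ‖c i y - c i x‖ * ‖Complex.exp (ν i * ζ y)‖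
          ≤ (δ0 * ‖c i x‖) * ‖Complex.exp (ν i * ζ y)‖ := by
            gcongr
            exact hch y hy i
        _ = δ0 * (‖c i x‖ * ‖Complex.exp (ν i * ζ x)‖) *
            ‖Complex.exp (ν i * (ζ y - ζ x))‖ := by rw [e2, norm_mul]; ring
        _ ≤ δ0 * ‖b‖ * Real.exp ‖ν i‖ := by gcongr
    have h5 : δ0 * ‖b‖ * C ≤ m0 / 2 * ‖b‖ := by
      have : δ0 * C ≤ m0 / 2 := by
        calc δ0 * C ≤ δ0 * (C + 1) := by gcongr; linarith
          _ = m0 / 2 := by rw [hδ0]; field_simp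
      nlinarith
    nlinarith
  intro y hy
  by_contra hlt
  push Not at hlt
  have hiv := hT.intermediate_value hx hy (f := fun y => ‖ζ y - ζ x‖)
    ((hζ.sub continuousOn_const).norm)
  have hmem : ρ ∈ Icc (‖ζ x - ζ x‖) (‖ζ y - ζ x‖) := by
    rw [sub_self, norm_zero]
    exact ⟨hρ0.le, by linarith⟩
  obtain ⟨y', hy', he⟩ := hiv hmem
  exact hne' y' hy' he

theorem rel_change {A : ℂ → ℂ} {w1 : ℂ} (hA : AnalyticAt ℂ A w1)
    (hne : ¬ ∀ᶠ w in 𝓝 w1, A w = 0) {δ0 : ℝ} (h0 : 0 < δ0) :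
    ∀ᶠ δ in 𝓝[>] (0 : ℝ), ∀ w w' : ℂ, w ≠ w1 → ‖w - w1‖ < δ → ‖w' - w1‖ < δ →
      ‖w' - w‖ ≤ δ * ‖w - w1‖ → A w ≠ 0 ∧ ‖A w' - A w‖ ≤ δ0 * ‖A w‖ := by
  obtain ⟨k, g, hg, hg0, hAg⟩ := hA.exists_eventuallyEq_pow_smul_nonzero_iff.2 hne
  have hgc : ContinuousAt g w1 := hg.continuousAt
  have hF : ContinuousAt (fun p : ℂ × ℂ × ℂ =>
      ‖(1 + p.1) ^ k * g p.2.1 - g p.2.2‖ - δ0 * ‖g p.2.2‖) ((0 : ℂ), w1, w1) := by
    have c1 : ContinuousAt (fun p : ℂ × ℂ × ℂ => g p.2.1) ((0 : ℂ), w1, w1) :=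
      ContinuousAt.comp (f := fun p : ℂ × ℂ × ℂ => p.2.1) (g := g) hgc (by fun_prop)
    have c2 : ContinuousAt (fun p : ℂ × ℂ × ℂ => g p.2.2) ((0 : ℂ), w1, w1) :=
      ContinuousAt.comp (f := fun p : ℂ × ℂ × ℂ => p.2.2) (g := g) hgc (by fun_prop)
    have c3 : ContinuousAt (fun p : ℂ × ℂ × ℂ => (1 + p.1) ^ k) ((0 : ℂ), w1, w1) := by fun_prop
    exact ((c3.mul c1).sub c2).norm.sub (continuousAt_const.mul c2.norm)
  have hneg : (fun p : ℂ × ℂ × ℂ => ‖(1 + p.1) ^ k * g p.2.1 - g p.2.2‖ - δ0 * ‖g p.2.2‖)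
      ((0 : ℂ), w1, w1) < 0 := by
    simp
    exact mul_pos h0 (norm_pos_iff.2 hg0)
  have hev := hF.eventually (gt_mem_nhds hneg)
  obtain ⟨ε, hε, hε'⟩ := Metric.eventually_nhds_iff.1 hev
  obtain ⟨ε2, hε2, hε2'⟩ := Metric.eventually_nhds_iff.1 (hAg.and (hgc.eventually_ne hg0))
  filter_upwards [Ioo_mem_nhdsGT (lt_min hε hε2)] with δ hδ
  intro w w' hww1 hw hw' hd
  have hδ0 : 0 < δ := hδ.1
  have hδε : δ < ε := lt_of_lt_of_le hδ.2 (min_le_left _ _)
  have hδε2 : δ < ε2 := lt_of_lt_of_le hδ.2 (min_le_right _ _)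
  have hwne : w - w1 ≠ 0 := sub_ne_zero.2 hww1
  have hwn : 0 < ‖w - w1‖ := norm_pos_iff.2 hwne
  set θ : ℂ := (w' - w) / (w - w1) with hθ
  have hθn : ‖θ‖ ≤ δ := by
    rw [hθ, norm_div, div_le_iff₀ hwn]; exact hd
  have h1 := hε' (y := (θ, w', w)) (by
    rw [Prod.dist_eq, Prod.dist_eq]
    simp only [dist_eq_norm, sub_zero]
    refine max_lt (by linarith) (max_lt (by linarith) (by linarith)))
  simp only at h1
  have hAw := (hε2' (y := w) (by rw [dist_eq_norm]; linarith))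
  have hAw' := (hε2' (y := w') (by rw [dist_eq_norm]; linarith))
  rw [smul_eq_mul] at hAw hAw'
  have e1 : (w' - w1) = (w - w1) * (1 + θ) := by
    rw [hθ]; field_simp; ring
  refine ⟨?_, ?_⟩
  · rw [hAw.1]
    exact mul_ne_zero (pow_ne_zero _ hwne) hAw.2
  · rw [hAw.1, hAw'.1, e1]
    have e2 : ((w - w1) * (1 + θ)) ^ k * g w' - (w - w1) ^ k * g w =
        (w - w1) ^ k * ((1 + θ) ^ k * g w' - g w) := by rw [mul_pow]; ring
    rw [e2, norm_mul, norm_mul]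
    have h2 : ‖(1 + θ) ^ k * g w' - g w‖ ≤ δ0 * ‖g w‖ := by linarith
    calc ‖(w - w1) ^ k‖ * ‖(1 + θ) ^ k * g w' - g w‖ ≤ ‖(w - w1) ^ k‖ * (δ0 * ‖g w‖) := by gcongr
      _ = δ0 * (‖(w - w1) ^ k‖ * ‖g w‖) := by ring

end Pool.Agent.Q162.Sch
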