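import Pool.Agent.Q162.Sch.Core

/-!
From a relation on the boundary of `φ(D)` to a relation between functions of `w`; normalization of
the Riemann map.
-/

set_option autoImplicit false

open MeasureTheory Metric Set Filter Topology ComplexConjugate
open Pool.Agent.Results.MP_83fd13_an.BranchSingularities

namespace Pool.Agent.Q162.Sch

/-- All solutions `ζ` of `Σ a_j(z) ζ^j = 0` are `o(1 / |z - z1|)` as `z → z1`. -/
def MildAt (m : ℕ) (a : ℕ → ℂ → ℂ) (z1 : ℂ) : Prop :=
  (∀ᶠ z in 𝓝[≠] z1, a m z ≠ 0) ∧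
  ∀ j < m, Tendsto (fun z => a j z / a m z * (z - z1) ^ (m - j)) (𝓝[≠] z1) (𝓝 0)

theorem exists_ball {V : Set ℂ} (hV : IsOpen V) (h : closedBall (0 : ℂ) 1 ⊆ V) :
    ∃ r1 : ℝ, 1 < r1 ∧ ball (0 : ℂ) r1 ⊆ V := by
  obtain ⟨δ, hδ, hs⟩ := (isCompact_closedBall (0 : ℂ) 1).exists_thickening_subset_open hV h
  rw [thickening_closedBall hδ zero_le_one] at hs
  exact ⟨δ + 1, by linarith, hs⟩

theorem trans {φ : ℂ → ℂ} {r : ℝ} (hr : 1 < r) (hφ : DifferentiableOn ℂ φ (ball 0 r))
    (hinj : InjOn φ (ball 0 r)) {lam : ℝ} (hlam : 0 < lam) (hS : Solvable (φ '' ball 0 1) lam)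
    (hnd : ¬ ∃ (p : ℂ) (r0 : ℝ), 0 < r0 ∧ φ '' ball 0 1 = ball p r0)
    {m : ℕ} (hm : 1 ≤ m) {a : ℕ → ℂ → ℂ} {U : Set ℂ} (hU : IsOpen U)
    (hsub : φ '' closedBall 0 1 ⊆ U) (ha : ∀ j ≤ m, DifferentiableOn ℂ (a j) U)
    (hrel : ∀ z ∈ φ '' sphere 0 1, ∑ j ∈ Finset.range (m + 1), a j z * conj z ^ j = 0)
    (hgood : ∀ v ∈ ball (0 : ℂ) 1, v ≠ 0 → a (m - 1) (φ v) ≠ 0 ∨ MildAt m a (φ v)) : False := by
  have hVo : IsOpen (ball (0 : ℂ) r ∩ φ ⁻¹' U) :=
    hφ.continuousOn.isOpen_inter_preimage isOpen_ball hU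
  obtain ⟨r1, hr1, hr1s⟩ := exists_ball hVo
    (fun w hw => ⟨closedBall_subset_ball hr hw, hsub ⟨w, hw, rfl⟩⟩)
  have hr10 : 0 < r1 := by linarith
  have hdiff : ∀ j ≤ m, ∀ w : ℂ, 1 / r1 < ‖w‖ →
      DifferentiableAt ℂ (fun w => conj (a j (φ (1 / conj w)))) w := by
    intro j hj w hw
    have hw0 : 0 < ‖w‖ := lt_trans (by positivity) hw
    have hwne : w ≠ 0 := norm_pos_iff.1 hw0
    have hcw : conj w ≠ 0 := (map_ne_zero _).2 hwne
    have hn : ‖1 / conj w‖ < r1 := by
      rw [norm_div, norm_one, RCLike.norm_conj]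
      exact (one_div_lt hr10 hw0).1 hw
    have hmem := hr1s (mem_ball_zero_iff.2 hn)
    have h1 : DifferentiableAt ℂ (fun u : ℂ => a j (φ (1 / u))) (conj w) := by
      have e1 : DifferentiableAt ℂ (a j) (φ (1 / conj w)) :=
        (ha j hj).differentiableAt (hU.mem_nhds hmem.2)
      have e2 : DifferentiableAt ℂ φ (1 / conj w) :=
        hφ.differentiableAt (isOpen_ball.mem_nhds hmem.1)
      have e3 : DifferentiableAt ℂ (fun u : ℂ => 1 / u) (conj w) :=
        (differentiableAt_const _).div differentiableAt_id hcw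
      have e4 : DifferentiableAt ℂ (fun u : ℂ => φ (1 / u)) (conj w) :=
        DifferentiableAt.comp (conj w) (g := φ) (f := fun u : ℂ => 1 / u) e2 e3
      exact DifferentiableAt.comp (conj w) (g := a j) (f := fun u : ℂ => φ (1 / u)) e1 e4
    exact differentiableAt_conj_conj_iff.2 h1
  refine core hr hφ hinj hlam hS hnd hm (A := fun j w => conj (a j (φ (1 / conj w))))
    (κ := 1 / r1) (by positivity) (by rw [div_lt_one hr10]; exact hr1) ?_ ?_ ?_
  · intro j hj w hw
    exact (hdiff j hj w hw).differentiableWithinAt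
  · intro w hw
    have hwne : w ≠ 0 := by
      rintro rfl
      simp at hw
    have hcw : conj w ≠ 0 := (map_ne_zero _).2 hwne
    have hinv : 1 / conj w = w := by
      rw [div_eq_iff hcw, Complex.mul_conj, Complex.normSq_eq_norm_sq, hw]
      simp
    have h1 := hrel (φ w) ⟨w, mem_sphere_zero_iff_norm.2 hw, rfl⟩
    have h2 := congrArg conj h1
    rw [map_sum, map_zero] at h2
    rw [← h2]
    refine Finset.sum_congr rfl fun j _ => ?_
    simp only [hinv, map_mul, map_pow, Complex.conj_conj]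
  · intro w1 hw1
    have hw10 : w1 ≠ 0 := by
      rintro rfl
      rw [norm_zero] at hw1
      linarith
    have hcw1 : conj w1 ≠ 0 := (map_ne_zero _).2 hw10
    set v1 : ℂ := 1 / conj w1 with hv1
    have hv1n : ‖v1‖ < 1 := by
      rw [hv1, norm_div, norm_one, RCLike.norm_conj, div_lt_one (by linarith)]
      exact hw1
    have hv1b : v1 ∈ ball (0 : ℂ) 1 := mem_ball_zero_iff.2 hv1n
    have hv1r : v1 ∈ ball (0 : ℂ) r := ball_subset_ball hr.le hv1b
    have hv10 : v1 ≠ 0 := div_ne_zero one_ne_zero hcw1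
    rcases hgood v1 hv1b hv10 with hg | ⟨hne, ht⟩
    · left
      exact (map_ne_zero _).2 hg
    · right
      set T : ℂ → ℂ := fun w => φ (1 / conj w) with hT
      have hTc : ContinuousAt T w1 := by
        have e1 : ContinuousAt (fun w : ℂ => 1 / conj w) w1 :=
          continuousAt_const.div Complex.continuous_conj.continuousAt hcw1
        have e2 : ContinuousAt φ (1 / conj w1) :=
          (hφ.differentiableAt (isOpen_ball.mem_nhds hv1r)).continuousAt
        exact ContinuousAt.comp (g := φ) (f := fun w : ℂ => 1 / conj w) e2 e1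
      have hTne : ∀ᶠ w in 𝓝[≠] w1, T w ≠ φ v1 := by
        have e1 : ContinuousAt (fun w : ℂ => 1 / conj w) w1 :=
          continuousAt_const.div Complex.continuous_conj.continuousAt hcw1
        have e2 : ∀ᶠ w in 𝓝 w1, 1 / conj w ∈ ball (0 : ℂ) r :=
          e1.eventually (isOpen_ball.mem_nhds hv1r)
        filter_upwards [eventually_nhdsWithin_of_eventually_nhds e2, self_mem_nhdsWithin] with w h1 h2 h3
        apply h2
        have h4 : 1 / conj w = v1 := hinj h1 hv1r h3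
        rw [hv1] at h4
        have h5 : conj w = conj w1 := by
          have := congrArg (fun x => x⁻¹) h4
          simpa using this
        exact (starRingEnd ℂ).injective h5
      have hTt : Tendsto T (𝓝[≠] w1) (𝓝[≠] (φ v1)) :=
        tendsto_nhdsWithin_iff.2 ⟨hTc.tendsto.mono_left nhdsWithin_le_nhds, hTne⟩
      have hD : ∃ D : ℂ, D ≠ 0 ∧ HasDerivAt (fun w => conj (T w)) D w1 := by
        have hφd : HasDerivAt φ (deriv φ v1) v1 :=
          (hφ.differentiableAt (isOpen_ball.mem_nhds hv1r)).hasDerivAt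
        have hφ0 : deriv φ v1 ≠ 0 := Pool.Agent.Y769.SC.nz φ r hφ hinj v1 hv1r
        have e1 : HasDerivAt (fun u : ℂ => u⁻¹) (-((conj w1) ^ 2)⁻¹) (conj w1) := hasDerivAt_inv hcw1
        have e2 : (conj w1)⁻¹ = v1 := by rw [hv1, one_div]
        have e3 : HasDerivAt (fun u : ℂ => φ u⁻¹) (deriv φ v1 * -((conj w1) ^ 2)⁻¹) (conj w1) := by
          rw [← e2] at hφd ⊢
          exact HasDerivAt.comp (conj w1) (h₂ := φ) (h := fun u : ℂ => u⁻¹) hφd e1
        have e4 := e3.conj_conj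
        rw [Complex.conj_conj] at e4
        refine ⟨conj (deriv φ v1 * -((conj w1) ^ 2)⁻¹), ?_, ?_⟩
        · refine (map_ne_zero _).2 (mul_ne_zero hφ0 ?_)
          exact neg_ne_zero.2 (inv_ne_zero (pow_ne_zero _ hcw1))
        · refine e4.congr_of_eventuallyEq (Eventually.of_forall fun w => ?_)
          simp only [hT, Function.comp_apply, one_div]
      obtain ⟨D, hD0, hDd⟩ := hD
      have hslope : Tendsto (fun w => (w - w1) / conj (T w - φ v1)) (𝓝[≠] w1) (𝓝 D⁻¹) := by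
        have h1 := (hasDerivAt_iff_tendsto_slope.1 hDd).inv₀ hD0
        refine h1.congr fun w => ?_
        rw [slope_def_field, inv_div, map_sub]
      refine ⟨?_, fun j hj => ?_⟩
      · have := hTt.eventually hne
        filter_upwards [this] with w hw
        exact (map_ne_zero _).2 hw
      · have h1 : Tendsto (fun w => conj (a j (T w) / a m (T w) * (T w - φ v1) ^ (m - j)))
            (𝓝[≠] w1) (𝓝 (conj 0)) :=
          (Complex.continuous_conj.tendsto 0).comp ((ht j hj).comp hTt)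
        have h2 := h1.mul (hslope.pow (m - j))
        rw [map_zero, zero_mul] at h2
        refine h2.congr' ?_
        filter_upwards [hTne] with w hw
        have h3 : conj (T w - φ v1) ≠ 0 := (map_ne_zero _).2 (sub_ne_zero.2 hw)
        simp only [hT] at h3 ⊢
        rw [map_mul, map_div₀, map_pow, div_pow]
        field_simp

/-- disc automorphisms. -/
theorem mobius {v : ℂ} (hv : ‖v‖ < 1) {r : ℝ} (hr : 1 < r) :
    ∃ (r' : ℝ) (M : ℂ → ℂ), 1 < r' ∧ DifferentiableOn ℂ M (ball 0 r') ∧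
      MapsTo M (ball 0 r') (ball 0 r) ∧ InjOn M (ball 0 r') ∧ M '' ball 0 1 = ball 0 1 ∧ M 0 = v := by
  have hid : ∀ w x : ℂ, ‖1 + conj x * w‖ ^ 2 - ‖w + x‖ ^ 2 = (1 - ‖w‖ ^ 2) * (1 - ‖x‖ ^ 2) := by
    intro w x
    simp only [← Complex.normSq_eq_norm_sq, Complex.normSq_apply, Complex.add_re, Complex.add_im,
      Complex.mul_re, Complex.mul_im, Complex.conj_re, Complex.conj_im, Complex.one_re,
      Complex.one_im]
    ring
  have hden : ∀ w x : ℂ, ‖w‖ ≤ 1 → ‖x‖ < 1 → 1 + conj x * w ≠ 0 := by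
    intro w x hw hx h0
    have h1 : ‖conj x * w‖ < 1 := by
      rw [norm_mul, RCLike.norm_conj]
      calc ‖x‖ * ‖w‖ ≤ ‖x‖ * 1 := by gcongr
        _ < 1 := by linarith
    have h2 : conj x * w = -1 := by linear_combination h0
    rw [h2] at h1
    simp at h1
  set M : ℂ → ℂ := fun w => (w + v) / (1 + conj v * w) with hM
  have hvv : 1 - ‖v‖ ^ 2 ≠ 0 := by
    have : ‖v‖ ^ 2 < 1 := by
      have := norm_nonneg v
      nlinarith
    linarith
  have hvv' : (0 : ℝ) < 1 - ‖v‖ ^ 2 := by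
    have := norm_nonneg v
    nlinarith
  have hO : IsOpen {w : ℂ | 1 + conj v * w ≠ 0} :=
    isOpen_ne_fun (by fun_prop) continuous_const
  have hMd : DifferentiableOn ℂ M {w : ℂ | 1 + conj v * w ≠ 0} := by
    intro w hw
    refine DifferentiableAt.differentiableWithinAt ?_
    exact DifferentiableAt.div (by fun_prop) (by fun_prop) hw
  have hle : ∀ w : ℂ, ‖w‖ ≤ 1 → ‖M w‖ ≤ 1 := by
    intro w hw
    have h0 := hden w v hw hv
    simp only [hM]
    rw [norm_div, div_le_one (norm_pos_iff.2 h0)]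
    have h1 := hid w v
    have h2 : 0 ≤ (1 - ‖w‖ ^ 2) * (1 - ‖v‖ ^ 2) := by
      refine mul_nonneg ?_ hvv'.le
      have := norm_nonneg w
      nlinarith
    exact (pow_le_pow_iff_left₀ (norm_nonneg _) (norm_nonneg _) two_ne_zero).1 (by linarith)
  have hlt : ∀ w x : ℂ, ‖w‖ < 1 → ‖x‖ < 1 → ‖(w + x) / (1 + conj x * w)‖ < 1 := by
    intro w x hw hx
    have h0 := hden w x hw.le hx
    rw [norm_div, div_lt_one (norm_pos_iff.2 h0)]
    have h1 := hid w x
    have h2 : 0 < (1 - ‖w‖ ^ 2) * (1 - ‖x‖ ^ 2) := by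
      have := norm_nonneg w
      have := norm_nonneg x
      refine mul_pos ?_ ?_ <;> nlinarith
    exact lt_of_pow_lt_pow_left₀ 2 (norm_nonneg _) (by linarith)
  have hVo : IsOpen ({w : ℂ | 1 + conj v * w ≠ 0} ∩ M ⁻¹' ball 0 r) :=
    hMd.continuousOn.isOpen_inter_preimage hO isOpen_ball
  obtain ⟨r', hr', hs⟩ := exists_ball hVo (fun w hw => by
    rw [mem_closedBall_zero_iff] at hw
    exact ⟨hden w v hw hv, mem_ball_zero_iff.2 (lt_of_le_of_lt (hle w hw) hr)⟩)
  refine ⟨r', M, hr', hMd.mono fun w hw => (hs hw).1, fun w hw => (hs hw).2, ?_, ?_, by simp [hM]⟩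
  · intro w hw w' hw' h
    have h1 : 1 + conj v * w ≠ 0 := (hs hw).1
    have h2 : 1 + conj v * w' ≠ 0 := (hs hw').1
    simp only [hM] at h
    rw [div_eq_div_iff h1 h2] at h
    have h3 : (w - w') * (1 - v * conj v) = 0 := by linear_combination h
    rcases mul_eq_zero.1 h3 with h4 | h4
    · exact sub_eq_zero.1 h4
    · exfalso
      rw [Complex.mul_conj, Complex.normSq_eq_norm_sq] at h4
      apply hvv
      exact_mod_cast h4
  · ext y
    constructor
    · rintro ⟨w, hw, rfl⟩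
      rw [mem_ball_zero_iff] at hw ⊢
      exact hlt w v hw hv
    · intro hy
      rw [mem_ball_zero_iff] at hy
      have hy1 := hlt y (-v) hy (by rwa [norm_neg])
      have hy0 := hden y (-v) hy.le (by rwa [norm_neg])
      refine ⟨(y + -v) / (1 + conj (-v) * y), mem_ball_zero_iff.2 hy1, ?_⟩
      have hd := hden _ v hy1.le hv
      simp only [hM]
      rw [div_eq_iff hd]
      rw [map_neg] at hy0 ⊢
      have h5 : (y + -v) / (1 + -conj v * y) * (1 + -conj v * y) = y + -v :=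
        div_mul_cancel₀ _ hy0
      set q : ℂ := (y + -v) / (1 + -conj v * y) with hq
      linear_combination h5

/-- One exceptional point is allowed. -/
theorem part1 {φ : ℂ → ℂ} {r : ℝ} (hr : 1 < r) (hφ : DifferentiableOn ℂ φ (ball 0 r))
    (hinj : InjOn φ (ball 0 r)) {lam : ℝ} (hlam : 0 < lam) (hS : Solvable (φ '' ball 0 1) lam)
    {m : ℕ} (hm : 1 ≤ m) {a : ℕ → ℂ → ℂ} {U : Set ℂ} (hU : IsOpen U)
    (hsub : closure (φ '' ball 0 1) ⊆ U) (ha : ∀ j ≤ m, DifferentiableOn ℂ (a j) U)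
    (hrel : ∀ z ∈ frontier (φ '' ball 0 1),
      ∑ j ∈ Finset.range (m + 1), a j z * conj z ^ j = 0)
    (hbad : {z : ℂ | z ∈ φ '' ball 0 1 ∧ a (m - 1) z = 0 ∧ ¬ MildAt m a z}.Subsingleton) :
    ∃ (p : ℂ) (r0 : ℝ), 0 < r0 ∧ φ '' ball 0 1 = ball p r0 := by
  by_contra hnd
  have hcl : ∀ (ψ : ℂ → ℂ) (s : ℝ), 1 < s → DifferentiableOn ℂ ψ (ball 0 s) →
      ψ '' closedBall 0 1 ⊆ closure (ψ '' ball 0 1) := by
    intro ψ s hs hψ
    have h1 : ContinuousOn ψ (closure (ball (0 : ℂ) 1)) := by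
      rw [closure_ball (0 : ℂ) one_ne_zero]
      exact hψ.continuousOn.mono (closedBall_subset_ball hs)
    have h2 := h1.image_closure
    rwa [closure_ball (0 : ℂ) one_ne_zero] at h2
  have hfr : ∀ (ψ : ℂ → ℂ) (s : ℝ), 1 < s → DifferentiableOn ℂ ψ (ball 0 s) →
      InjOn ψ (ball 0 s) → ψ '' sphere 0 1 ⊆ frontier (ψ '' ball 0 1) := by
    rintro ψ s hs hψ hi z ⟨w, hw, rfl⟩
    refine ⟨hcl ψ s hs hψ ⟨w, sphere_subset_closedBall hw, rfl⟩, fun hin => ?_⟩
    obtain ⟨w', hw', heq⟩ := interior_subset hin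
    have hww : w' = w := hi (ball_subset_ball hs.le hw')
      (closedBall_subset_ball hs (sphere_subset_closedBall hw)) heq
    rw [hww, mem_ball_zero_iff, mem_sphere_zero_iff_norm.1 hw] at hw'
    exact lt_irrefl _ hw'
  by_cases hex : ∃ v ∈ ball (0 : ℂ) 1, a (m - 1) (φ v) = 0 ∧ ¬ MildAt m a (φ v)
  · obtain ⟨v, hv, hv1, hv2⟩ := hex
    obtain ⟨r', M, hr', hMd, hMm, hMi, hMim, hM0⟩ := mobius (mem_ball_zero_iff.1 hv) hr
    have him : (fun w => φ (M w)) '' ball 0 1 = φ '' ball 0 1 := by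
      conv_rhs => rw [← hMim]
      rw [image_image]
    have hd' : DifferentiableOn ℂ (fun w => φ (M w)) (ball 0 r') := hφ.comp hMd hMm
    have hi' : InjOn (fun w => φ (M w)) (ball 0 r') := hinj.comp hMi hMm
    refine trans (φ := fun w => φ (M w)) hr' hd' hi' hlam (by rw [him]; exact hS)
      (by rw [him]; exact hnd) hm hU ?_ ha ?_ ?_
    · refine (hcl _ r' hr' hd').trans ?_
      rw [him]; exact hsub
    · intro z hz
      have := hfr _ r' hr' hd' hi' hz
      rw [him] at this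
      exact hrel z this
    · intro w hw hw0
      by_contra hcon
      push Not at hcon
      have hMw : M w ∈ ball (0 : ℂ) 1 := by rw [← hMim]; exact ⟨w, hw, rfl⟩
      have heq : φ (M w) = φ v := hbad ⟨⟨M w, hMw, rfl⟩, hcon.1, hcon.2⟩ ⟨⟨v, hv, rfl⟩, hv1, hv2⟩
      have h1 : M w = M 0 := by
        rw [hM0]
        exact hinj (ball_subset_ball hr.le hMw) (ball_subset_ball hr.le hv) heq
      exact hw0 (hMi (ball_subset_ball hr'.le hw) (mem_ball_self (by linarith)) h1)
  · refine trans hr hφ hinj hlam hS hnd hm hU ((hcl φ r hr hφ).trans hsub) ha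
      (fun z hz => hrel z (hfr φ r hr hφ hinj hz)) ?_
    intro v hv _
    by_contra hcon
    push Not at hcon
    exact hex ⟨v, hv, hcon.1, hcon.2⟩

end Pool.Agent.Q162.Sch
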