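import Pool.Agent.Q162.Sch.Growth
import Pool.Agent.Q162.Sch.Exp
import Pool.Agent.Q162.Sch.Trans

/-!
Domains on whose boundary an exponential sum in `conj z` with holomorphic coefficients vanishes.
-/

set_option autoImplicit false

open MeasureTheory Metric Set Filter Topology ComplexConjugate
open Pool.Agent.Results.MP_83fd13_an.BranchSingularities

namespace Pool.Agent.Q162.Sch

theorem refl_diff {φ : ℂ → ℂ} {r r1 : ℝ} (hφ : DifferentiableOn ℂ φ (ball 0 r)) {U : Set ℂ}
    (hU : IsOpen U) (hr1 : 0 < r1) (hr1s : ball (0 : ℂ) r1 ⊆ ball (0 : ℂ) r ∩ φ ⁻¹' U)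
    {f : ℂ → ℂ} (hf : DifferentiableOn ℂ f U) {w : ℂ} (hw : 1 / r1 < ‖w‖) :
    DifferentiableAt ℂ (fun w => conj (f (φ (1 / conj w)))) w := by
  have hw0 : 0 < ‖w‖ := lt_trans (by positivity) hw
  have hwne : w ≠ 0 := norm_pos_iff.1 hw0
  have hcw : conj w ≠ 0 := (map_ne_zero _).2 hwne
  have hn : ‖1 / conj w‖ < r1 := by
    rw [norm_div, norm_one, RCLike.norm_conj]
    exact (one_div_lt hr1 hw0).1 hw
  have hmem := hr1s (mem_ball_zero_iff.2 hn)
  have h1 : DifferentiableAt ℂ (fun u : ℂ => f (φ (1 / u))) (conj w) := by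
    have e1 : DifferentiableAt ℂ f (φ (1 / conj w)) := hf.differentiableAt (hU.mem_nhds hmem.2)
    have e2 : DifferentiableAt ℂ φ (1 / conj w) :=
      hφ.differentiableAt (isOpen_ball.mem_nhds hmem.1)
    have e3 : DifferentiableAt ℂ (fun u : ℂ => 1 / u) (conj w) :=
      (differentiableAt_const _).div differentiableAt_id hcw
    have e4 : DifferentiableAt ℂ (fun u : ℂ => φ (1 / u)) (conj w) :=
      DifferentiableAt.comp (conj w) (g := φ) (f := fun u : ℂ => 1 / u) e2 e3
    exact DifferentiableAt.comp (conj w) (g := f) (f := fun u : ℂ => φ (1 / u)) e1 e4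
  exact differentiableAt_conj_conj_iff.2 h1

theorem exp_main {φ : ℂ → ℂ} {r : ℝ} (hr : 1 < r) (hφ : DifferentiableOn ℂ φ (ball 0 r))
    (hinj : InjOn φ (ball 0 r)) {lam : ℝ} (hlam : 0 < lam) (hS : Solvable (φ '' ball 0 1) lam)
    (hnd : ¬ ∃ (p : ℂ) (r0 : ℝ), 0 < r0 ∧ φ '' ball 0 1 = ball p r0)
    {ι : Type*} [Fintype ι] {ν : ι → ℂ} (hν : Function.Injective ν) {a : ι → ℂ → ℂ} {U : Set ℂ}
    (hU : IsOpen U) (hsub : φ '' closedBall 0 1 ⊆ U) (ha : ∀ i, DifferentiableOn ℂ (a i) U)
    (hrel : ∀ z ∈ φ '' sphere 0 1, ∑ i, a i z * Complex.exp (ν i * conj z) = 0)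
    (hne : ∃ i, ∃ z ∈ φ '' ball 0 1, a i z ≠ 0) : False := by
  classical
  have hVo : IsOpen (ball (0 : ℂ) r ∩ φ ⁻¹' U) :=
    hφ.continuousOn.isOpen_inter_preimage isOpen_ball hU
  obtain ⟨r1, hr1, hr1s⟩ := exists_ball hVo
    (fun w hw => ⟨closedBall_subset_ball hr hw, hsub ⟨w, hw, rfl⟩⟩)
  have hr10 : 0 < r1 := by linarith
  have hκ1 : 1 / r1 < 1 := by rw [div_lt_one hr10]; exact hr1
  set A : ι → ℂ → ℂ := fun i w => conj (a i (φ (1 / conj w))) with hA
  have hAd : ∀ i (w : ℂ), 1 / r1 < ‖w‖ → DifferentiableAt ℂ (A i) w := fun i w hw =>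
    refl_diff hφ hU hr10 hr1s (ha i) hw
  have hUo : IsOpen {w : ℂ | 1 / r1 < ‖w‖} := isOpen_lt continuous_const continuous_norm
  have hνc : Function.Injective (fun i => conj (ν i)) := (starRingEnd ℂ).injective.comp hν
  obtain ⟨δ0, hδ0, hstab⟩ := exp_stab hνc
  refine principle hr hφ hinj hlam hS hnd ?_
  intro R E w1 hrR hE hEφ hw1
  have hR : 1 < R := by linarith
  -- the relation
  have hrelE : ∀ w : ℂ, 1 / r1 < ‖w‖ → ‖w‖ < R →
      ∑ i, A i w * Complex.exp (conj (ν i) * E w) = 0 := by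
    refine annulus_zero (f := fun w => ∑ i, A i w * Complex.exp (conj (ν i) * E w))
      (by positivity) hκ1 hR ?_ ?_
    · refine DifferentiableOn.fun_sum fun i _ => ?_
      refine DifferentiableOn.mul (fun w hw => (hAd i w hw.1).differentiableWithinAt) ?_
      have hE' : DifferentiableOn ℂ E {w : ℂ | 1 / r1 < ‖w‖ ∧ ‖w‖ < R} :=
        hE.mono fun w hw => mem_ball_zero_iff.2 hw.2
      exact (hE'.const_mul _).cexp
    · intro w hw
      have hwne : w ≠ 0 := by
        rintro rfl
        simp at hw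
      have hcw : conj w ≠ 0 := (map_ne_zero _).2 hwne
      have hinv : 1 / conj w = w := by
        rw [div_eq_iff hcw, Complex.mul_conj, Complex.normSq_eq_norm_sq, hw]
        simp
      have h1 := hrel (φ w) ⟨w, mem_sphere_zero_iff_norm.2 hw, rfl⟩
      have h2 := congrArg conj h1
      rw [map_sum, map_zero] at h2
      rw [← h2]
      refine Finset.sum_congr rfl fun i _ => ?_
      simp only [hA, hinv]
      rw [hEφ w (mem_ball_zero_iff.2 (by rw [hw]; exact hr)), map_mul, ← Complex.exp_conj, map_mul,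
        Complex.conj_conj]
  -- relative changes
  have hchg : ∀ i, ∀ᶠ δ in 𝓝[>] (0 : ℝ), ∀ w w' : ℂ, w ≠ w1 → ‖w - w1‖ < δ → ‖w' - w1‖ < δ →
      ‖w' - w‖ ≤ δ * ‖w - w1‖ →
      ((∃ z ∈ φ '' ball 0 1, a i z ≠ 0) → A i w ≠ 0) ∧ ‖A i w' - A i w‖ ≤ δ0 * ‖A i w‖ := by
    intro i
    by_cases hi : ∃ z ∈ φ '' ball 0 1, a i z ≠ 0
    · have han : AnalyticAt ℂ (A i) w1 := by
        have : DifferentiableOn ℂ (A i) {w : ℂ | 1 / r1 < ‖w‖} := fun w hw =>
          (hAd i w hw).differentiableWithinAt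
        exact this.analyticAt (hUo.mem_nhds (by simp only [mem_setOf_eq, hw1]; linarith))
      have hnz : ¬ ∀ᶠ w in 𝓝 w1, A i w = 0 := by
        intro hz
        obtain ⟨z, ⟨v, hv, rfl⟩, hz0⟩ := hi
        apply hz0
        have hw10 : w1 ≠ 0 := by
          rintro rfl
          rw [norm_zero] at hw1
          linarith
        have hcw1 : conj w1 ≠ 0 := (map_ne_zero _).2 hw10
        set v1 : ℂ := 1 / conj w1 with hv1
        have hv1b : v1 ∈ ball (0 : ℂ) 1 := by
          rw [mem_ball_zero_iff, hv1, norm_div, norm_one, RCLike.norm_conj, hw1,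
            div_lt_one (by linarith)]
          exact hR
        have hv10 : v1 ≠ 0 := div_ne_zero one_ne_zero hcw1
        have hinv : 1 / conj v1 = w1 := by
          rw [hv1, map_div₀, map_one, Complex.conj_conj, one_div_one_div]
        have hc : Tendsto (fun x : ℂ => 1 / conj x) (𝓝 v1) (𝓝 w1) := by
          have h1 : ContinuousAt (fun x : ℂ => 1 / conj x) v1 :=
            continuousAt_const.div Complex.continuous_conj.continuousAt ((map_ne_zero _).2 hv10)
          have := h1.tendsto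
          rwa [hinv] at this
        have h2 : (fun x => a i (φ x)) =ᶠ[𝓝 v1] fun _ => (0 : ℂ) := by
          filter_upwards [hc.eventually hz] with x hx
          simp only [hA] at hx
          have h3 : 1 / conj (1 / conj x) = x := by
            rw [map_div₀, map_one, Complex.conj_conj, one_div_one_div]
          rw [h3] at hx
          exact (map_eq_zero _).1 hx
        have h4 : DifferentiableOn ℂ (fun x => a i (φ x)) (ball 0 1) := by
          refine (ha i).comp (hφ.mono (ball_subset_ball hr.le)) ?_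
          intro x hx
          exact hsub ⟨x, ball_subset_closedBall hx, rfl⟩
        exact eqOn_convex isOpen_ball (convex_ball _ _) h4 (differentiableOn_const _) hv1b h2 hv
      filter_upwards [rel_change han hnz hδ0] with δ hδ w w' h1 h2 h3 h4
      obtain ⟨h5, h6⟩ := hδ w w' h1 h2 h3 h4
      exact ⟨fun _ => h5, h6⟩
    · filter_upwards [Ioo_mem_nhdsGT (show (0 : ℝ) < R - 1 by linarith)] with δ hδ w w' h1 h2 h3 h4
      have hzero : ∀ x : ℂ, ‖x - w1‖ < δ → A i x = 0 := by
        intro x hx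
        have h5 : 1 < ‖x‖ := by
          have := norm_sub_norm_le w1 x
          rw [norm_sub_rev, hw1] at this
          have := hδ.2
          linarith
        have h6 : 1 / conj x ∈ ball (0 : ℂ) 1 := by
          rw [mem_ball_zero_iff, norm_div, norm_one, RCLike.norm_conj, div_lt_one (by linarith)]
          exact h5
        have h7 : a i (φ (1 / conj x)) = 0 := by
          by_contra h8
          exact hi ⟨_, ⟨_, h6, rfl⟩, h8⟩
        simp only [hA, h7, map_zero]
      refine ⟨fun h => absurd h hi, ?_⟩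
      rw [hzero w h2, hzero w' h3]
      simp
  have hall := Filter.eventually_all.2 hchg
  obtain ⟨δ, hδall, hδpos, hδR⟩ := (hall.and
    (Ioo_mem_nhdsGT (show (0 : ℝ) < R - 1 by linarith))).exists
  refine growth (by linarith) hw1 hδpos ?_
  intro w hw w' hw' h1 h2 h3
  have hwne : w ≠ w1 := by
    rintro rfl
    rw [mem_ball_zero_iff, hw1] at hw
    exact lt_irrefl _ hw
  set T : Set ℂ := ball (0 : ℂ) R ∩ (ball w1 δ ∩ closedBall w (δ * ‖w - w1‖)) with hT
  have hTc : Convex ℝ T :=
    (convex_ball _ _).inter ((convex_ball _ _).inter (convex_closedBall _ _))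
  have hwT : w ∈ T := ⟨hw, by rw [mem_ball, dist_eq_norm]; exact h1,
    mem_closedBall_self (by positivity)⟩
  have hwT' : w' ∈ T := ⟨hw', by rw [mem_ball, dist_eq_norm]; exact h2, by
    rw [mem_closedBall, dist_eq_norm]; exact h3⟩
  have hout : ∀ x ∈ T, 1 / r1 < ‖x‖ := by
    intro x hx
    have h4 := hx.2.1
    rw [mem_ball, dist_eq_norm] at h4
    have h5 := norm_sub_norm_le w1 x
    rw [norm_sub_rev, hw1] at h5
    linarith
  refine hstab T A E w hTc.isPreconnected hwT (hE.continuousOn.mono inter_subset_left) ?_ ?_ ?_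
    w' hwT'
  · intro x hx
    exact hrelE x (hout x hx) (mem_ball_zero_iff.1 hx.1)
  · obtain ⟨i, hi⟩ := hne
    exact ⟨i, ((hδall i) w w hwne h1 h1 (by rw [sub_self, norm_zero]; positivity)).1 hi⟩
  · intro x hx i
    refine ((hδall i) w x hwne h1 ?_ ?_).2
    · have := hx.2.1
      rwa [mem_ball, dist_eq_norm] at this
    · have := hx.2.2
      rwa [mem_closedBall, dist_eq_norm] at this

end Pool.Agent.Q162.Sch
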