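import Pool.Agent.Q162.Sch.ExpMain

/-!
Exponential sums in `conj z`, and in the real coordinates.
-/

set_option autoImplicit false

open MeasureTheory Metric Set Filter Topology ComplexConjugate
open Pool.Agent.Results.MP_83fd13_an.BranchSingularities

namespace Pool.Agent.Q162.Sch

theorem exp_part1 {φ : ℂ → ℂ} {r : ℝ} (hr : 1 < r) (hφ : DifferentiableOn ℂ φ (ball 0 r))
    (hinj : InjOn φ (ball 0 r)) {lam : ℝ} (hlam : 0 < lam) (hS : Solvable (φ '' ball 0 1) lam)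
    {s : Finset ℂ} {a : ℂ → ℂ → ℂ} {U : Set ℂ} (hU : IsOpen U)
    (hsub : closure (φ '' ball 0 1) ⊆ U) (ha : ∀ ν ∈ s, DifferentiableOn ℂ (a ν) U)
    (hrel : ∀ z ∈ frontier (φ '' ball 0 1), ∑ ν ∈ s, a ν z * Complex.exp (ν * conj z) = 0)
    (hne : ∃ ν ∈ s, ∃ z ∈ φ '' ball 0 1, a ν z ≠ 0) :
    ∃ (p : ℂ) (r0 : ℝ), 0 < r0 ∧ φ '' ball 0 1 = ball p r0 := by
  by_contra hnd
  have hcl : φ '' closedBall 0 1 ⊆ closure (φ '' ball 0 1) := by
    have h1 : ContinuousOn φ (closure (ball (0 : ℂ) 1)) := by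
      rw [closure_ball (0 : ℂ) one_ne_zero]
      exact hφ.continuousOn.mono (closedBall_subset_ball hr)
    have h2 := h1.image_closure
    rwa [closure_ball (0 : ℂ) one_ne_zero] at h2
  have hfr : ∀ w : ℂ, ‖w‖ = 1 → φ w ∈ frontier (φ '' ball 0 1) := by
    intro w hw
    have hwc : w ∈ closedBall (0 : ℂ) 1 := mem_closedBall_zero_iff.2 hw.le
    refine ⟨hcl ⟨w, hwc, rfl⟩, fun hin => ?_⟩
    obtain ⟨w', hw', heq⟩ := interior_subset hin
    have hww : w' = w := hinj (ball_subset_ball hr.le hw') (closedBall_subset_ball hr hwc) heq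
    rw [hww, mem_ball_zero_iff, hw] at hw'
    exact lt_irrefl _ hw'
  refine exp_main hr hφ hinj hlam hS hnd (ι := s) (ν := fun i => i.1) Subtype.val_injective
    (a := fun i => a i.1) hU (hcl.trans hsub) (fun i => ha i.1 i.2) ?_ ?_
  · rintro z ⟨w, hw, rfl⟩
    have h1 := hrel (φ w) (hfr w (mem_sphere_zero_iff_norm.1 hw))
    rw [← Finset.sum_coe_sort] at h1
    exact h1
  · obtain ⟨ν, hν, z, hz, h1⟩ := hne
    exact ⟨⟨ν, hν⟩, z, hz, h1⟩

theorem exp_part2 {φ : ℂ → ℂ} {r : ℝ} (hr : 1 < r) (hφ : DifferentiableOn ℂ φ (ball 0 r))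
    (hinj : InjOn φ (ball 0 r)) {lam : ℝ} (hlam : 0 < lam) (hS : Solvable (φ '' ball 0 1) lam)
    {s : Finset (ℂ × ℂ)} {c : ℂ × ℂ → ℂ} (hne : ∃ ξ ∈ s, c ξ ≠ 0)
    (hrel : ∀ z ∈ frontier (φ '' ball 0 1),
      ∑ ξ ∈ s, c ξ * Complex.exp (ξ.1 * z.re + ξ.2 * z.im) = 0) :
    ∃ (p : ℂ) (r0 : ℝ), 0 < r0 ∧ φ '' ball 0 1 = ball p r0 := by
  classical
  set f : ℂ × ℂ → ℂ := fun ξ => (ξ.1 + Complex.I * ξ.2) / 2 with hf
  set g : ℂ × ℂ → ℂ := fun ξ => (ξ.1 - Complex.I * ξ.2) / 2 with hg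
  have hfg : ∀ (ξ : ℂ × ℂ) (z : ℂ), ξ.1 * z.re + ξ.2 * z.im = g ξ * z + f ξ * conj z := by
    intro ξ z
    rw [Complex.re_eq_add_conj, Complex.im_eq_sub_conj]
    simp only [hf, hg]
    have hI : Complex.I ≠ 0 := Complex.I_ne_zero
    field_simp
    linear_combination (ξ.2 * (z - conj z)) * Complex.I_sq
  set a : ℂ → ℂ → ℂ := fun ν z => ∑ ξ ∈ s with f ξ = ν, c ξ * Complex.exp (g ξ * z) with ha
  have had : ∀ ν, Differentiable ℂ (a ν) := by
    intro ν
    simp only [ha]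
    fun_prop
  refine exp_part1 hr hφ hinj hlam hS (s := s.image f) (a := a) isOpen_univ (subset_univ _)
    (fun ν _ => (had ν).differentiableOn) ?_ ?_
  · intro z hz
    rw [← hrel z hz]
    have h1 := Finset.sum_fiberwise_of_maps_to (s := s) (t := s.image f) (g := f)
      (fun ξ hξ => Finset.mem_image_of_mem f hξ)
      (fun ξ => c ξ * Complex.exp (ξ.1 * z.re + ξ.2 * z.im))
    rw [← h1]
    refine Finset.sum_congr rfl fun ν _ => ?_
    simp only [ha]
    rw [Finset.sum_mul]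
    refine Finset.sum_congr rfl fun ξ hξ => ?_
    rw [Finset.mem_filter] at hξ
    rw [hfg, Complex.exp_add, ← hξ.2]
    ring
  · obtain ⟨ξ0, hξ0, hc0⟩ := hne
    refine ⟨f ξ0, Finset.mem_image_of_mem f hξ0, ?_⟩
    by_contra hcon
    push Not at hcon
    have h0b : (0 : ℂ) ∈ ball (0 : ℂ) r := mem_ball_self (by linarith)
    have hφt : Tendsto φ (𝓝[≠] 0) (𝓝[≠] (φ 0)) := by
      rw [tendsto_nhdsWithin_iff]
      refine ⟨((hφ.differentiableAt (isOpen_ball.mem_nhds h0b)).continuousAt).tendsto.mono_left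
        nhdsWithin_le_nhds, ?_⟩
      have h1 : ball (0 : ℂ) r ∈ 𝓝[≠] (0 : ℂ) := mem_nhdsWithin_of_mem_nhds
        (isOpen_ball.mem_nhds h0b)
      filter_upwards [h1, self_mem_nhdsWithin] with w hw hw0 heq
      exact hw0 (hinj hw h0b heq)
    have hfreq : ∃ᶠ z in 𝓝[≠] (φ 0), a (f ξ0) z = 0 := by
      refine hφt.frequently (Filter.Eventually.frequently ?_)
      have h1 : ball (0 : ℂ) 1 ∈ 𝓝[≠] (0 : ℂ) := mem_nhdsWithin_of_mem_nhds
        (isOpen_ball.mem_nhds (mem_ball_self one_pos))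
      filter_upwards [h1] with w hw
      exact hcon _ ⟨w, hw, rfl⟩
    have hz : ∀ z, a (f ξ0) z = 0 := fun z =>
      ((had (f ξ0)).differentiableOn.analyticOnNhd
        isOpen_univ).eqOn_zero_of_preconnected_of_frequently_eq_zero isPreconnected_univ
        (mem_univ (φ 0)) hfreq (mem_univ z)
    have hinjg : Function.Injective
        (fun i : {ξ // ξ ∈ s.filter (fun ξ => f ξ = f ξ0)} => g i.1) := by
      rintro ⟨ξ, hξ⟩ ⟨ξ', hξ'⟩ h
      rw [Finset.mem_filter] at hξ hξ'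
      have h1 : f ξ = f ξ' := hξ.2.trans hξ'.2.symm
      have h2 : g ξ = g ξ' := h
      have e1 : ξ.1 = ξ'.1 := by
        simp only [hf, hg] at h1 h2
        linear_combination h1 + h2
      have e2 : ξ.2 = ξ'.2 := by
        simp only [hf, hg] at h1 h2
        have h3 : Complex.I * ξ.2 = Complex.I * ξ'.2 := by linear_combination h1 - h2
        exact mul_left_cancel₀ Complex.I_ne_zero h3
      exact Subtype.ext (Prod.ext e1 e2)
    have hb := exp_indep (ι := {ξ // ξ ∈ s.filter (fun ξ => f ξ = f ξ0)}) hinjg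
      (b := fun i => c i.1) (by
        intro z
        have h1 := hz z
        simp only [ha] at h1
        rw [← Finset.sum_coe_sort] at h1
        exact h1)
    exact hc0 (congrFun hb ⟨ξ0, by rw [Finset.mem_filter]; exact ⟨hξ0, rfl⟩⟩)

end Pool.Agent.Q162.Sch
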