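import Pool.Agent.Q162.Sch.Core

/-!
Images of concentric discs: the local extension theorem, the version for Taylor coefficients, and
corners.
-/

set_option autoImplicit false

open MeasureTheory Metric Set Filter Topology ComplexConjugate
open Pool.Agent.Results.MP_83fd13_an.BranchSingularities

namespace Pool.Agent.Q162.Sch

/-- Extension when `(R - |w|) |E w|` is at most a small constant near `w1`. -/
theorem of_small' {φ E : ℂ → ℂ} {r R lam η : ℝ} {w1 : ℂ}
    (hBB : BranchesBlowUp φ r lam) (hR : 1 < R) (hw1 : ‖w1‖ = R)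
    (hbr : ∀ z : ℂ, 1 < ‖z‖ → ‖z‖ < R → Branch φ r z E)
    (hE : DifferentiableOn ℂ E (ball 0 R))
    (hηs : lam * ‖deriv φ (1 / conj w1)‖ * η < 3 * ‖w1‖ ^ 2)
    (hsmall : ∃ δ > 0, ∀ w ∈ ball (0 : ℂ) R, ‖w - w1‖ < δ →
      (R - ‖w‖) * ‖E w‖ ≤ η) : LocExt E R w1 := by
  set ρ : ℝ := (R - 1) / 4 with hρ
  have hρ0 : 0 < ρ := by rw [hρ]; linarith
  have hR0 : 0 < R := by linarith
  set c : ℂ := ((1 - ρ / R : ℝ) : ℂ) * w1 with hc
  have hρR : ρ / R < 1 := by rw [div_lt_one hR0]; linarith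
  have hcn : ‖c‖ = R - ρ := by
    rw [hc, norm_mul, Complex.norm_real, Real.norm_of_nonneg (by linarith), hw1]
    field_simp
  have hcw : ‖w1 - c‖ = ρ := by
    have : w1 - c = ((ρ / R : ℝ) : ℂ) * w1 := by rw [hc]; push_cast; ring
    rw [this, norm_mul, Complex.norm_real, Real.norm_of_nonneg (by positivity), hw1]
    field_simp
  have hsubR : ∀ w ∈ ball c ρ, ‖w‖ < R := by
    intro w hw
    rw [mem_ball, dist_eq_norm] at hw
    have := norm_sub_norm_le w c
    rw [hcn] at this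
    linarith
  obtain ⟨δ, hδ, hs⟩ := hsmall
  obtain ⟨ε, E1, hε, hE1, hag⟩ := hBB c ρ E w1 η δ hρ0 (by
      intro w hw
      rw [mem_closedBall, dist_eq_norm] at hw
      have := norm_sub_norm_le c w
      rw [norm_sub_rev, hcn] at this
      have h2 : ρ = (R - 1) / 4 := hρ
      linarith)
    (hE.mono fun w hw => mem_ball_zero_iff.2 (hsubR w hw))
    ⟨c, mem_ball_self hρ0, hbr c (by rw [hcn]; linarith) (by rw [hcn]; linarith)⟩
    (by rw [mem_sphere, dist_eq_norm]; exact hcw) hδ hηs (by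
      intro w hw hwd
      refine le_trans ?_ (hs w (mem_ball_zero_iff.2 (hsubR w hw)) hwd)
      refine mul_le_mul_of_nonneg_right ?_ (norm_nonneg _)
      have h3 := norm_sub_norm_le w c
      rw [hcn] at h3
      linarith)
  obtain ⟨τ, hτ0, hτ1, hτη, hτR, hτn, hτd⟩ := radial hR hw1 (lt_min hε hρ0)
  set p : ℂ := ((1 - τ : ℝ) : ℂ) * w1 with hp
  have hpε : p ∈ ball w1 ε := by
    rw [mem_ball, dist_eq_norm, hτd]
    exact lt_of_lt_of_le hτη (min_le_left _ _)
  have hpR : p ∈ ball (0 : ℂ) R := by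
    rw [mem_ball_zero_iff, hτn]
    nlinarith
  have hpc : p ∈ ball c ρ := by
    rw [mem_ball, dist_eq_norm]
    have h4 : p - c = ((ρ / R - τ : ℝ) : ℂ) * w1 := by rw [hp, hc]; push_cast; ring
    rw [h4, norm_mul, Complex.norm_real, hw1, Real.norm_eq_abs, ← abs_of_pos hR0, ← abs_mul,
      abs_of_pos hR0]
    have h5 : (ρ / R - τ) * R = ρ - τ * R := by field_simp
    have h6 : τ * R < ρ := lt_of_lt_of_le hτη (min_le_right _ _)
    have h7 : 0 < τ * R := by positivity
    rw [h5, abs_lt]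
    constructor <;> linarith
  refine ⟨ε, E1, hε, hE1, ?_⟩
  refine eqOn_convex (isOpen_ball.inter isOpen_ball) ((convex_ball _ _).inter (convex_ball _ _))
    (hE1.mono inter_subset_left) (hE.mono inter_subset_right) (z := p) ⟨hpε, hpR⟩ ?_
  filter_upwards [(isOpen_ball.inter isOpen_ball).mem_nhds ⟨hpε, hpc⟩] with w hw
  exact hag w hw

/-- The local theorem for the image of the disc `|v| < t` under a function holomorphic in the unit
disc. -/
theorem local_ext {f : ℂ → ℂ} {t t' : ℝ} (hf : DifferentiableOn ℂ f (ball 0 1))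
    (ht : 0 < t) (htt : t < t') (ht' : t' ≤ 1) (hinj : InjOn f (ball 0 t'))
    {lam : ℝ} (hlam : 0 < lam) (hS : Solvable (f '' ball 0 t) lam)
    {ζ : ℂ} (hζ : ‖ζ‖ = 1) {η : ℝ}
    (hηs : lam * t ^ 2 * ‖deriv f ((t ^ 2 : ℝ) * ζ)‖ * η < 3)
    (hsmall : ∃ δ > 0, ∀ v ∈ ball (0 : ℂ) 1, ‖v - ζ‖ < δ → (1 - ‖v‖) * ‖f v‖ ≤ η) :
    LocExt f 1 ζ := by
  have htc : (t : ℂ) ≠ 0 := by exact_mod_cast ht.ne'
  have hmt : ∀ w : ℂ, ‖(t : ℂ) * w‖ = t * ‖w‖ := fun w => by
    rw [norm_mul, Complex.norm_real, Real.norm_of_nonneg ht.le]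
  set φ : ℂ → ℂ := fun w => f (t * w) with hφdef
  have hr : 1 < t' / t := by rw [one_lt_div ht]; exact htt
  have hR : 1 < 1 / t := by rw [one_lt_div ht]; linarith
  have him : φ '' ball 0 1 = f '' ball 0 t := by
    ext z
    constructor
    · rintro ⟨w, hw, rfl⟩
      refine ⟨t * w, ?_, rfl⟩
      rw [mem_ball_zero_iff] at hw ⊢
      rw [hmt]
      nlinarith
    · rintro ⟨v, hv, rfl⟩
      refine ⟨v / t, ?_, ?_⟩
      · rw [mem_ball_zero_iff] at hv ⊢
        rw [norm_div, Complex.norm_real, Real.norm_of_nonneg ht.le, div_lt_one ht]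
        exact hv
      · simp only [hφdef]
        rw [mul_div_cancel₀ _ htc]
  have hφR : DifferentiableOn ℂ φ (ball 0 (1 / t)) := by
    refine hf.comp ((differentiable_id.const_mul (t : ℂ)).differentiableOn) ?_
    intro w hw
    rw [mem_ball_zero_iff] at hw ⊢
    show ‖(t : ℂ) * w‖ < 1
    rw [hmt]
    rw [lt_div_iff₀ ht] at hw
    linarith
  have hrR : t' / t ≤ 1 / t := div_le_div_of_nonneg_right ht' ht.le
  have hφr : DifferentiableOn ℂ φ (ball 0 (t' / t)) := hφR.mono (ball_subset_ball hrR)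
  have hφi : InjOn φ (ball 0 (t' / t)) := by
    intro w hw w' hw' h
    have hmem : ∀ x ∈ ball (0 : ℂ) (t' / t), (t : ℂ) * x ∈ ball (0 : ℂ) t' := by
      intro x hx
      rw [mem_ball_zero_iff] at hx ⊢
      rw [hmt]
      rw [lt_div_iff₀ ht] at hx
      linarith
    exact mul_left_cancel₀ htc (hinj (hmem w hw) (hmem w' hw') h)
  obtain ⟨hBB, -, -⟩ := result φ (t' / t) hr hφr hφi lam hlam (by rw [him]; exact hS)
  set w1 : ℂ := ζ / t with hw1def
  have hw1 : ‖w1‖ = 1 / t := by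
    rw [hw1def, norm_div, Complex.norm_real, Real.norm_of_nonneg ht.le, hζ]
  have hζ0 : ζ ≠ 0 := by
    rw [← norm_pos_iff, hζ]; exact one_pos
  have hcζ : conj ζ ≠ 0 := (map_ne_zero _).2 hζ0
  have hζζ : ζ * conj ζ = 1 := by
    rw [Complex.mul_conj, Complex.normSq_eq_norm_sq, hζ]; norm_num
  have hinv : 1 / conj w1 = t * ζ := by
    rw [hw1def, map_div₀, Complex.conj_ofReal]
    field_simp
    linear_combination (-(1 : ℂ)) * hζζ
  have hder : deriv φ (1 / conj w1) = t * deriv f ((t ^ 2 : ℝ) * ζ) := by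
    rw [hinv]
    have h1 : (t : ℂ) * (t * ζ) ∈ ball (0 : ℂ) 1 := by
      rw [mem_ball_zero_iff, hmt, hmt, hζ]
      nlinarith
    have h2 : HasDerivAt f (deriv f (t * (t * ζ))) (t * (t * ζ)) :=
      (hf.differentiableAt (isOpen_ball.mem_nhds h1)).hasDerivAt
    have h3 : HasDerivAt (fun w : ℂ => (t : ℂ) * w) (t : ℂ) (t * ζ) := by
      simpa using (hasDerivAt_id (t * ζ : ℂ)).const_mul (t : ℂ)
    have h4 := HasDerivAt.comp (h₂ := f) (h := fun w : ℂ => (t : ℂ) * w) (t * ζ : ℂ) h2 h3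
    have h5 : deriv φ (t * ζ) = deriv f (t * (t * ζ)) * t := h4.deriv
    rw [h5, mul_comm]
    congr 2
    push_cast; ring
  have hs : LocExt φ (1 / t) w1 := by
    refine of_small' (η := η / t) hBB hR hw1
      (fun z h1 h2 => branch_of_lt hr hrR hφR (fun w _ => rfl) h1 h2) hφR ?_ ?_
    · rw [hder, hw1, norm_mul, Complex.norm_real, Real.norm_of_nonneg ht.le]
      have h1 : lam * (t * ‖deriv f ((t ^ 2 : ℝ) * ζ)‖) * (η / t) =
          lam * ‖deriv f ((t ^ 2 : ℝ) * ζ)‖ * η := by field_simp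
      rw [h1]
      have h2 : 3 * (1 / t) ^ 2 = 3 / t ^ 2 := by field_simp
      rw [h2, lt_div_iff₀ (by positivity)]
      linarith
    · obtain ⟨δ, hδ, h⟩ := hsmall
      refine ⟨δ / t, by positivity, fun w hw hwd => ?_⟩
      have h1 : (t : ℂ) * w ∈ ball (0 : ℂ) 1 := by
        rw [mem_ball_zero_iff] at hw ⊢
        rw [hmt]
        rw [lt_div_iff₀ ht] at hw
        linarith
      have h2 : ‖(t : ℂ) * w - ζ‖ < δ := by
        have e : (t : ℂ) * w - ζ = t * (w - w1) := by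
          rw [hw1def]; field_simp
        rw [e, hmt]
        rw [lt_div_iff₀ ht] at hwd
        linarith
      have h3 := h _ h1 h2
      rw [hmt] at h3
      rw [le_div_iff₀ ht]
      have h4 : (1 / t - ‖w‖) * ‖φ w‖ * t = (1 - t * ‖w‖) * ‖f (t * w)‖ := by
        simp only [hφdef]
        field_simp
      rw [h4]
      exact h3
  obtain ⟨ε, E1, hε, hE1, hag⟩ := hs
  refine ⟨t * ε, fun v => E1 (v / t), by positivity, ?_, ?_⟩
  · refine hE1.comp ((differentiable_id.div_const (t : ℂ)).differentiableOn) ?_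
    intro v hv
    rw [mem_ball, dist_eq_norm] at hv ⊢
    show ‖v / t - w1‖ < ε
    have e : v / t - w1 = (v - ζ) / t := by rw [hw1def]; ring
    rw [e, norm_div, Complex.norm_real, Real.norm_of_nonneg ht.le, div_lt_iff₀ ht]
    linarith
  · rintro v ⟨hv1, hv2⟩
    have h1 : v / t ∈ ball w1 ε := by
      rw [mem_ball, dist_eq_norm] at hv1 ⊢
      have e : v / t - w1 = (v - ζ) / t := by rw [hw1def]; ring
      rw [e, norm_div, Complex.norm_real, Real.norm_of_nonneg ht.le, div_lt_iff₀ ht]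
      linarith
    have h2 : v / t ∈ ball (0 : ℂ) (1 / t) := by
      rw [mem_ball_zero_iff] at hv2 ⊢
      rw [norm_div, Complex.norm_real, Real.norm_of_nonneg ht.le]
      exact div_lt_div_of_pos_right hv2 ht
    have h3 := hag _ ⟨h1, h2⟩
    simp only [hφdef] at h3
    rw [mul_div_cancel₀ _ htc] at h3
    exact h3

end Pool.Agent.Q162.Sch
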