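import Pool.Agent.Q162.Sch.Green9

/-!
Level domains: algebraic boundaries of degree at most seven, and lemniscates.
-/

set_option autoImplicit false

open MeasureTheory Metric Set Filter Topology ComplexConjugate
open Pool.Agent.Results.MP_83fd13_an.BranchSingularities

namespace Pool.Agent.Q162.Sch

theorem part1_level {f F : ℂ → ℂ} {R t lam : ℝ} (hf : DifferentiableOn ℂ f (ball 0 1))
    (hinj : InjOn f (ball 0 1)) (hR : 1 < R) (hF : DifferentiableOn ℂ F (ball 0 R))
    (hFf : ∀ v ∈ ball (0 : ℂ) 1, F v = f v) (ht : 0 < t) (ht1 : t < 1) (hlam : 0 < lam)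
    (hS : Solvable (f '' ball 0 t) lam)
    {m : ℕ} (hm : 1 ≤ m) {a : ℕ → ℂ → ℂ} {U : Set ℂ} (hU : IsOpen U)
    (hsub : closure (f '' ball 0 1) ⊆ U) (ha : ∀ j ≤ m, DifferentiableOn ℂ (a j) U)
    (hrel : ∀ z ∈ frontier (f '' ball 0 1), ∑ j ∈ Finset.range (m + 1), a j z * conj z ^ j = 0)
    (hbad : {z : ℂ | z ∈ f '' ball 0 1 ∧ a (m - 1) z = 0 ∧ ¬ MildAt m a z}.Subsingleton) :
    ∃ (p : ℂ) (r0 : ℝ), 0 < r0 ∧ f '' ball 0 t = ball p r0 := by
  by_contra hnd
  obtain ⟨v1, hv1, hgood⟩ : ∃ v1 : ℂ, ‖v1‖ < 1 ∧ ∀ v ∈ ball (0 : ℂ) 1, v ≠ v1 →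
      a (m - 1) (f v) ≠ 0 ∨ MildAt m a (f v) := by
    by_cases hex : ∃ v ∈ ball (0 : ℂ) 1, a (m - 1) (f v) = 0 ∧ ¬ MildAt m a (f v)
    · obtain ⟨v, hv, h1, h2⟩ := hex
      refine ⟨v, mem_ball_zero_iff.1 hv, fun w hw hwv => ?_⟩
      by_contra hcon
      push Not at hcon
      have heq : f w = f v := hbad ⟨⟨w, hw, rfl⟩, hcon.1, hcon.2⟩ ⟨⟨v, hv, rfl⟩, h1, h2⟩
      exact hwv (hinj hw hv heq)
    · refine ⟨0, by simp, fun w hw _ => ?_⟩
      by_contra hcon
      push Not at hcon
      exact hex ⟨w, hw, hcon.1, hcon.2⟩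
  have hv0 : 0 ≤ ‖v1‖ := norm_nonneg v1
  have h2 : 1 < 2 / (1 + ‖v1‖) := by
    rw [lt_div_iff₀ (by linarith)]; linarith
  have hR' : 1 < min R (2 / (1 + ‖v1‖)) := lt_min hR h2
  have hRv : min R (2 / (1 + ‖v1‖)) * ‖v1‖ < 1 := by
    have h3 : min R (2 / (1 + ‖v1‖)) * ‖v1‖ ≤ 2 / (1 + ‖v1‖) * ‖v1‖ :=
      mul_le_mul_of_nonneg_right (min_le_right _ _) hv0
    have h4 : 2 / (1 + ‖v1‖) * ‖v1‖ < 1 := by
      rw [div_mul_eq_mul_div, div_lt_one (by linarith)]; linarith
    linarith
  exact ecc hf hinj hR' (hF.mono (ball_subset_ball (min_le_left _ _))) hFf ht ht1 hlam hS hnd hm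
    hU hsub ha hrel hv1 hRv hgood

open Polynomial in
/-- Real algebraic curves of degree at most seven. -/
theorem part2_level {f F : ℂ → ℂ} {R t lam : ℝ} (hf : DifferentiableOn ℂ f (ball 0 1))
    (hinj : InjOn f (ball 0 1)) (hR : 1 < R) (hF : DifferentiableOn ℂ F (ball 0 R))
    (hFf : ∀ v ∈ ball (0 : ℂ) 1, F v = f v) (ht : 0 < t) (ht1 : t < 1) (hlam : 0 < lam)
    (hS : Solvable (f '' ball 0 t) lam)
    {P : MvPolynomial (Fin 2) ℝ} (hP0 : P ≠ 0) (hP7 : P.totalDegree ≤ 7)
    (hP : ∀ z ∈ frontier (f '' ball 0 1), MvPolynomial.eval ![z.re, z.im] P = 0) :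
    ∃ (p : ℂ) (r0 : ℝ), 0 < r0 ∧ f '' ball 0 t = ball p r0 := by
  classical
  obtain ⟨c, hsym, hvan, hev⟩ := hermitian_coeffs P 7 hP7
  have hex : ∃ j k, c j k ≠ 0 := by
    by_contra hcon
    push Not at hcon
    apply hP0
    refine MvPolynomial.funext fun x => ?_
    have h1 := hev (x 0 + x 1 * Complex.I)
    simp only [hcon, zero_mul, Finset.sum_const_zero] at h1
    have h2 : ![((x 0 : ℂ) + x 1 * Complex.I).re, ((x 0 : ℂ) + x 1 * Complex.I).im] = x := by
      ext i
      fin_cases i <;> simp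
    rw [h2] at h1
    rw [map_zero]
    exact_mod_cast h1
  set m : ℕ := Nat.findGreatest (fun k => ∃ j, c j k ≠ 0) 7 with hm
  have hspec : ∃ j, c j m ≠ 0 := by
    obtain ⟨j, k, hjk⟩ := hex
    have hk : k ≤ 7 := by
      by_contra h
      exact hjk (hvan j k (by omega))
    exact Nat.findGreatest_spec (P := fun k => ∃ j, c j k ≠ 0) hk ⟨j, hjk⟩
  have hm7 : m ≤ 7 := Nat.findGreatest_le 7
  have hmax : ∀ j k, m < k → c j k = 0 := by
    intro j k hk
    by_contra h
    by_cases hk7 : k ≤ 7
    · exact Nat.findGreatest_is_greatest (P := fun k => ∃ j, c j k ≠ 0) hk hk7 ⟨j, h⟩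
    · exact h (hvan j k (by omega))
  have hmax' : ∀ j k, m < j → c j k = 0 := by
    intro j k hj
    rw [hsym k j, hmax k j hj, map_zero]
  set q : ℕ → ℂ[X] := fun k => ∑ j ∈ Finset.range 8, C (c j k) * X ^ j with hq
  have hqe : ∀ k z, (q k).eval z = ∑ j ∈ Finset.range 8, c j k * z ^ j := by
    intro k z
    simp [hq, eval_finsetSum]
  have hqc : ∀ k n, (q k).coeff n = if n < 8 then c n k else 0 := by
    intro k n
    simp only [hq, finsetSum_coeff, coeff_C_mul, coeff_X_pow]
    by_cases h : n < 8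
    · rw [if_pos h, Finset.sum_eq_single n]
      · simp
      · intro b _ hb
        rw [if_neg (Ne.symm hb), mul_zero]
      · intro h'
        exact absurd (Finset.mem_range.2 h) h'
    · rw [if_neg h]
      refine Finset.sum_eq_zero fun b hb => ?_
      rw [Finset.mem_range] at hb
      rw [if_neg (by omega), mul_zero]
  have hrel : ∀ z ∈ frontier (f '' ball 0 1),
      ∑ j ∈ Finset.range (m + 1), (q j).eval z * conj z ^ j = 0 := by
    intro z hz
    have h1 := hev z
    rw [hP z hz, Complex.ofReal_zero, Finset.sum_comm] at h1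
    have h2 : ∑ k ∈ Finset.range (7 + 1), ∑ j ∈ Finset.range (7 + 1), c j k * z ^ j * conj z ^ k =
        ∑ k ∈ Finset.range (7 + 1), (q k).eval z * conj z ^ k := by
      refine Finset.sum_congr rfl fun k _ => ?_
      rw [hqe, Finset.sum_mul]
    rw [h2] at h1
    rw [h1]
    refine Finset.sum_subset (Finset.range_subset_range.2 (by omega)) fun k _ hk => ?_
    rw [Finset.mem_range, not_lt] at hk
    rw [hqe, Finset.sum_eq_zero (fun j _ => by rw [hmax j k (by omega), zero_mul]), zero_mul]
  have hm1 : 1 ≤ m := by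
    by_contra h
    have hm0 : m = 0 := by omega
    have h1 := hrel (F 1) (frontier_mem' hf hinj hR hF hFf (by simp))
    rw [hm0] at h1
    simp only [zero_add, Finset.sum_range_one, pow_zero, mul_one] at h1
    rw [hqe] at h1
    rw [Finset.sum_eq_single 0] at h1
    · obtain ⟨j, hj⟩ := hspec
      rw [hm0] at hj
      rcases Nat.eq_zero_or_pos j with h0 | h0
      · rw [h0] at hj
        exact hj (by simpa using h1)
      · exact hj (hmax' j 0 (by omega))
    · intro b _ hb
      rw [hmax' b 0 (by omega), zero_mul]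
    · intro h'
      exact absurd (Finset.mem_range.2 (by norm_num)) h'
  have hqm0 : q m ≠ 0 := by
    obtain ⟨j, hj⟩ := hspec
    intro h0
    have h1 := hqc m j
    rw [h0, coeff_zero] at h1
    have h2 : j < 8 := by
      by_contra h
      exact hj (hvan j m (by omega))
    rw [if_pos h2] at h1
    exact hj h1.symm
  have hqdeg : (q m).natDegree ≤ 3 := by
    rw [natDegree_le_iff_coeff_eq_zero]
    intro n hn
    rw [hqc]
    split_ifs with h
    · by_cases h2 : m < n
      · exact hmax' n m h2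
      · exact hvan n m (by omega)
    · rfl
  refine part1_level hf hinj hR hF hFf ht ht1 hlam hS hm1 (a := fun j z => (q j).eval z) isOpen_univ (subset_univ _)
    (fun j _ => (q j).differentiable.differentiableOn) hrel ?_
  have hroot : ∀ z : ℂ, (q (m - 1)).eval z = 0 → ¬ MildAt m (fun j z => (q j).eval z) z →
      1 < (q m).rootMultiplicity z := by
    intro z h1 h2
    have h3 : (q m).eval z = 0 := by
      by_contra h
      exact h2 (mild_of_ne (fun j _ => (q j).continuous.continuousAt) h)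
    have h4 : (derivative (q m)).eval z = 0 := by
      by_contra h
      refine h2 (mild_of_deriv hm1 (fun j _ => (q j).differentiable.differentiableAt) h3 ?_ h1)
      rw [Polynomial.deriv]
      exact h
    exact (one_lt_rootMultiplicity_iff_isRoot hqm0).2 ⟨h3, h4⟩
  rintro z ⟨-, hz1, hz2⟩ z' ⟨-, hz1', hz2'⟩
  by_contra hne
  have h1 := hroot z hz1 hz2
  have h2 := hroot z' hz1' hz2'
  have h3 : (X - C z) ^ 2 ∣ q m := (pow_dvd_pow _ h1).trans (pow_rootMultiplicity_dvd _ _)
  have h4 : (X - C z') ^ 2 ∣ q m := (pow_dvd_pow _ h2).trans (pow_rootMultiplicity_dvd _ _)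
  have h5 : IsCoprime ((X - C z) ^ 2) ((X - C z') ^ 2 : ℂ[X]) :=
    (isCoprime_X_sub_C_of_isUnit_sub (sub_ne_zero.2 hne).isUnit).pow
  have h6 := h5.mul_dvd h3 h4
  have h7 := natDegree_le_of_dvd h6 hqm0
  rw [natDegree_mul (pow_ne_zero _ (X_sub_C_ne_zero _)) (pow_ne_zero _ (X_sub_C_ne_zero _)),
    natDegree_pow, natDegree_pow, natDegree_X_sub_C, natDegree_X_sub_C] at h7
  omega

open Polynomial in
/-- Lemniscates. -/
theorem part3_level {f F : ℂ → ℂ} {R t lam : ℝ} (hf : DifferentiableOn ℂ f (ball 0 1))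
    (hinj : InjOn f (ball 0 1)) (hR : 1 < R) (hF : DifferentiableOn ℂ F (ball 0 R))
    (hFf : ∀ v ∈ ball (0 : ℂ) 1, F v = f v) (ht : 0 < t) (ht1 : t < 1) (hlam : 0 < lam)
    (hS : Solvable (f '' ball 0 t) lam)
    {Q : ℂ[X]} (hQ : 1 ≤ Q.natDegree) {ρ : ℝ} (hρ : 0 < ρ)
    (hQR : ∀ z ∈ frontier (f '' ball 0 1), ‖Q.eval z‖ = ρ) :
    ∃ (p : ℂ) (r0 : ℝ), 0 < r0 ∧ f '' ball 0 t = ball p r0 := by
  classical
  set n : ℕ := Q.natDegree with hn
  have hQ0 : Q ≠ 0 := by
    rintro rfl
    simp at hn
    omega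
  have hlc : Q.coeff n ≠ 0 := by
    have : Q.leadingCoeff ≠ 0 := leadingCoeff_ne_zero.2 hQ0
    exact this
  by_cases hmul : ∃ z1 : ℂ, n ≤ Q.rootMultiplicity z1
  · obtain ⟨z1, hz1⟩ := hmul
    obtain ⟨T, hT⟩ := (pow_dvd_pow (X - C z1) hz1).trans (pow_rootMultiplicity_dvd Q z1)
    have hT0 : T ≠ 0 := by
      rintro rfl
      rw [mul_zero] at hT
      exact hQ0 hT
    have hTd : T.natDegree = 0 := by
      have h1 := congrArg natDegree hT
      rw [natDegree_mul (pow_ne_zero _ (X_sub_C_ne_zero _)) hT0, natDegree_pow,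
        natDegree_X_sub_C] at h1
      omega
    obtain ⟨q0, hq0⟩ := natDegree_eq_zero.1 hTd
    have hq00 : q0 ≠ 0 := by
      rintro rfl
      rw [map_zero] at hq0
      exact hT0 hq0.symm
    have heval : ∀ z, Q.eval z = (z - z1) ^ n * q0 := by
      intro z
      rw [hT, ← hq0]
      simp
    set c : ℝ := (ρ / ‖q0‖) ^ (1 / (n : ℝ)) with hc
    have hc0 : 0 < c := Real.rpow_pos_of_pos (div_pos hρ (norm_pos_iff.2 hq00)) _
    have hcirc : ∀ z ∈ frontier (f '' ball 0 1), ‖z - z1‖ = c := by
      intro z hz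
      have h1 := hQR z hz
      rw [heval, norm_mul, norm_pow] at h1
      have h2 : ‖z - z1‖ ^ n = ρ / ‖q0‖ := by
        rw [eq_div_iff (norm_ne_zero_iff.2 hq00)]; exact h1
      rw [hc, ← h2, one_div, Real.pow_rpow_inv_natCast (norm_nonneg _) (by omega)]
    set P : MvPolynomial (Fin 2) ℝ := (MvPolynomial.X 0 - MvPolynomial.C z1.re) ^ 2 +
      (MvPolynomial.X 1 - MvPolynomial.C z1.im) ^ 2 - MvPolynomial.C (c ^ 2) with hP
    have hPe : ∀ u : Fin 2 → ℝ, MvPolynomial.eval u P =
        (u 0 - z1.re) ^ 2 + (u 1 - z1.im) ^ 2 - c ^ 2 := by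
      intro u
      simp [hP]
    refine part2_level hf hinj hR hF hFf ht ht1 hlam hS (P := P) ?_ ?_ ?_
    · intro h0
      have h1 := hPe ![z1.re, z1.im]
      rw [h0] at h1
      simp at h1
      exact hc0.ne' h1
    · have d1 : ∀ (i : Fin 2) (b : ℝ),
          ((MvPolynomial.X i - MvPolynomial.C b : MvPolynomial (Fin 2) ℝ) ^ 2).totalDegree ≤ 2 := by
        intro i b
        refine (MvPolynomial.totalDegree_pow _ _).trans ?_
        have h1 : (MvPolynomial.X i - MvPolynomial.C b : MvPolynomial (Fin 2) ℝ).totalDegree ≤ 1 := by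
          refine (MvPolynomial.totalDegree_sub _ _).trans ?_
          simp [MvPolynomial.totalDegree_X]
        omega
      refine (MvPolynomial.totalDegree_sub _ _).trans (max_le ?_ ?_)
      · refine (MvPolynomial.totalDegree_add _ _).trans (max_le ?_ ?_)
        · exact (d1 0 _).trans (by norm_num)
        · exact (d1 1 _).trans (by norm_num)
      · rw [MvPolynomial.totalDegree_C]; norm_num
    · intro z hz
      rw [hPe]
      have h1 := hcirc z hz
      have h2 : ‖z - z1‖ ^ 2 = (z.re - z1.re) ^ 2 + (z.im - z1.im) ^ 2 := by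
        rw [← Complex.normSq_eq_norm_sq, Complex.normSq_apply, Complex.sub_re, Complex.sub_im]
        ring
      rw [h1] at h2
      simp only [Matrix.cons_val_zero, Matrix.cons_val_one]
      linarith
  · push Not at hmul
    set a : ℕ → ℂ → ℂ := fun j z =>
      conj (Q.coeff j) * Q.eval z - (if j = 0 then (ρ : ℂ) ^ 2 else 0) with ha
    have han : ∀ z, a n z = conj (Q.coeff n) * Q.eval z := by
      intro z
      simp only [ha]
      rw [if_neg (by omega), sub_zero]
    have hcn : conj (Q.coeff n) ≠ 0 := (_root_.map_ne_zero _).2 hlc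
    refine part1_level hf hinj hR hF hFf ht ht1 hlam hS hQ (a := a) isOpen_univ (subset_univ _) ?_ ?_ ?_
    · intro j _
      exact ((Q.differentiable.const_mul _).sub_const _).differentiableOn
    · intro z hz
      have h1 := hQR z hz
      have h2 : Q.eval z * conj (Q.eval z) = (ρ : ℂ) ^ 2 := by
        rw [Complex.mul_conj, Complex.normSq_eq_norm_sq, h1]
        push_cast
        ring
      have h3 : conj (Q.eval z) = ∑ j ∈ Finset.range (n + 1), conj (Q.coeff j) * conj z ^ j := by
        rw [eval_eq_sum_range, map_sum]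
        refine Finset.sum_congr rfl fun j _ => ?_
        rw [map_mul, map_pow]
      have h4 : ∑ j ∈ Finset.range (n + 1), a j z * conj z ^ j =
          Q.eval z * ∑ j ∈ Finset.range (n + 1), conj (Q.coeff j) * conj z ^ j - (ρ : ℂ) ^ 2 := by
        simp only [ha, sub_mul, Finset.sum_sub_distrib]
        congr 1
        · rw [Finset.mul_sum]
          refine Finset.sum_congr rfl fun j _ => ?_
          ring
        · rw [Finset.sum_eq_single 0]
          · simp
          · intro b _ hb
            rw [if_neg hb, zero_mul]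
          · intro h'
            exact absurd (Finset.mem_range.2 (by omega)) h'
      rw [h4, ← h3, h2, sub_self]
    · have hall : ∀ z1 : ℂ, MildAt n a z1 := by
        intro z1
        have hk := hmul z1
        set k : ℕ := Q.rootMultiplicity z1 with hkdef
        obtain ⟨T, hT⟩ := pow_rootMultiplicity_dvd Q z1
        rw [← hkdef] at hT
        have hT1 : T.eval z1 ≠ 0 := by
          intro h0
          have h1 : (X - C z1) ^ (k + 1) ∣ Q := by
            obtain ⟨T', hT'⟩ := dvd_iff_isRoot.2 h0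
            refine ⟨T', ?_⟩
            rw [hT, hT', pow_succ, mul_assoc]
          have h2 := (le_rootMultiplicity_iff hQ0).2 h1
          omega
        have hQev : ∀ z, Q.eval z = (z - z1) ^ k * T.eval z := by
          intro z
          nth_rewrite 1 [hT]
          simp
        have hTne : ∀ᶠ z in 𝓝[≠] z1, T.eval z ≠ 0 :=
          eventually_nhdsWithin_of_eventually_nhds (T.continuous.continuousAt.eventually_ne hT1)
        have hne : ∀ᶠ z in 𝓝[≠] z1, z - z1 ≠ 0 := by
          filter_upwards [self_mem_nhdsWithin] with z hz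
          exact sub_ne_zero.2 hz
        have hQne : ∀ᶠ z in 𝓝[≠] z1, Q.eval z ≠ 0 := by
          filter_upwards [hTne, hne] with z h1 h2
          rw [hQev]
          exact mul_ne_zero (pow_ne_zero _ h2) h1
        have hpow : ∀ i : ℕ, i ≠ 0 → Tendsto (fun z : ℂ => (z - z1) ^ i) (𝓝[≠] z1) (𝓝 0) := by
          intro i hi
          have h1 : Continuous fun z : ℂ => (z - z1) ^ i := by fun_prop
          have h2 := h1.tendsto z1
          rw [sub_self, zero_pow hi] at h2
          exact h2.mono_left nhdsWithin_le_nhds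
        refine ⟨?_, fun j hj => ?_⟩
        · filter_upwards [hQne] with z hz
          rw [han]
          exact mul_ne_zero hcn hz
        · by_cases hj0 : j = 0
          · subst hj0
            have h1 : Tendsto (fun z : ℂ => conj (Q.coeff 0) / conj (Q.coeff n) * (z - z1) ^ n -
                (ρ : ℂ) ^ 2 / conj (Q.coeff n) * ((z - z1) ^ (n - k) * (T.eval z)⁻¹)) (𝓝[≠] z1)
                (𝓝 (conj (Q.coeff 0) / conj (Q.coeff n) * 0 -
                  (ρ : ℂ) ^ 2 / conj (Q.coeff n) * (0 * (T.eval z1)⁻¹))) := by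
              refine Tendsto.sub ((hpow n (by omega)).const_mul _) (Tendsto.const_mul _ ?_)
              refine (hpow (n - k) (by omega)).mul ?_
              exact ((T.continuous.tendsto z1).mono_left nhdsWithin_le_nhds).inv₀ hT1
            simp only [mul_zero, zero_mul, sub_zero] at h1
            refine h1.congr' ?_
            filter_upwards [hTne, hne] with z h2 h3
            rw [han]
            simp only [ha, if_true, Nat.sub_zero]
            have h4 : (z - z1) ^ n = (z - z1) ^ (n - k) * (z - z1) ^ k := by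
              rw [← pow_add, Nat.sub_add_cancel hk.le]
            have h5 : (z - z1) ^ k ≠ 0 := pow_ne_zero _ h3
            rw [hQev, h4]
            field_simp
          · have h1 := (hpow (n - j) (by omega)).const_mul (conj (Q.coeff j) / conj (Q.coeff n))
            rw [mul_zero] at h1
            refine h1.congr' ?_
            filter_upwards [hQne] with z hz
            rw [han]
            simp only [ha, if_neg hj0, sub_zero]
            congr 1
            rw [mul_div_mul_right _ _ hz]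
      rintro z ⟨-, -, hz⟩
      exact absurd (hall z) hz

end Pool.Agent.Q162.Sch
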