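import Pool.Agent.Q162.Sch.Green

/-!
Images of concentric discs: Taylor coefficients and corners.
-/

set_option autoImplicit false

open MeasureTheory Metric Set Filter Topology ComplexConjugate
open Pool.Agent.Results.MP_83fd13_an.BranchSingularities

namespace Pool.Agent.Q162.Sch

/-- Growth from the Taylor coefficients. -/
theorem growth_coeff {f : ℂ → ℂ} {c : ℕ → ℂ} {a : ℝ}
    (hc : ∀ v ∈ ball (0 : ℂ) 1, HasSum (fun n => c n * v ^ n) (f v))
    (ha0 : 0 ≤ a) (ha : ∀ᶠ n in atTop, ‖c n‖ ≤ a) {η : ℝ} (hη : a < η) :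
    ∃ δ > 0, ∀ v ∈ ball (0 : ℂ) 1, 1 - δ < ‖v‖ → (1 - ‖v‖) * ‖f v‖ ≤ η := by
  obtain ⟨N, hN⟩ := eventually_atTop.1 ha
  set C : ℝ := ∑ n ∈ Finset.range N, ‖c n‖ with hC
  have hC0 : 0 ≤ C := Finset.sum_nonneg fun n _ => norm_nonneg _
  refine ⟨(η - a) / (C + 1), div_pos (by linarith) (by linarith), fun v hv hvδ => ?_⟩
  have hv1 : ‖v‖ < 1 := mem_ball_zero_iff.1 hv
  have hv0 : 0 ≤ ‖v‖ := norm_nonneg v
  have hpos : 0 < 1 - ‖v‖ := by linarith
  set b : ℕ → ℝ := fun n => (if n < N then ‖c n‖ else 0) + a * ‖v‖ ^ n with hb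
  have hg : HasSum (fun n => a * ‖v‖ ^ n) (a * (1 - ‖v‖)⁻¹) :=
    (hasSum_geometric_of_lt_one hv0 hv1).mul_left a
  have hs : HasSum (fun n => if n < N then ‖c n‖ else (0 : ℝ)) C := by
    have h1 : HasSum (fun n => if n < N then ‖c n‖ else (0 : ℝ))
        (∑ n ∈ Finset.range N, (if n < N then ‖c n‖ else (0 : ℝ))) :=
      hasSum_sum_of_ne_finset_zero (by
        intro n hn
        rw [Finset.mem_range] at hn
        rw [if_neg hn])
    have h2 : ∑ n ∈ Finset.range N, (if n < N then ‖c n‖ else (0 : ℝ)) = C := by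
      rw [hC]
      refine Finset.sum_congr rfl fun n hn => ?_
      rw [if_pos (Finset.mem_range.1 hn)]
    rwa [h2] at h1
  have hsum : HasSum b (C + a * (1 - ‖v‖)⁻¹) := hs.add hg
  have hle : ∀ n, ‖c n * v ^ n‖ ≤ b n := by
    intro n
    rw [norm_mul, norm_pow]
    simp only [hb]
    by_cases hn : n < N
    · rw [if_pos hn]
      have h1 : ‖v‖ ^ n ≤ 1 := pow_le_one₀ hv0 hv1.le
      have h2 : 0 ≤ a * ‖v‖ ^ n := by positivity
      have h3 : ‖c n‖ * ‖v‖ ^ n ≤ ‖c n‖ := mul_le_of_le_one_right (norm_nonneg _) h1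
      linarith
    · rw [if_neg hn, zero_add]
      exact mul_le_mul_of_nonneg_right (hN n (by omega)) (by positivity)
  have hf : ‖f v‖ ≤ C + a * (1 - ‖v‖)⁻¹ := by
    rw [← (hc v hv).tsum_eq]
    exact tsum_of_norm_bounded hsum hle
  have h1 : (1 - ‖v‖) * ‖f v‖ ≤ (1 - ‖v‖) * (C + a * (1 - ‖v‖)⁻¹) :=
    mul_le_mul_of_nonneg_left hf hpos.le
  have h2 : (1 - ‖v‖) * (C + a * (1 - ‖v‖)⁻¹) = (1 - ‖v‖) * C + a := by
    field_simp
  have h3 : (1 - ‖v‖) * C ≤ η - a := by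
    have h4 : 1 - ‖v‖ ≤ (η - a) / (C + 1) := by linarith
    rw [le_div_iff₀ (by linarith)] at h4
    nlinarith
  linarith

/-- the threshold, uniformly -/
theorem room {f : ℂ → ℂ} {t lam a : ℝ} (hlam : 0 < lam)
    (hthr : ∀ ζ : ℂ, ‖ζ‖ = 1 → lam * t ^ 2 * ‖deriv f ((t ^ 2 : ℝ) * ζ)‖ * a < 3) {ζ : ℂ}
    (hζ : ‖ζ‖ = 1) : ∃ η > a, lam * t ^ 2 * ‖deriv f ((t ^ 2 : ℝ) * ζ)‖ * η < 3 := by
  have h := hthr ζ hζ
  set k : ℝ := lam * t ^ 2 * ‖deriv f ((t ^ 2 : ℝ) * ζ)‖ with hk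
  have hk0 : 0 ≤ k := by positivity
  refine ⟨a + (3 - k * a) / (2 * (k + 1)), by
    have : 0 < (3 - k * a) / (2 * (k + 1)) := div_pos (by linarith) (by linarith)
    linarith, ?_⟩
  have h1 : k * (a + (3 - k * a) / (2 * (k + 1))) = k * a + (3 - k * a) * (k / (2 * (k + 1))) := by
    ring
  rw [h1]
  have h2 : k / (2 * (k + 1)) < 1 := by
    rw [div_lt_one (by linarith)]; linarith
  nlinarith

/-- Coefficients which are eventually small decay exponentially. -/
theorem coeff_thm {f : ℂ → ℂ} {c : ℕ → ℂ} {t t' a lam : ℝ}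
    (hc : ∀ v ∈ ball (0 : ℂ) 1, HasSum (fun n => c n * v ^ n) (f v))
    (ht : 0 < t) (htt : t < t') (ht' : t' ≤ 1) (hinj : InjOn f (ball 0 t')) (hlam : 0 < lam)
    (hS : Solvable (f '' ball 0 t) lam)
    (ha : ∀ᶠ n in atTop, ‖c n‖ ≤ a)
    (hthr : ∀ ζ : ℂ, ‖ζ‖ = 1 → lam * t ^ 2 * ‖deriv f ((t ^ 2 : ℝ) * ζ)‖ * a < 3) :
    ∃ q C : ℝ, 0 < q ∧ q < 1 ∧ ∀ n, ‖c n‖ ≤ C * q ^ n := by
  obtain ⟨N0, hN0⟩ := eventually_atTop.1 ha
  have ha0 : 0 ≤ a := (norm_nonneg _).trans (hN0 N0 le_rfl)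
  -- the power series
  set p : FormalMultilinearSeries ℂ ℂ ℂ := FormalMultilinearSeries.ofScalars ℂ c with hp
  have hcoef : ∀ n, p.coeff n = c n := fun n => by
    rw [hp]; simp [FormalMultilinearSeries.coeff_ofScalars]
  have hfp : HasFPowerSeriesAt f p 0 := by
    rw [hasFPowerSeriesAt_iff]
    filter_upwards [isOpen_ball.mem_nhds (mem_ball_self (x := (0 : ℂ)) one_pos)] with z hz
    rw [zero_add]
    have h1 := hc z hz
    refine h1.congr_fun ?_
    intro n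
    rw [hcoef, smul_eq_mul, mul_comm]
  have hf : DifferentiableOn ℂ f (ball 0 1) := by
    have hrad : ENNReal.ofReal 1 ≤ p.radius := by
      refine ENNReal.le_of_forall_nnreal_lt fun s hs => ?_
      have hs1 : (s : ℝ) < 1 := by
        rw [ENNReal.ofReal_one] at hs
        exact_mod_cast hs
      refine p.le_radius_of_summable_norm ?_
      have h1 : Summable (fun n => ‖c n * ((s : ℝ) : ℂ) ^ n‖) := by
        have hmem : (((s : ℝ) + 1) / 2 : ℝ) < 1 := by linarith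
        have h2 : (((((s : ℝ) + 1) / 2 : ℝ)) : ℂ) ∈ ball (0 : ℂ) 1 := by
          rw [mem_ball_zero_iff, Complex.norm_real, Real.norm_of_nonneg (by positivity)]
          exact hmem
        have h3 := (hc _ h2).summable.norm
        refine Summable.of_nonneg_of_le (fun n => norm_nonneg _) (fun n => ?_) h3
        rw [norm_mul, norm_mul, norm_pow, norm_pow, Complex.norm_real, Complex.norm_real,
          Real.norm_of_nonneg s.coe_nonneg, Real.norm_of_nonneg (by positivity)]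
        refine mul_le_mul_of_nonneg_left (pow_le_pow_left₀ s.coe_nonneg ?_ n) (norm_nonneg _)
        linarith
      refine h1.congr fun n => ?_
      rw [norm_mul, norm_pow, Complex.norm_real, Real.norm_of_nonneg s.coe_nonneg,
        FormalMultilinearSeries.norm_apply_eq_norm_coef, hcoef]
    have hball : HasFPowerSeriesOnBall f p 0 (ENNReal.ofReal 1) := by
      refine ⟨hrad, by simp, ?_⟩
      intro y hy
      rw [Metric.eball_ofReal] at hy
      have h1 := hc y hy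
      rw [zero_add]
      refine h1.congr_fun ?_
      intro n
      rw [FormalMultilinearSeries.apply_eq_pow_smul_coeff, hcoef, smul_eq_mul, mul_comm]
    have h2 := hball.differentiableOn
    rwa [Metric.eball_ofReal] at h2
  -- extension to every boundary point
  have hloc : ∀ ζ : ℂ, ‖ζ‖ = 1 → LocExt f 1 ζ := by
    intro ζ hζ
    obtain ⟨η, hη, hηs⟩ := room hlam hthr hζ
    obtain ⟨δ, hδ, hgr⟩ := growth_coeff hc ha0 ha hη
    refine local_ext hf ht htt ht' hinj hlam hS hζ hηs ⟨δ, hδ, fun v hv hvd => hgr v hv ?_⟩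
    have h1 := norm_sub_norm_le ζ v
    rw [norm_sub_rev, hζ] at h1
    linarith
  obtain ⟨R', F, hR', hF, hFf⟩ := extend one_pos hf hloc
  have hFe : F =ᶠ[𝓝 0] f := by
    filter_upwards [isOpen_ball.mem_nhds (mem_ball_self (x := (0 : ℂ)) one_pos)] with z hz
    exact hFf z hz
  have hrad := radius_le hfp hF hFe
  have hs0 : (0 : ℝ) < (1 + R') / 2 := by linarith
  set s : NNReal := ⟨(1 + R') / 2, hs0.le⟩ with hs
  have hsr : (s : ENNReal) < p.radius := by
    refine lt_of_lt_of_le ?_ hrad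
    rw [ENNReal.lt_ofReal_iff_toReal_lt ENNReal.coe_ne_top]
    show (1 + R') / 2 < R'
    linarith
  obtain ⟨C, hC0, hC⟩ := p.norm_mul_pow_le_of_lt_radius hsr
  have hs1 : (1 : ℝ) < (1 + R') / 2 := by linarith
  refine ⟨((1 + R') / 2)⁻¹, C, by positivity, inv_lt_one_of_one_lt₀ hs1, fun n => ?_⟩
  have h1 := hC n
  rw [FormalMultilinearSeries.norm_apply_eq_norm_coef, hcoef] at h1
  have h2 : (s : ℝ) = (1 + R') / 2 := rfl
  rw [h2] at h1
  rw [inv_pow, ← div_eq_mul_inv, le_div_iff₀ (by positivity)]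
  exact h1

end Pool.Agent.Q162.Sch
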