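import Pool.Agent.Q162.Sch.Green2

/-!
Images of concentric discs: corners.
-/

set_option autoImplicit false

open MeasureTheory Metric Set Filter Topology ComplexConjugate
open Pool.Agent.Results.MP_83fd13_an.BranchSingularities

namespace Pool.Agent.Q162.Sch

/-- a holomorphic function near a boundary point does not map the disc into a sector of opening less
than a half-plane. -/
theorem corner_contra {f F : ℂ → ℂ} {ζ P e : ℂ} {ε κ ρ : ℝ} (hζ : ‖ζ‖ = 1) (hε : 0 < ε)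
    (hF : DifferentiableOn ℂ F (ball ζ ε)) (hFf : ∀ v ∈ ball ζ ε ∩ ball 0 1, F v = f v)
    (hFP : F ζ = P) (hinj : InjOn f (ball 0 1)) (hκ : 0 < κ) (hρ : 0 < ρ)
    (hcor : ∀ v ∈ ball (0 : ℂ) 1, ‖f v - P‖ < ρ →
      κ * ‖f v - P‖ ≤ ((f v - P) * conj e).re) : False := by
  have hζ0 : ζ ≠ 0 := by
    rw [← norm_pos_iff, hζ]; exact one_pos
  have hFa : AnalyticAt ℂ F ζ := hF.analyticAt (isOpen_ball.mem_nhds (mem_ball_self hε))
  have hG : AnalyticAt ℂ (fun v => F v - P) ζ := hFa.sub analyticAt_const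
  have hnz : ¬ ∀ᶠ v in 𝓝 ζ, F v - P = 0 := by
    intro h
    obtain ⟨δ, hδ, h⟩ := Metric.eventually_nhds_iff.1 h
    set s : ℝ := min (min δ ε) 1 / 2 with hs
    have hs0 : 0 < s := by positivity
    have hs1 : s < 1 := by
      have := min_le_right (min δ ε) 1
      rw [hs]; linarith
    have hsd : s < δ := by
      have h1 : min (min δ ε) 1 ≤ δ := (min_le_left _ _).trans (min_le_left _ _)
      rw [hs]; linarith
    have hse : s < ε := by
      have h1 : min (min δ ε) 1 ≤ ε := (min_le_left _ _).trans (min_le_right _ _)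
      rw [hs]; linarith
    have hpt : ∀ x : ℝ, 0 < x → x ≤ s → ((1 - x : ℝ) : ℂ) * ζ ∈ ball (0 : ℂ) 1 ∧
        f (((1 - x : ℝ) : ℂ) * ζ) = P := by
      intro x hx hxs
      have h1 : ((1 - x : ℝ) : ℂ) * ζ ∈ ball (0 : ℂ) 1 := by
        rw [mem_ball_zero_iff, norm_mul, Complex.norm_real, hζ, mul_one,
          Real.norm_of_nonneg (by linarith)]
        linarith
      have h2 : dist (((1 - x : ℝ) : ℂ) * ζ) ζ = x := by
        rw [dist_eq_norm]
        have : ((1 - x : ℝ) : ℂ) * ζ - ζ = ((-x : ℝ) : ℂ) * ζ := by push_cast; ring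
        rw [this, norm_mul, Complex.norm_real, hζ, mul_one, norm_neg,
          Real.norm_of_nonneg hx.le]
      refine ⟨h1, ?_⟩
      rw [← hFf _ ⟨by rw [mem_ball, h2]; linarith, h1⟩]
      have h3 := h (y := ((1 - x : ℝ) : ℂ) * ζ) (by rw [h2]; linarith)
      exact sub_eq_zero.1 h3
    obtain ⟨h1, h2⟩ := hpt s hs0 le_rfl
    obtain ⟨h3, h4⟩ := hpt (s / 2) (by linarith) (by linarith)
    have h5 := hinj h1 h3 (h2.trans h4.symm)
    have h6 := mul_right_cancel₀ hζ0 h5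
    have h7 : (1 - s : ℝ) = 1 - s / 2 := by exact_mod_cast h6
    linarith
  obtain ⟨n, g, hg, hg0, hgv⟩ := hG.exists_eventuallyEq_pow_smul_nonzero_iff.2 hnz
  have hn : n ≠ 0 := by
    rintro rfl
    have h1 := hgv.self_of_nhds
    simp only [pow_zero, one_smul, hFP, sub_self] at h1
    exact hg0 h1.symm
  have hn1 : (1 : ℝ) ≤ n := by exact_mod_cast Nat.one_le_iff_ne_zero.2 hn
  obtain ⟨h, hh⟩ : ∃ h : ℝ → ℝ, h = fun θ : ℝ =>
    (((-ζ * Complex.exp (θ * Complex.I)) ^ n * g ζ) * conj e).re := ⟨_, rfl⟩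
  have hpi := Real.pi_pos
  have hkey : ∀ θ : ℝ, |θ| < Real.pi / 2 → κ * ‖g ζ‖ ≤ h θ := by
    intro θ hθ
    set w : ℂ := Complex.exp (θ * Complex.I) with hw
    have hwn : ‖w‖ = 1 := Complex.norm_exp_ofReal_mul_I θ
    have hcos : 0 < Real.cos θ := Real.cos_pos_of_mem_Ioo (abs_lt.1 hθ)
    set v : ℝ → ℂ := fun s => ζ - s * ζ * w with hv
    have hvc : Tendsto v (𝓝[>] 0) (𝓝 ζ) := by
      have h1 : Continuous v := by rw [hv]; fun_prop
      have h2 := (h1.tendsto 0).mono_left (nhdsWithin_le_nhds (s := Ioi (0 : ℝ)))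
      simpa [hv] using h2
    have hvin : ∀ᶠ s in 𝓝[>] (0 : ℝ), v s ∈ ball (0 : ℂ) 1 := by
      have h1 : ∀ᶠ s in 𝓝[>] (0 : ℝ), s ∈ Ioo (0 : ℝ) (2 * Real.cos θ) :=
        Ioo_mem_nhdsGT (by linarith)
      filter_upwards [h1] with s hs
      rw [mem_ball_zero_iff]
      have h2 : v s = ζ * (1 - s * w) := by simp only [hv]; ring
      rw [h2, norm_mul, hζ, one_mul]
      have h3 : ‖(1 : ℂ) - s * w‖ ^ 2 = 1 - 2 * s * Real.cos θ + s ^ 2 := by
        rw [← Complex.normSq_eq_norm_sq, Complex.normSq_apply]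
        have hre : w.re = Real.cos θ := by rw [hw, Complex.exp_ofReal_mul_I_re]
        have him : w.im = Real.sin θ := by rw [hw, Complex.exp_ofReal_mul_I_im]
        simp only [Complex.sub_re, Complex.sub_im, Complex.one_re, Complex.one_im,
          Complex.mul_re, Complex.mul_im, Complex.ofReal_re, Complex.ofReal_im, hre, him]
        have := Real.sin_sq_add_cos_sq θ
        linear_combination s ^ 2 * this
      have h4 : ‖(1 : ℂ) - s * w‖ ^ 2 < 1 := by
        rw [h3]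
        nlinarith [hs.1, hs.2]
      by_contra hcon
      push Not at hcon
      nlinarith [norm_nonneg ((1 : ℂ) - s * w)]
    have hFt : Tendsto (fun s => F (v s)) (𝓝[>] 0) (𝓝 P) := by
      rw [← hFP]
      exact hFa.continuousAt.tendsto.comp hvc
    have hgt : Tendsto (fun s => g (v s)) (𝓝[>] 0) (𝓝 (g ζ)) :=
      hg.continuousAt.tendsto.comp hvc
    have hev : ∀ᶠ s in 𝓝[>] (0 : ℝ), κ * ‖g (v s)‖ ≤
        (((-ζ * w) ^ n * g (v s)) * conj e).re := by
      have h1 : ∀ᶠ s in 𝓝[>] (0 : ℝ), v s ∈ ball ζ ε :=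
        hvc (isOpen_ball.mem_nhds (mem_ball_self hε))
      have h2 : ∀ᶠ s in 𝓝[>] (0 : ℝ), F (v s) ∈ ball P ρ :=
        hFt (isOpen_ball.mem_nhds (mem_ball_self hρ))
      filter_upwards [h1, h2, hvin, hvc.eventually hgv, self_mem_nhdsWithin] with s h1 h2 h3 h4 h5
      have h5' : 0 < s := h5
      have h6 : F (v s) = f (v s) := hFf _ ⟨h1, h3⟩
      rw [mem_ball, dist_eq_norm, h6] at h2
      have h7 := hcor _ h3 h2
      rw [← h6, h4] at h7
      have h8 : v s - ζ = (s : ℂ) * (-ζ * w) := by simp only [hv]; ring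
      rw [h8, smul_eq_mul, mul_pow] at h7
      have h9 : ((s : ℂ) ^ n * (-ζ * w) ^ n * g (v s)) = ((s ^ n : ℝ) : ℂ) *
          ((-ζ * w) ^ n * g (v s)) := by push_cast; ring
      rw [h9, mul_assoc ((s ^ n : ℝ) : ℂ), Complex.re_ofReal_mul, norm_mul, Complex.norm_real,
        Real.norm_of_nonneg (by positivity), norm_mul, norm_pow, norm_mul, norm_neg, hζ, hwn,
        one_mul, one_pow, one_mul] at h7
      have hsn : 0 < s ^ n := by positivity
      have h10 : s ^ n * (κ * ‖g (v s)‖) ≤ s ^ n * (((-ζ * w) ^ n * g (v s)) * conj e).re := by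
        linarith
      exact le_of_mul_le_mul_left h10 hsn
    have hlim1 : Tendsto (fun s => κ * ‖g (v s)‖) (𝓝[>] 0) (𝓝 (κ * ‖g ζ‖)) :=
      hgt.norm.const_mul κ
    have hlim2 : Tendsto (fun s => (((-ζ * w) ^ n * g (v s)) * conj e).re) (𝓝[>] 0)
        (𝓝 ((((-ζ * w) ^ n * g ζ) * conj e).re)) :=
      (Complex.continuous_re.tendsto _).comp ((hgt.const_mul _).mul_const _)
    rw [hh]
    exact le_of_tendsto_of_tendsto hlim1 hlim2 hev
  have hcont : Continuous h := by rw [hh]; fun_prop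
  have hclo : ∀ θ0 : ℝ, |θ0| ≤ Real.pi / 2 → κ * ‖g ζ‖ ≤ h θ0 := by
    intro θ0 hθ0
    have hseq : Tendsto (fun k : ℕ => (1 - 1 / ((k : ℝ) + 1)) * θ0) atTop (𝓝 θ0) := by
      have h1 := (tendsto_one_div_add_atTop_nhds_zero_nat (𝕜 := ℝ)).const_sub 1
      have h2 := h1.mul_const θ0
      simpa using h2
    refine ge_of_tendsto' ((hcont.tendsto θ0).comp hseq) fun k => hkey _ ?_
    have hk : (0 : ℝ) < (k : ℝ) + 1 := by positivity
    have h1 : 0 < 1 / ((k : ℝ) + 1) := by positivity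
    have h2 : 1 / ((k : ℝ) + 1) ≤ 1 := by
      rw [div_le_one hk]
      linarith [Nat.cast_nonneg (α := ℝ) k]
    rw [abs_mul, abs_of_nonneg (by linarith)]
    rcases eq_or_lt_of_le (abs_nonneg θ0) with h0 | h0
    · rw [← h0, mul_zero]; linarith
    · nlinarith
  have hθn : Real.pi / (2 * n) ≤ Real.pi / 2 :=
    div_le_div_of_nonneg_left hpi.le (by norm_num) (by linarith)
  have hθp : 0 < Real.pi / (2 * n) := by positivity
  have h1 := hclo (Real.pi / (2 * n)) (by rw [abs_of_pos hθp]; exact hθn)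
  have h2 := hclo (-(Real.pi / (2 * n))) (by rw [abs_neg, abs_of_pos hθp]; exact hθn)
  have hnc : (n : ℂ) ≠ 0 := by exact_mod_cast hn
  have e1 : (-ζ * Complex.exp (((Real.pi / (2 * n) : ℝ) : ℂ) * Complex.I)) ^ n =
      (-ζ) ^ n * Complex.I := by
    rw [mul_pow, ← Complex.exp_nat_mul]
    have : (n : ℂ) * (((Real.pi / (2 * n) : ℝ) : ℂ) * Complex.I) =
        (Real.pi : ℂ) / 2 * Complex.I := by
      push_cast; field_simp
    rw [this, Complex.exp_pi_div_two_mul_I]
  have e2 : (-ζ * Complex.exp (((-(Real.pi / (2 * n)) : ℝ) : ℂ) * Complex.I)) ^ n =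
      (-ζ) ^ n * (-Complex.I) := by
    rw [mul_pow, ← Complex.exp_nat_mul]
    have : (n : ℂ) * (((-(Real.pi / (2 * n)) : ℝ) : ℂ) * Complex.I) =
        -((Real.pi : ℂ) / 2 * Complex.I) := by
      push_cast; field_simp
    rw [this, Complex.exp_neg, Complex.exp_pi_div_two_mul_I, Complex.inv_I]
  rw [hh] at h1 h2
  simp only [e1, e2] at h1 h2
  have h3 : ((-ζ) ^ n * (-Complex.I) * g ζ * conj e).re =
      -((-ζ) ^ n * Complex.I * g ζ * conj e).re := by
    rw [← Complex.neg_re]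
    congr 1; ring
  rw [h3] at h2
  have h4 : 0 < κ * ‖g ζ‖ := mul_pos hκ (norm_pos_iff.2 hg0)
  linarith

end Pool.Agent.Q162.Sch
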