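import Pool.Agent.Q162.Sch.Green3

/-!
Images of concentric discs in bounded domains.
-/

set_option autoImplicit false

open MeasureTheory Metric Set Filter Topology ComplexConjugate
open Pool.Agent.Results.MP_83fd13_an.BranchSingularities

namespace Pool.Agent.Q162.Sch

theorem image_open {f : ℂ → ℂ} (hf : DifferentiableOn ℂ f (ball 0 1)) (hinj : InjOn f (ball 0 1)) :
    IsOpen (f '' ball 0 1) := by
  have h1 : AnalyticOnNhd ℂ f (ball 0 1) := hf.analyticOnNhd isOpen_ball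
  rcases h1.is_constant_or_isOpen (convex_ball (0 : ℂ) 1).isPreconnected with ⟨w, hw⟩ | h
  · exfalso
    have h0 : (0 : ℂ) ∈ ball (0 : ℂ) 1 := mem_ball_self one_pos
    have h2 : (1 / 2 : ℂ) ∈ ball (0 : ℂ) 1 := by
      rw [mem_ball_zero_iff]; norm_num
    have h3 := hinj h0 h2 ((hw 0 h0).trans (hw _ h2).symm)
    norm_num at h3
  · exact h _ Subset.rfl isOpen_ball

/-- the growth condition for bounded functions -/
theorem grow_of_bdd {f : ℂ → ℂ} (hb : Bornology.IsBounded (f '' ball 0 1)) :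
    ∀ η : ℝ, 0 < η → ∃ δ > 0, ∀ v : ℂ, 1 - δ < ‖v‖ → ‖v‖ < 1 → (1 - ‖v‖) * ‖f v‖ ≤ η := by
  obtain ⟨M, hM⟩ := hb.exists_norm_le
  have hM' : ∀ v ∈ ball (0 : ℂ) 1, ‖f v‖ ≤ M := fun v hv => hM _ ⟨v, hv, rfl⟩
  have hM0 : 0 ≤ M := (norm_nonneg _).trans (hM' 0 (mem_ball_self one_pos))
  intro η hη0
  refine ⟨η / (M + 1), by positivity, fun v hv hv1 => ?_⟩
  have h2 : 1 - ‖v‖ ≤ η / (M + 1) := by linarith
  rw [le_div_iff₀ (by linarith)] at h2
  have h3 : (1 - ‖v‖) * ‖f v‖ ≤ (1 - ‖v‖) * (M + 1) :=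
    mul_le_mul_of_nonneg_left (by linarith [hM' v (mem_ball_zero_iff.2 hv1)]) (by linarith)
  linarith

/-- solvability on one image of a concentric disc gives a continuation to a larger disc -/
theorem bounded_main {f : ℂ → ℂ} {t lam : ℝ} (hf : DifferentiableOn ℂ f (ball 0 1))
    (hinj : InjOn f (ball 0 1))
    (hgrow : ∀ η : ℝ, 0 < η → ∃ δ > 0, ∀ v : ℂ, 1 - δ < ‖v‖ → ‖v‖ < 1 →
      (1 - ‖v‖) * ‖f v‖ ≤ η) (ht : 0 < t)
    (ht1 : t < 1) (hlam : 0 < lam) (hS : Solvable (f '' ball 0 t) lam) :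
    ∃ (R : ℝ) (F : ℂ → ℂ), 1 < R ∧ DifferentiableOn ℂ F (ball 0 R) ∧
      (∀ v ∈ ball (0 : ℂ) 1, F v = f v) ∧ frontier (f '' ball 0 1) ⊆ F '' sphere 0 1 := by
  have hloc : ∀ ζ : ℂ, ‖ζ‖ = 1 → LocExt f 1 ζ := by
    intro ζ hζ
    obtain ⟨η, hη, hηs⟩ := room (f := f) (t := t) (a := 0) hlam
      (fun ζ _ => by rw [mul_zero]; norm_num) hζ
    have hη0 : 0 < η := hη
    obtain ⟨δ, hδ, hg⟩ := hgrow η hη0
    refine local_ext hf ht ht1 le_rfl hinj hlam hS hζ hηs ⟨δ, hδ, fun v hv hvd => ?_⟩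
    have hv1 : ‖v‖ < 1 := mem_ball_zero_iff.1 hv
    have h1 := norm_sub_norm_le ζ v
    rw [norm_sub_rev, hζ] at h1
    exact hg v (by linarith) hv1
  obtain ⟨R, F, hR, hF, hFf⟩ := extend one_pos hf hloc
  refine ⟨R, F, hR, hF, hFf, ?_⟩
  have hsub : f '' ball 0 1 ⊆ F '' closedBall 0 1 := by
    rintro z ⟨v, hv, rfl⟩
    exact ⟨v, ball_subset_closedBall hv, hFf v hv⟩
  have hcomp : IsCompact (F '' closedBall 0 1) :=
    (isCompact_closedBall (0 : ℂ) 1).image_of_continuousOn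
      (hF.continuousOn.mono (closedBall_subset_ball hR))
  have hcl : closure (f '' ball 0 1) ⊆ F '' closedBall 0 1 :=
    closure_minimal hsub hcomp.isClosed
  rintro z ⟨hz1, hz2⟩
  obtain ⟨v, hv, rfl⟩ := hcl hz1
  refine ⟨v, ?_, rfl⟩
  rw [mem_sphere_zero_iff_norm]
  rw [mem_closedBall_zero_iff] at hv
  refine le_antisymm hv (not_lt.1 fun hlt => hz2 ?_)
  rw [(image_open hf hinj).interior_eq]
  exact ⟨v, mem_ball_zero_iff.2 hlt, (hFf v (mem_ball_zero_iff.2 hlt)).symm⟩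

/-- an analytic closed curve meets the zero set of an analytic function in finitely many points or
lies on it -/
theorem bd_analytic {F : ℂ → ℂ} {R : ℝ} (hR : 1 < R) (hF : DifferentiableOn ℂ F (ball 0 R))
    {S : Set ℂ} (hS : S ⊆ F '' sphere 0 1) (q : ℂ → ℝ) (hq : ∀ z, AnalyticAt ℝ q z)
    (hinf : {z | z ∈ S ∧ q z = 0}.Infinite) : ∀ z ∈ S, q z = 0 := by
  obtain ⟨γ, hγ⟩ : ∃ γ : ℝ → ℂ, γ = fun τ : ℝ => F (Complex.exp (τ * Complex.I)) := ⟨_, rfl⟩
  obtain ⟨h, hh⟩ : ∃ h : ℝ → ℝ, h = fun τ : ℝ => q (γ τ) := ⟨_, rfl⟩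
  have hγa : ∀ τ : ℝ, AnalyticAt ℝ γ τ := by
    intro τ
    have h1 : AnalyticAt ℂ F (Complex.exp (τ * Complex.I)) := by
      refine hF.analyticAt (isOpen_ball.mem_nhds ?_)
      rw [mem_ball_zero_iff, Complex.norm_exp_ofReal_mul_I]
      exact hR
    have h2 : AnalyticAt ℂ (fun z : ℂ => F (Complex.exp (z * Complex.I))) (τ : ℂ) := by
      refine AnalyticAt.comp (g := F) (f := fun z : ℂ => Complex.exp (z * Complex.I)) h1 ?_
      exact (analyticAt_id.mul analyticAt_const).cexp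
    have h3 : AnalyticAt ℝ (fun z : ℂ => F (Complex.exp (z * Complex.I))) (τ : ℂ) :=
      h2.restrictScalars
    have h4 : AnalyticAt ℝ (fun x : ℝ => (x : ℂ)) τ := Complex.ofRealCLM.analyticAt τ
    rw [hγ]
    exact AnalyticAt.comp (g := fun z : ℂ => F (Complex.exp (z * Complex.I)))
      (f := fun x : ℝ => (x : ℂ)) h3 h4
  have hha : AnalyticOnNhd ℝ h univ := by
    intro τ _
    rw [hh]
    exact (hq (γ τ)).comp (hγa τ)
  obtain ⟨T, hT⟩ : ∃ T : Set ℝ, T = {τ | τ ∈ Icc (-Real.pi) Real.pi ∧ h τ = 0} := ⟨_, rfl⟩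
  have hSγ : ∀ z ∈ S, ∃ τ ∈ Icc (-Real.pi) Real.pi, γ τ = z := by
    intro z hz
    obtain ⟨ζ, hζ, rfl⟩ := hS hz
    rw [mem_sphere_zero_iff_norm] at hζ
    refine ⟨ζ.arg, ⟨(Complex.neg_pi_lt_arg ζ).le, Complex.arg_le_pi ζ⟩, ?_⟩
    have h1 := Complex.norm_mul_exp_arg_mul_I ζ
    rw [hζ, Complex.ofReal_one, one_mul] at h1
    rw [hγ]
    simp only
    rw [h1]
  have hTinf : T.Infinite := by
    intro hfin
    refine hinf ((hfin.image γ).subset ?_)
    rintro z ⟨hz, hz0⟩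
    obtain ⟨τ, hτ, rfl⟩ := hSγ z hz
    refine ⟨τ, ?_, rfl⟩
    rw [hT]
    refine ⟨hτ, ?_⟩
    rw [hh]
    exact hz0
  obtain ⟨x, _, hx⟩ := hTinf.exists_accPt_of_subset_isCompact isCompact_Icc
    (by rw [hT]; exact fun τ hτ => hτ.1)
  have hfreq : ∃ᶠ y in 𝓝[≠] x, h y = 0 := by
    rw [accPt_iff_frequently] at hx
    rw [frequently_nhdsWithin_iff]
    refine hx.mono fun y hy => ?_
    have h1 := hy.2
    rw [hT] at h1
    exact ⟨h1.2, hy.1⟩
  have hz : ∀ τ, h τ = 0 := fun τ =>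
    hha.eqOn_zero_of_preconnected_of_frequently_eq_zero isPreconnected_univ (mem_univ x) hfreq
      (mem_univ τ)
  intro z hzS
  obtain ⟨τ, _, rfl⟩ := hSγ z hzS
  have h1 := hz τ
  rw [hh] at h1
  exact h1

theorem analytic_poly (p : MvPolynomial (Fin 2) ℝ) (z : ℂ) :
    AnalyticAt ℝ (fun z : ℂ => MvPolynomial.eval ![z.re, z.im] p) z := by
  have h1 := AnalyticAt.aeval_mvPolynomial (𝕜 := ℝ) (A := ℝ) (B := ℝ)
    (f := fun z : ℂ => (![z.re, z.im] : Fin 2 → ℝ)) (z := z) (by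
      intro i
      fin_cases i
      · exact Complex.reCLM.analyticAt _
      · exact Complex.imCLM.analyticAt _) p
  refine h1.congr (Eventually.of_forall fun z => ?_)
  exact DFunLike.congr_fun (MvPolynomial.coe_aeval_eq_eval (![z.re, z.im] : Fin 2 → ℝ)) p

theorem bd_poly {F : ℂ → ℂ} {R : ℝ} (hR : 1 < R) (hF : DifferentiableOn ℂ F (ball 0 R)) {S : Set ℂ}
    (hS : S ⊆ F '' sphere 0 1) (p : MvPolynomial (Fin 2) ℝ)
    (hinf : {z | z ∈ S ∧ MvPolynomial.eval ![z.re, z.im] p = 0}.Infinite) :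
    ∀ z ∈ S, MvPolynomial.eval ![z.re, z.im] p = 0 :=
  bd_analytic hR hF hS _ (analytic_poly p) hinf

/-- the boundary of a bounded open set does not lie on a line -/
theorem not_line {W : Set ℂ} (hW : IsOpen W) (hne : W.Nonempty) (hb : Bornology.IsBounded W)
    {α β γ : ℝ} (hαβ : α ≠ 0 ∨ β ≠ 0) (h : ∀ z ∈ frontier W, α * z.re + β * z.im = γ) : False := by
  have hpos : 0 < α ^ 2 + β ^ 2 := by
    rcases hαβ with h | h
    · have : 0 < α ^ 2 := by positivity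
      nlinarith [sq_nonneg β]
    · have : 0 < β ^ 2 := by positivity
      nlinarith [sq_nonneg α]
  -- a point off the line
  obtain ⟨z0, hz0, hoff⟩ : ∃ z0 ∈ W, α * z0.re + β * z0.im ≠ γ := by
    obtain ⟨z1, hz1⟩ := hne
    by_cases h1 : α * z1.re + β * z1.im = γ
    · obtain ⟨ε, hε, hball⟩ := Metric.isOpen_iff.1 hW z1 hz1
      set k : ℂ := ⟨α, β⟩ with hk
      have hk0 : 0 < ‖k‖ := by
        rw [norm_pos_iff]
        intro h0
        rw [hk, Complex.ext_iff] at h0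
        simp at h0
        rcases hαβ with h | h
        · exact h h0.1
        · exact h h0.2
      set s : ℝ := ε / (2 * ‖k‖) with hs
      have hs0 : 0 < s := by positivity
      refine ⟨z1 + (s : ℂ) * k, hball ?_, ?_⟩
      · rw [mem_ball, dist_eq_norm, add_sub_cancel_left, norm_mul, Complex.norm_real,
          Real.norm_of_nonneg hs0.le, hs]
        have : ε / (2 * ‖k‖) * ‖k‖ = ε / 2 := by field_simp
        rw [this]; linarith
      · simp only [hk, Complex.add_re, Complex.add_im, Complex.mul_re, Complex.mul_im,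
          Complex.ofReal_re, Complex.ofReal_im, zero_mul, sub_zero, add_zero]
        intro h2
        have h3 : s * (α ^ 2 + β ^ 2) = 0 := by linear_combination h2 - h1
        exact (mul_pos hs0 hpos).ne' h3
    · exact ⟨z1, hz1, h1⟩
  -- the parallel line
  set d : ℂ := ⟨-β, α⟩ with hd
  have hd0 : 0 < ‖d‖ := by
    rw [norm_pos_iff]
    intro h0
    rw [hd, Complex.ext_iff] at h0
    simp at h0
    rcases hαβ with h | h
    · exact h h0.2
    · exact h h0.1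
  set T : Set ℂ := range (fun s : ℝ => z0 + (s : ℂ) * d) with hT
  have hTc : IsPreconnected T := by
    rw [hT]
    exact isPreconnected_range (by fun_prop)
  have hTz : z0 ∈ T := ⟨0, by simp⟩
  have hTfr : ∀ z ∈ T, z ∉ frontier W := by
    rintro z ⟨s, rfl⟩ hz
    apply hoff
    have h1 := h _ hz
    simp only [hd, Complex.add_re, Complex.add_im, Complex.mul_re, Complex.mul_im,
      Complex.ofReal_re, Complex.ofReal_im, zero_mul, sub_zero, add_zero] at h1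
    linear_combination h1
  obtain ⟨M, hM⟩ := hb.closure.exists_norm_le
  have hM0 : 0 ≤ M := (norm_nonneg _).trans (hM z0 (subset_closure hz0))
  have hfar : ∃ z ∈ T, z ∉ closure W := by
    refine ⟨z0 + (((‖z0‖ + M + 1) / ‖d‖ : ℝ) : ℂ) * d, ⟨_, rfl⟩, fun hz => ?_⟩
    have h1 := hM _ hz
    have h2 : ‖(((‖z0‖ + M + 1) / ‖d‖ : ℝ) : ℂ) * d‖ = ‖z0‖ + M + 1 := by
      rw [norm_mul, Complex.norm_real, Real.norm_of_nonneg (by positivity)]
      field_simp
    have h3 := norm_sub_le (z0 + (((‖z0‖ + M + 1) / ‖d‖ : ℝ) : ℂ) * d) z0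
    rw [add_sub_cancel_left, h2] at h3
    linarith
  obtain ⟨z2, hz2, hz2c⟩ := hfar
  obtain ⟨y, -, hy1, hy2⟩ := hTc W (closure W)ᶜ hW isClosed_closure.isOpen_compl
    (by
      intro z hz
      by_cases h1 : z ∈ closure W
      · left
        by_contra h2
        exact hTfr z hz ⟨h1, by rwa [hW.interior_eq]⟩
      · right; exact h1)
    ⟨z0, hTz, hz0⟩ ⟨z2, hz2, hz2c⟩
  exact hy2 (subset_closure hy1)

end Pool.Agent.Q162.Sch
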