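import Pool.Agent.Q162.Sch.Poly
import Pool.Agent.Q162.Sch.Green4

/-!
The core argument when the algebraic relation holds on a larger circle.
-/

set_option autoImplicit false

open MeasureTheory Metric Set Filter Topology ComplexConjugate
open Pool.Agent.Results.MP_83fd13_an.BranchSingularities

namespace Pool.Agent.Q162.Sch

theorem relation_annulus' {φ E : ℂ → ℂ} {r R κ r1 : ℝ} (hr1 : 0 < r1) (hr : r1 < r) (hrR : r ≤ R)
    (hκ0 : 0 ≤ κ) (hκ : κ < r1)
    (hE : DifferentiableOn ℂ E (ball 0 R)) (hEφ : ∀ w ∈ ball (0 : ℂ) r, E w = φ w)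
    {m : ℕ} {A : ℕ → ℂ → ℂ} (hA : ∀ j ≤ m, DifferentiableOn ℂ (A j) {w | κ < ‖w‖})
    (hrel : ∀ w : ℂ, ‖w‖ = r1 → ∑ j ∈ Finset.range (m + 1), A j w * φ w ^ j = 0) :
    ∀ w : ℂ, κ < ‖w‖ → ‖w‖ < R → ∑ j ∈ Finset.range (m + 1), A j w * E w ^ j = 0 := by
  set U : Set ℂ := {w : ℂ | κ < ‖w‖ ∧ ‖w‖ < R} with hU
  have hUo : IsOpen U := (isOpen_lt continuous_const continuous_norm).inter
    (isOpen_lt continuous_norm continuous_const)
  have hd : DifferentiableOn ℂ (fun w => ∑ j ∈ Finset.range (m + 1), A j w * E w ^ j) U := by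
    refine DifferentiableOn.fun_sum fun j hj => ?_
    refine DifferentiableOn.mul ?_ (DifferentiableOn.pow ?_ _)
    · exact (hA j (by rw [Finset.mem_range] at hj; omega)).mono fun w hw => hw.1
    · exact hE.mono fun w hw => mem_ball_zero_iff.2 hw.2
  have hr1n : ‖(r1 : ℂ)‖ = r1 := by rw [Complex.norm_real, Real.norm_of_nonneg hr1.le]
  have hr1c : (r1 : ℂ) ≠ 0 := by exact_mod_cast hr1.ne'
  have h1U : (r1 : ℂ) ∈ U := by
    constructor
    · rw [hr1n]; exact hκ
    · rw [hr1n]; linarith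
  have hfreq : ∃ᶠ z in 𝓝[≠] (r1 : ℂ), ∑ j ∈ Finset.range (m + 1), A j z * E z ^ j = 0 := by
    have hder : HasDerivAt (fun θ : ℝ => (r1 : ℂ) * Complex.exp (θ * Complex.I))
        ((r1 : ℂ) * (Complex.exp ((0 : ℝ) * Complex.I) * Complex.I)) 0 := by
      have h1 : HasDerivAt (fun θ : ℝ => (θ : ℂ) * Complex.I) (1 * Complex.I) 0 :=
        (Complex.ofRealCLM.hasDerivAt (x := (0 : ℝ))).mul_const _
      have h2 := h1.cexp
      have h3 := h2.const_mul (r1 : ℂ)
      simpa using h3
    have hne : (r1 : ℂ) * (Complex.exp ((0 : ℝ) * Complex.I) * Complex.I) ≠ 0 := by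
      simp [hr1c]
    have ht := hder.tendsto_nhdsNE hne
    have h01 : (r1 : ℂ) * Complex.exp ((0 : ℝ) * Complex.I) = r1 := by simp
    rw [h01] at ht
    have hev : ∀ᶠ θ : ℝ in 𝓝[≠] (0 : ℝ),
        ∑ j ∈ Finset.range (m + 1), A j ((r1 : ℂ) * Complex.exp (θ * Complex.I)) *
          E ((r1 : ℂ) * Complex.exp (θ * Complex.I)) ^ j = 0 := by
      refine Eventually.of_forall fun θ => ?_
      have hn : ‖(r1 : ℂ) * Complex.exp (θ * Complex.I)‖ = r1 := by
        rw [norm_mul, Complex.norm_exp_ofReal_mul_I, mul_one, hr1n]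
      rw [hEφ _ (mem_ball_zero_iff.2 (by rw [hn]; exact hr))]
      exact hrel _ hn
    exact ht.frequently hev.frequently
  have hz := (hd.analyticOnNhd hUo).eqOn_zero_of_preconnected_of_frequently_eq_zero
    (annulus_preconnected κ R hκ0) h1U hfreq
  intro w h1 h2
  exact hz ⟨h1, h2⟩

/-- The core argument. -/
theorem core' {φ : ℂ → ℂ} {r r1 r2 : ℝ} (hr : 1 < r) (hr2 : r ≤ r2) (hr1 : 1 < r1) (hr12 : r1 < r2)
    (hφ : DifferentiableOn ℂ φ (ball 0 r2))
    (hinj : InjOn φ (ball 0 r)) {lam : ℝ} (hlam : 0 < lam) (hS : Solvable (φ '' ball 0 1) lam)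
    (hnd : ¬ ∃ (p : ℂ) (r0 : ℝ), 0 < r0 ∧ φ '' ball 0 1 = ball p r0)
    {m : ℕ} (hm : 1 ≤ m) {A : ℕ → ℂ → ℂ} {κ : ℝ} (hκ0 : 0 ≤ κ) (hκ : κ < r1)
    (hA : ∀ j ≤ m, DifferentiableOn ℂ (A j) {w | κ < ‖w‖})
    (hrel : ∀ w : ℂ, ‖w‖ = r1 → ∑ j ∈ Finset.range (m + 1), A j w * φ w ^ j = 0)
    (hgood : ∀ w1 : ℂ, r1 < ‖w1‖ → A (m - 1) w1 ≠ 0 ∨ ((∀ᶠ w in 𝓝[≠] w1, A m w ≠ 0) ∧
      ∀ j < m, Tendsto (fun w => A j w / A m w * (w - w1) ^ (m - j)) (𝓝[≠] w1) (𝓝 0))) :
    False := by
  have hφr : DifferentiableOn ℂ φ (ball 0 r) := hφ.mono (ball_subset_ball hr2)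
  obtain ⟨hBB, -, hrest⟩ := result φ r hr hφr hinj lam hlam hS
  obtain ⟨hNF, -, -⟩ := hrest hnd
  rcases maximal (by linarith) hφ with ⟨E, hE, hEφ⟩ | ⟨R, E, w1, hrR, hE, hEφ, hw1, hno⟩
  · -- the entire case
    have him : E '' ball 0 1 = φ '' ball 0 1 :=
      image_congr fun w hw => hEφ w (ball_subset_ball (by linarith) hw)
    have hinjE : InjOn E (ball 0 r) := fun x hx y hy h => hinj hx hy (by
      rw [← hEφ x (ball_subset_ball hr2 hx), ← hEφ y (ball_subset_ball hr2 hy)]; exact h)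
    obtain ⟨-, -, h3⟩ := result E r hr hE.differentiableOn hinjE lam hlam (by rw [him]; exact hS)
    obtain ⟨-, -, h4⟩ := h3 (by rw [him]; exact hnd)
    exact h4 fun z => (hE.analyticAt z).meromorphicAt
  · refine hno ?_
    have hR : 1 < R := by linarith
    have hbr : ∀ z : ℂ, 1 < ‖z‖ → ‖z‖ < R → Branch φ r z E := fun z h1 h2 =>
      branch_of_lt hr (hr2.trans hrR) hE (fun w hw => hEφ w (ball_subset_ball hr2 hw)) h1 h2
    have hrelE := relation_annulus' (by linarith) hr12 hrR hκ0 hκ hE hEφ hA hrel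
    have hw1R : w1 ∉ ball (0 : ℂ) R := by rw [mem_ball_zero_iff, hw1]; exact lt_irrefl _
    have hUo : IsOpen {w : ℂ | κ < ‖w‖} := isOpen_lt continuous_const continuous_norm
    have hw1U : w1 ∈ {w : ℂ | κ < ‖w‖} := by
      simp only [mem_setOf_eq, hw1]; linarith
    have hAan : ∀ j ≤ m, AnalyticAt ℂ (A j) w1 := fun j hj =>
      (hA j hj).analyticAt (hUo.mem_nhds hw1U)
    have hmild : ((∀ᶠ w in 𝓝[≠] w1, A m w ≠ 0) ∧
        ∀ j < m, Tendsto (fun w => A j w / A m w * (w - w1) ^ (m - j)) (𝓝[≠] w1) (𝓝 0)) →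
        LocExt E R w1 := by
      rintro ⟨hne, ht⟩
      refine of_small hlam hBB hR hw1 hbr hE fun η hη => ?_
      refine mild_small hm hw1R hne ht ?_ hη
      refine eventually_nhdsWithin_of_eventually_nhds ?_
      filter_upwards [hUo.mem_nhds hw1U] with w hw hwR
      exact hrelE w hw (mem_ball_zero_iff.1 hwR)
    rcases hgood w1 (by rw [hw1]; linarith) with hg | hg
    · by_cases hAm : A m w1 = 0
      · obtain ⟨ε, y, hε, hy, hyu⟩ := reversed_root hm hAan hAm hg
        by_cases hb : ∃ (M δ : ℝ), 0 < δ ∧ ∀ w ∈ ball w1 δ ∩ ball 0 R, ‖E w‖ ≤ M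
        · obtain ⟨M, δ, hδ, hM⟩ := hb
          refine of_small hlam hBB hR hw1 hbr hE fun η hη => ?_
          refine ⟨min δ (η / (|M| + 1)), lt_min hδ (by positivity), fun w hw hwd => ?_⟩
          have h1 : ‖E w‖ ≤ |M| + 1 := by
            have := hM w ⟨by rw [mem_ball, dist_eq_norm]; exact lt_of_lt_of_le hwd (min_le_left _ _),
              hw⟩
            have h2 := le_abs_self M
            linarith
          have h2 : ‖w - w1‖ ≤ η / (|M| + 1) := (lt_of_lt_of_le hwd (min_le_right _ _)).le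
          calc ‖w - w1‖ * ‖E w‖ ≤ η / (|M| + 1) * (|M| + 1) := by gcongr
            _ = η := by field_simp
        · push Not at hb
          obtain ⟨δ, hδ, hδU⟩ := Metric.isOpen_iff.1 hUo w1 hw1U
          obtain ⟨z0, hz0, hEz0⟩ := hb (1 / ε) (min δ ε) (lt_min hδ hε)
          have hz0ε : z0 ∈ ball w1 ε := ball_subset_ball (min_le_right _ _) hz0.1
          refine of_recip hNF hR hw1 hbr hE hε hy (z0 := z0) ⟨hz0ε, hz0.2⟩ ?_
          have hcont : ContinuousAt (fun w => ‖E w‖) z0 :=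
            ((hE.differentiableAt (isOpen_ball.mem_nhds hz0.2)).continuousAt).norm
          have hbig : ∀ᶠ w in 𝓝 z0, 1 / ε < ‖E w‖ := hcont.eventually (lt_mem_nhds hEz0)
          filter_upwards [hbig, (isOpen_ball.inter isOpen_ball).mem_nhds hz0] with w h1 h2
          have hε1 : 0 < 1 / ε := by positivity
          have hE0 : E w ≠ 0 := by
            intro h0
            rw [h0, norm_zero] at h1
            linarith
          have hz : ∑ j ∈ Finset.range (m + 1), A (m - j) w * ((E w)⁻¹) ^ j = 0 := by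
            have h3 := hrelE w (hδU (ball_subset_ball (min_le_left _ _) h2.1))
              (mem_ball_zero_iff.1 h2.2)
            rw [← Finset.sum_range_reflect] at h3
            have h4 : ∑ j ∈ Finset.range (m + 1), A (m - j) w * ((E w)⁻¹) ^ j =
                ((E w)⁻¹) ^ m * ∑ j ∈ Finset.range (m + 1),
                  A (m + 1 - 1 - j) w * E w ^ (m + 1 - 1 - j) := by
              rw [Finset.mul_sum]
              refine Finset.sum_congr rfl fun j hj => ?_
              have hj' : j ≤ m := by rw [Finset.mem_range] at hj; omega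
              rw [Nat.add_sub_cancel]
              have h5 : ((E w)⁻¹) ^ m = ((E w)⁻¹) ^ j * ((E w)⁻¹) ^ (m - j) := by
                rw [← pow_add]; congr 1; omega
              rw [h5]
              have h6 : ((E w)⁻¹) ^ (m - j) * E w ^ (m - j) = 1 := by
                rw [← mul_pow, inv_mul_cancel₀ hE0, one_pow]
              linear_combination (-(A (m - j) w * ((E w)⁻¹) ^ j)) * h6
            rw [h4, h3, mul_zero]
          have h7 : ‖(E w)⁻¹‖ < ε := by
            rw [norm_inv]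
            have := (inv_lt_inv₀ (lt_trans hε1 h1) hε1).2 h1
            simpa using this
          have h8 := hyu w (ball_subset_ball (min_le_right _ _) h2.1) _ h7 hz
          rw [← h8, mul_inv_cancel₀ hE0]
      · refine hmild ⟨?_, fun j hj => ?_⟩
        · exact eventually_nhdsWithin_of_eventually_nhds
            ((hAan m le_rfl).continuousAt.eventually_ne hAm)
        · have h1 : ContinuousAt (fun w => A j w / A m w * (w - w1) ^ (m - j)) w1 := by
            refine ContinuousAt.mul ?_ ?_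
            · exact (hAan j hj.le).continuousAt.div (hAan m le_rfl).continuousAt hAm
            · fun_prop
          have h2 := h1.tendsto
          have h3 : m - j ≠ 0 := by omega
          simp only [sub_self, zero_pow h3, mul_zero] at h2
          exact h2.mono_left nhdsWithin_le_nhds
    · exact hmild hg

end Pool.Agent.Q162.Sch
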