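import Pool.Agent.Q162.Sch.Green5

/-!
Images of concentric discs in domains with an algebraic boundary.
-/

set_option autoImplicit false

open MeasureTheory Metric Set Filter Topology ComplexConjugate
open Pool.Agent.Results.MP_83fd13_an.BranchSingularities

namespace Pool.Agent.Q162.Sch

/-- reflection of the mild condition -/
theorem mild_refl {φ : ℂ → ℂ} {r : ℝ} (hφ : DifferentiableOn ℂ φ (ball 0 r))
    (hinj : InjOn φ (ball 0 r)) {m : ℕ} {a : ℕ → ℂ → ℂ} {w1 v1 : ℂ} (hv1 : v1 = 1 / conj w1)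
    (hcw1 : conj w1 ≠ 0) (hv1r : v1 ∈ ball (0 : ℂ) r) (hm : MildAt m a (φ v1)) :
    (∀ᶠ w in 𝓝[≠] w1, conj (a m (φ (1 / conj w))) ≠ 0) ∧
      ∀ j < m, Tendsto (fun w => conj (a j (φ (1 / conj w))) / conj (a m (φ (1 / conj w))) *
        (w - w1) ^ (m - j)) (𝓝[≠] w1) (𝓝 0) := by
  obtain ⟨hne, ht⟩ := hm
  set T : ℂ → ℂ := fun w => φ (1 / conj w) with hT
  have hTc : ContinuousAt T w1 := by
    have e1 : ContinuousAt (fun w : ℂ => 1 / conj w) w1 :=
      continuousAt_const.div Complex.continuous_conj.continuousAt hcw1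
    have e2 : ContinuousAt φ (1 / conj w1) := by
      rw [← hv1]
      exact (hφ.differentiableAt (isOpen_ball.mem_nhds hv1r)).continuousAt
    exact ContinuousAt.comp (g := φ) (f := fun w : ℂ => 1 / conj w) e2 e1
  have hTne : ∀ᶠ w in 𝓝[≠] w1, T w ≠ φ v1 := by
    have e1 : ContinuousAt (fun w : ℂ => 1 / conj w) w1 :=
      continuousAt_const.div Complex.continuous_conj.continuousAt hcw1
    have e2 : ∀ᶠ w in 𝓝 w1, 1 / conj w ∈ ball (0 : ℂ) r :=
      e1.eventually (isOpen_ball.mem_nhds (by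
        show 1 / conj w1 ∈ ball (0 : ℂ) r
        rw [← hv1]; exact hv1r))
    filter_upwards [eventually_nhdsWithin_of_eventually_nhds e2, self_mem_nhdsWithin] with w h1 h2 h3
    apply h2
    have h4 : 1 / conj w = v1 := hinj h1 hv1r h3
    rw [hv1] at h4
    have h5 : conj w = conj w1 := by
      have := congrArg (fun x => x⁻¹) h4
      simpa using this
    exact (starRingEnd ℂ).injective h5
  have hTw1 : T w1 = φ v1 := by rw [hT, hv1]
  have hTt : Tendsto T (𝓝[≠] w1) (𝓝[≠] (φ v1)) :=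
    tendsto_nhdsWithin_iff.2 ⟨by
      have h1 := hTc.tendsto
      rw [hTw1] at h1
      exact h1.mono_left nhdsWithin_le_nhds, hTne⟩
  have hD : ∃ D : ℂ, D ≠ 0 ∧ HasDerivAt (fun w => conj (T w)) D w1 := by
    have hφd : HasDerivAt φ (deriv φ v1) v1 :=
      (hφ.differentiableAt (isOpen_ball.mem_nhds hv1r)).hasDerivAt
    have hφ0 : deriv φ v1 ≠ 0 := Pool.Agent.Y769.SC.nz φ r hφ hinj v1 hv1r
    have e1 : HasDerivAt (fun u : ℂ => u⁻¹) (-((conj w1) ^ 2)⁻¹) (conj w1) := hasDerivAt_inv hcw1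
    have e2 : (conj w1)⁻¹ = v1 := by rw [hv1, one_div]
    have e3 : HasDerivAt (fun u : ℂ => φ u⁻¹) (deriv φ v1 * -((conj w1) ^ 2)⁻¹) (conj w1) := by
      rw [← e2] at hφd ⊢
      exact HasDerivAt.comp (conj w1) (h₂ := φ) (h := fun u : ℂ => u⁻¹) hφd e1
    have e4 := e3.conj_conj
    rw [Complex.conj_conj] at e4
    refine ⟨conj (deriv φ v1 * -((conj w1) ^ 2)⁻¹), ?_, ?_⟩
    · refine (map_ne_zero _).2 (mul_ne_zero hφ0 ?_)
      exact neg_ne_zero.2 (inv_ne_zero (pow_ne_zero _ hcw1))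
    · refine e4.congr_of_eventuallyEq (Eventually.of_forall fun w => ?_)
      simp only [hT, Function.comp_apply, one_div]
  obtain ⟨D, hD0, hDd⟩ := hD
  have hslope : Tendsto (fun w => (w - w1) / conj (T w - φ v1)) (𝓝[≠] w1) (𝓝 D⁻¹) := by
    have h1 := (hasDerivAt_iff_tendsto_slope.1 hDd).inv₀ hD0
    refine h1.congr fun w => ?_
    rw [slope_def_field, inv_div, map_sub, hTw1]
  refine ⟨?_, fun j hj => ?_⟩
  · have := hTt.eventually hne
    filter_upwards [this] with w hw
    exact (map_ne_zero _).2 hw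
  · have h1 : Tendsto (fun w => conj (a j (T w) / a m (T w) * (T w - φ v1) ^ (m - j)))
        (𝓝[≠] w1) (𝓝 (conj 0)) :=
      (Complex.continuous_conj.tendsto 0).comp ((ht j hj).comp hTt)
    have h2 := h1.mul (hslope.pow (m - j))
    rw [map_zero, zero_mul] at h2
    refine h2.congr' ?_
    filter_upwards [hTne] with w hw
    have h3 : conj (T w - φ v1) ≠ 0 := (map_ne_zero _).2 (sub_ne_zero.2 hw)
    simp only [hT] at h3 ⊢
    rw [map_mul, map_div₀, map_pow, div_pow]
    field_simp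

/-- boundary points of the unit disc go to boundary points -/
theorem frontier_mem' {f F : ℂ → ℂ} {R : ℝ} (hf : DifferentiableOn ℂ f (ball 0 1))
    (hinj : InjOn f (ball 0 1)) (hR : 1 < R) (hF : DifferentiableOn ℂ F (ball 0 R))
    (hFf : ∀ v ∈ ball (0 : ℂ) 1, F v = f v) {ζ : ℂ} (hζ : ‖ζ‖ = 1) :
    F ζ ∈ frontier (f '' ball 0 1) := by
  have hζR : ζ ∈ ball (0 : ℂ) R := mem_ball_zero_iff.2 (by rw [hζ]; exact hR)
  have hFc : ContinuousAt F ζ :=
    (hF.differentiableAt (isOpen_ball.mem_nhds hζR)).continuousAt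
  have hζcl : ζ ∈ closure (ball (0 : ℂ) 1) := by
    rw [closure_ball (0 : ℂ) one_ne_zero, mem_closedBall_zero_iff]; exact hζ.le
  have hcl : F ζ ∈ closure (f '' ball 0 1) := by
    have h1 : F '' ball 0 1 = f '' ball 0 1 := image_congr hFf
    rw [← h1]
    exact mem_closure_image hFc hζcl
  refine ⟨hcl, fun hin => ?_⟩
  rw [(image_open hf hinj).interior_eq] at hin
  obtain ⟨v, hv, hvζ⟩ := hin
  have hv1 : ‖v‖ < 1 := mem_ball_zero_iff.1 hv
  set s : ℝ := (1 - ‖v‖) / 2 with hs
  have hs0 : 0 < s := by rw [hs]; linarith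
  have hsub : ball v s ⊆ ball (0 : ℂ) 1 := by
    intro x hx
    rw [mem_ball, dist_eq_norm] at hx
    rw [mem_ball_zero_iff]
    have := norm_sub_norm_le x v
    linarith
  -- f maps the small ball onto a neighbourhood of F ζ
  have hopen : IsOpen (f '' ball v s) := by
    have h1 : AnalyticOnNhd ℂ f (ball v s) := (hf.mono hsub).analyticOnNhd isOpen_ball
    rcases h1.is_constant_or_isOpen (convex_ball v s).isPreconnected with ⟨w, hw⟩ | h
    · exfalso
      have h2 : v ∈ ball v s := mem_ball_self hs0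
      have h3 : v + (s / 2 : ℝ) ∈ ball v s := by
        rw [mem_ball, dist_eq_norm, add_sub_cancel_left, Complex.norm_real,
          Real.norm_of_nonneg (by linarith)]
        linarith
      have h4 := hinj (hsub h2) (hsub h3) ((hw _ h2).trans (hw _ h3).symm)
      have h5 : ((s / 2 : ℝ) : ℂ) = 0 := by linear_combination -h4
      have h6 : (s / 2 : ℝ) = 0 := by exact_mod_cast h5
      linarith
    · exact h _ Subset.rfl isOpen_ball
  have hmem : F ζ ∈ f '' ball v s := ⟨v, mem_ball_self hs0, hvζ⟩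
  have hev : ∀ᶠ x in 𝓝 ζ, F x ∈ f '' ball v s := hFc.eventually (hopen.mem_nhds hmem)
  have hfar : ∀ᶠ x in 𝓝 ζ, 1 - s < ‖x‖ := by
    have h1 : ContinuousAt (fun x : ℂ => ‖x‖) ζ := continuous_norm.continuousAt
    exact h1.eventually (lt_mem_nhds (by show 1 - s < ‖ζ‖; rw [hζ]; linarith))
  obtain ⟨x, hx1, hx2, hx3⟩ := (mem_closure_iff_frequently.1 hζcl).and_eventually
    (hev.and hfar) |>.exists
  obtain ⟨y, hy, hyx⟩ := hx2
  rw [hFf x hx1] at hyx
  have h1 := hinj (hsub hy) hx1 hyx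
  rw [h1, mem_ball, dist_eq_norm] at hy
  have := norm_sub_norm_le x v
  linarith

/-- level domains of a domain with an algebraic boundary: at most the image of the centre is
exceptional -/
theorem trans_level {f F : ℂ → ℂ} {R t lam : ℝ} (hf : DifferentiableOn ℂ f (ball 0 1))
    (hinj : InjOn f (ball 0 1)) (hR : 1 < R) (hF : DifferentiableOn ℂ F (ball 0 R))
    (hFf : ∀ v ∈ ball (0 : ℂ) 1, F v = f v) (ht : 0 < t) (ht1 : t < 1) (hlam : 0 < lam)
    (hS : Solvable (f '' ball 0 t) lam)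
    (hnd : ¬ ∃ (p : ℂ) (r0 : ℝ), 0 < r0 ∧ f '' ball 0 t = ball p r0)
    {m : ℕ} (hm : 1 ≤ m) {a : ℕ → ℂ → ℂ} {U : Set ℂ} (hU : IsOpen U)
    (hsub : closure (f '' ball 0 1) ⊆ U) (ha : ∀ j ≤ m, DifferentiableOn ℂ (a j) U)
    (hrel : ∀ z ∈ frontier (f '' ball 0 1), ∑ j ∈ Finset.range (m + 1), a j z * conj z ^ j = 0)
    (hgood : ∀ v ∈ ball (0 : ℂ) 1, v ≠ 0 → a (m - 1) (f v) ≠ 0 ∨ MildAt m a (f v)) : False := by
  have htc : (t : ℂ) ≠ 0 := by exact_mod_cast ht.ne'
  have hmt : ∀ w : ℂ, ‖(t : ℂ) * w‖ = t * ‖w‖ := fun w => by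
    rw [norm_mul, Complex.norm_real, Real.norm_of_nonneg ht.le]
  have hclU : F '' closedBall 0 1 ⊆ U := by
    refine Subset.trans ?_ hsub
    rintro z ⟨v, hv, rfl⟩
    have hvcl : v ∈ closure (ball (0 : ℂ) 1) := by
      rw [closure_ball (0 : ℂ) one_ne_zero]; exact hv
    have hvR : v ∈ ball (0 : ℂ) R := closedBall_subset_ball hR hv
    have h1 : F '' ball 0 1 = f '' ball 0 1 := image_congr hFf
    rw [← h1]
    exact mem_closure_image
      (hF.differentiableAt (isOpen_ball.mem_nhds hvR)).continuousAt hvcl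
  have hVo : IsOpen (ball (0 : ℂ) R ∩ F ⁻¹' U) :=
    hF.continuousOn.isOpen_inter_preimage isOpen_ball hU
  obtain ⟨R0, hR0, hR0s⟩ := exists_ball hVo
    (fun w hw => ⟨closedBall_subset_ball hR hw, hclU ⟨w, hw, rfl⟩⟩)
  have hR00 : 0 < R0 := by linarith
  set φ : ℂ → ℂ := fun w => F (t * w) with hφdef
  have hr : 1 < 1 / t := by rw [one_lt_div ht]; exact ht1
  have hr2 : 1 / t < R / t := div_lt_div_of_pos_right hR ht
  have hφ : DifferentiableOn ℂ φ (ball 0 (R / t)) := by
    refine hF.comp ((differentiable_id.const_mul (t : ℂ)).differentiableOn) ?_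
    intro w hw
    rw [mem_ball_zero_iff] at hw ⊢
    show ‖(t : ℂ) * w‖ < R
    rw [hmt]
    rw [lt_div_iff₀ ht] at hw
    linarith
  have hmem1 : ∀ x ∈ ball (0 : ℂ) (1 / t), (t : ℂ) * x ∈ ball (0 : ℂ) 1 := by
    intro x hx
    rw [mem_ball_zero_iff] at hx ⊢
    rw [hmt]
    rw [lt_div_iff₀ ht] at hx
    linarith
  have hφi : InjOn φ (ball 0 (1 / t)) := by
    intro w hw w' hw' h
    have h' : F (t * w) = F (t * w') := h
    rw [hFf _ (hmem1 w hw), hFf _ (hmem1 w' hw')] at h'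
    exact mul_left_cancel₀ htc (hinj (hmem1 w hw) (hmem1 w' hw') h')
  have him : φ '' ball 0 1 = f '' ball 0 t := by
    ext z
    constructor
    · rintro ⟨w, hw, rfl⟩
      rw [mem_ball_zero_iff] at hw
      refine ⟨t * w, ?_, ?_⟩
      · rw [mem_ball_zero_iff, hmt]
        nlinarith
      · exact (hFf _ (mem_ball_zero_iff.2 (by rw [hmt]; nlinarith))).symm
    · rintro ⟨v, hv, rfl⟩
      rw [mem_ball_zero_iff] at hv
      refine ⟨v / t, ?_, ?_⟩
      · rw [mem_ball_zero_iff, norm_div, Complex.norm_real, Real.norm_of_nonneg ht.le,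
          div_lt_one ht]
        exact hv
      · simp only [hφdef]
        rw [mul_div_cancel₀ _ htc]
        exact hFf _ (mem_ball_zero_iff.2 (by linarith))
  have hκ : 1 / (t * R0) < 1 / t := by
    rw [div_lt_div_iff₀ (by positivity) ht]
    nlinarith
  have hbig : ∀ w : ℂ, 1 / (t * R0) < ‖w‖ → ‖1 / conj ((t : ℂ) * w)‖ < R0 ∧ (t : ℂ) * w ≠ 0 := by
    intro w hw
    have hw0 : 0 < ‖w‖ := lt_trans (by positivity) hw
    have h1 : 0 < t * ‖w‖ := by positivity
    refine ⟨?_, ?_⟩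
    · rw [norm_div, norm_one, RCLike.norm_conj, hmt, div_lt_iff₀ h1]
      rw [div_lt_iff₀ (by positivity)] at hw
      linarith
    · rw [← norm_pos_iff, hmt]; exact h1
  have hdiff : ∀ j ≤ m, ∀ w : ℂ, 1 / (t * R0) < ‖w‖ →
      DifferentiableAt ℂ (fun w : ℂ => conj (a j (F (1 / conj ((t : ℂ) * w))))) w := by
    intro j hj w hw
    obtain ⟨hn, hne⟩ := hbig w hw
    have hcw : (t : ℂ) * conj w ≠ 0 := by
      have := (map_ne_zero (starRingEnd ℂ)).2 hne
      rwa [map_mul, Complex.conj_ofReal] at this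
    have hmem := hR0s (mem_ball_zero_iff.2 hn)
    have hcc : conj ((t : ℂ) * w) = t * conj w := by rw [map_mul, Complex.conj_ofReal]
    have h1 : DifferentiableAt ℂ (fun u : ℂ => a j (F (1 / (t * u)))) (conj w) := by
      rw [hcc] at hmem
      have e1 : DifferentiableAt ℂ (a j) (F (1 / (t * conj w))) :=
        (ha j hj).differentiableAt (hU.mem_nhds hmem.2)
      have e2 : DifferentiableAt ℂ F (1 / (t * conj w)) :=
        hF.differentiableAt (isOpen_ball.mem_nhds hmem.1)
      have e3 : DifferentiableAt ℂ (fun u : ℂ => 1 / ((t : ℂ) * u)) (conj w) :=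
        (differentiableAt_const _).div (differentiableAt_id.const_mul _) hcw
      have e4 : DifferentiableAt ℂ (fun u : ℂ => F (1 / (t * u))) (conj w) :=
        DifferentiableAt.comp (conj w) (g := F) (f := fun u : ℂ => 1 / ((t : ℂ) * u)) e2 e3
      exact DifferentiableAt.comp (conj w) (g := a j) (f := fun u : ℂ => F (1 / (t * u))) e1 e4
    have h2 := differentiableAt_conj_conj_iff.2 h1
    refine h2.congr_of_eventuallyEq (Eventually.of_forall fun x => ?_)
    simp only [Function.comp_apply]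
    rw [map_mul (starRingEnd ℂ) (t : ℂ) x, Complex.conj_ofReal]
  refine core' (φ := φ) (r := 1 / t) (r1 := 1 / t) (r2 := R / t) hr hr2.le hr hr2 hφ hφi hlam
    (by rw [him]; exact hS) (by rw [him]; exact hnd) hm
    (A := fun j w => conj (a j (F (1 / conj ((t : ℂ) * w))))) (κ := 1 / (t * R0)) (by positivity) hκ
    ?_ ?_ ?_
  · intro j hj w hw
    exact (hdiff j hj w hw).differentiableWithinAt
  · intro w hw
    have hn : ‖(t : ℂ) * w‖ = 1 := by
      rw [hmt, hw]; field_simp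
    have hne : (t : ℂ) * w ≠ 0 := by rw [← norm_pos_iff, hn]; exact one_pos
    have hcw : conj ((t : ℂ) * w) ≠ 0 := (map_ne_zero _).2 hne
    have hinv : 1 / conj ((t : ℂ) * w) = t * w := by
      rw [div_eq_iff hcw, Complex.mul_conj, Complex.normSq_eq_norm_sq, hn]
      simp
    have h1 := hrel (F (t * w)) (frontier_mem' hf hinj hR hF hFf hn)
    have h2 := congrArg conj h1
    rw [map_sum, map_zero] at h2
    rw [← h2]
    refine Finset.sum_congr rfl fun j _ => ?_
    simp only [hφdef]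
    rw [hinv, map_mul, map_pow, Complex.conj_conj]
  · intro w1 hw1
    have hw1p : 0 < ‖w1‖ := lt_trans (by positivity) hw1
    have hw10 : w1 ≠ 0 := norm_pos_iff.1 hw1p
    have hcw1 : conj w1 ≠ 0 := (map_ne_zero _).2 hw10
    have htw : 1 < t * ‖w1‖ := by
      rw [div_lt_iff₀ ht] at hw1
      linarith
    set u1 : ℂ := 1 / conj w1 with hu1
    have hu1n : ‖u1‖ < t := by
      rw [hu1, norm_div, norm_one, RCLike.norm_conj, div_lt_iff₀ hw1p]
      exact htw
    have huv : ∀ w : ℂ, (1 / conj w) / (t : ℂ) = 1 / conj ((t : ℂ) * w) := by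
      intro w
      rw [map_mul, Complex.conj_ofReal, div_div, mul_comm (conj w)]
    set φ2 : ℂ → ℂ := fun u => f (u / t) with hφ2
    have hm2 : ∀ u ∈ ball (0 : ℂ) t, u / (t : ℂ) ∈ ball (0 : ℂ) 1 := by
      intro u hu
      rw [mem_ball_zero_iff] at hu ⊢
      rw [norm_div, Complex.norm_real, Real.norm_of_nonneg ht.le, div_lt_one ht]
      exact hu
    have hφ2d : DifferentiableOn ℂ φ2 (ball 0 t) :=
      hf.comp ((differentiable_id.div_const (t : ℂ)).differentiableOn) hm2
    have hφ2i : InjOn φ2 (ball 0 t) := by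
      intro x hx y hy h
      have h1 := hinj (hm2 x hx) (hm2 y hy) h
      exact (div_left_inj' htc).1 h1
    have hu1t : u1 ∈ ball (0 : ℂ) t := mem_ball_zero_iff.2 hu1n
    have hu10 : u1 / (t : ℂ) ≠ 0 := div_ne_zero (div_ne_zero one_ne_zero hcw1) htc
    have hnear : ∀ᶠ w in 𝓝 w1, F (1 / conj ((t : ℂ) * w)) = φ2 (1 / conj w) := by
      have e1 : ContinuousAt (fun w : ℂ => 1 / conj w) w1 :=
        continuousAt_const.div Complex.continuous_conj.continuousAt hcw1
      have e2 : ∀ᶠ w in 𝓝 w1, 1 / conj w ∈ ball (0 : ℂ) t :=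
        e1.eventually (isOpen_ball.mem_nhds hu1t)
      filter_upwards [e2] with w hw
      simp only [hφ2]
      rw [huv w, hFf]
      rw [← huv w]
      exact hm2 _ hw
    rcases hgood (u1 / t) (hm2 u1 hu1t) hu10 with hg | hg
    · left
      have h1 := hnear.self_of_nhds
      rw [h1]
      exact (map_ne_zero _).2 hg
    · right
      obtain ⟨hA, hB⟩ := mild_refl hφ2d hφ2i (m := m) (a := a) (w1 := w1) (v1 := u1) hu1 hcw1
        hu1t hg
      have hnear' := eventually_nhdsWithin_of_eventually_nhds (s := {w1}ᶜ) hnear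
      refine ⟨?_, fun j hj => ?_⟩
      · filter_upwards [hA, hnear'] with w h1 h2
        rw [h2]; exact h1
      · refine (hB j hj).congr' ?_
        filter_upwards [hnear'] with w h2
        rw [h2]

end Pool.Agent.Q162.Sch
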