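import Pool.Agent.Q162.Sch.Green6

/-!
The local step of the core argument, and disc automorphisms.
-/

set_option autoImplicit false

open MeasureTheory Metric Set Filter Topology ComplexConjugate
open Pool.Agent.Results.MP_83fd13_an.BranchSingularities

namespace Pool.Agent.Q162.Sch

theorem step {φ E : ℂ → ℂ} {r R lam : ℝ} {w1 : ℂ} (hlam : 0 < lam)
    (hBB : BranchesBlowUp φ r lam) (hNF : NoFiniteIsolatedSingularity φ r) (hR : 1 < R)
    (hw1 : ‖w1‖ = R) (hbr : ∀ z : ℂ, 1 < ‖z‖ → ‖z‖ < R → Branch φ r z E)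
    (hE : DifferentiableOn ℂ E (ball 0 R)) {m : ℕ} (hm : 1 ≤ m) {A : ℕ → ℂ → ℂ}
    (hAan : ∀ j ≤ m, AnalyticAt ℂ (A j) w1)
    (hrelE : ∀ᶠ w in 𝓝 w1, w ∈ ball (0 : ℂ) R →
      ∑ j ∈ Finset.range (m + 1), A j w * E w ^ j = 0)
    (hgood : A (m - 1) w1 ≠ 0 ∨ ((∀ᶠ w in 𝓝[≠] w1, A m w ≠ 0) ∧
      ∀ j < m, Tendsto (fun w => A j w / A m w * (w - w1) ^ (m - j)) (𝓝[≠] w1) (𝓝 0))) :
    LocExt E R w1 := by
  have hw1R : w1 ∉ ball (0 : ℂ) R := by rw [mem_ball_zero_iff, hw1]; exact lt_irrefl _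
  have hmild : ((∀ᶠ w in 𝓝[≠] w1, A m w ≠ 0) ∧
      ∀ j < m, Tendsto (fun w => A j w / A m w * (w - w1) ^ (m - j)) (𝓝[≠] w1) (𝓝 0)) →
      LocExt E R w1 := by
    rintro ⟨hne, ht⟩
    refine of_small hlam hBB hR hw1 hbr hE fun η hη => ?_
    refine mild_small hm hw1R hne ht ?_ hη
    refine eventually_nhdsWithin_of_eventually_nhds ?_
    exact hrelE
  rcases hgood with hg | hg
  · by_cases hAm : A m w1 = 0
    · obtain ⟨ε, y, hε, hy, hyu⟩ := reversed_root hm hAan hAm hg
      by_cases hb : ∃ (M δ : ℝ), 0 < δ ∧ ∀ w ∈ ball w1 δ ∩ ball 0 R, ‖E w‖ ≤ M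
      · obtain ⟨M, δ, hδ, hM⟩ := hb
        refine of_small hlam hBB hR hw1 hbr hE fun η hη => ?_
        refine ⟨min δ (η / (|M| + 1)), lt_min hδ (by positivity), fun w hw hwd => ?_⟩
        have h1 : ‖E w‖ ≤ |M| + 1 := by
          have := hM w ⟨by rw [mem_ball, dist_eq_norm]; exact lt_of_lt_of_le hwd (min_le_left _ _),
            hw⟩
          have h2 := le_abs_self M
          linarith
        have h2 : ‖w - w1‖ ≤ η / (|M| + 1) := (lt_of_lt_of_le hwd (min_le_right _ _)).le
        calc ‖w - w1‖ * ‖E w‖ ≤ η / (|M| + 1) * (|M| + 1) := by gcongr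
          _ = η := by field_simp
      · push Not at hb
        obtain ⟨δ, hδ, hδU⟩ := Metric.eventually_nhds_iff_ball.1 hrelE
        obtain ⟨z0, hz0, hEz0⟩ := hb (1 / ε) (min δ ε) (lt_min hδ hε)
        have hz0ε : z0 ∈ ball w1 ε := ball_subset_ball (min_le_right _ _) hz0.1
        refine of_recip hNF hR hw1 hbr hE hε hy (z0 := z0) ⟨hz0ε, hz0.2⟩ ?_
        have hcont : ContinuousAt (fun w => ‖E w‖) z0 :=
          ((hE.differentiableAt (isOpen_ball.mem_nhds hz0.2)).continuousAt).norm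
        have hbig : ∀ᶠ w in 𝓝 z0, 1 / ε < ‖E w‖ := hcont.eventually (lt_mem_nhds hEz0)
        filter_upwards [hbig, (isOpen_ball.inter isOpen_ball).mem_nhds hz0] with w h1 h2
        have hε1 : 0 < 1 / ε := by positivity
        have hE0 : E w ≠ 0 := by
          intro h0
          rw [h0, norm_zero] at h1
          linarith
        have hz : ∑ j ∈ Finset.range (m + 1), A (m - j) w * ((E w)⁻¹) ^ j = 0 := by
          have h3 := hδU w (ball_subset_ball (min_le_left _ _) h2.1) h2.2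
          rw [← Finset.sum_range_reflect] at h3
          have h4 : ∑ j ∈ Finset.range (m + 1), A (m - j) w * ((E w)⁻¹) ^ j =
              ((E w)⁻¹) ^ m * ∑ j ∈ Finset.range (m + 1),
                A (m + 1 - 1 - j) w * E w ^ (m + 1 - 1 - j) := by
            rw [Finset.mul_sum]
            refine Finset.sum_congr rfl fun j hj => ?_
            have hj' : j ≤ m := by rw [Finset.mem_range] at hj; omega
            rw [Nat.add_sub_cancel]
            have h5 : ((E w)⁻¹) ^ m = ((E w)⁻¹) ^ j * ((E w)⁻¹) ^ (m - j) := by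
              rw [← pow_add]; congr 1; omega
            rw [h5]
            have h6 : ((E w)⁻¹) ^ (m - j) * E w ^ (m - j) = 1 := by
              rw [← mul_pow, inv_mul_cancel₀ hE0, one_pow]
            linear_combination (-(A (m - j) w * ((E w)⁻¹) ^ j)) * h6
          rw [h4, h3, mul_zero]
        have h7 : ‖(E w)⁻¹‖ < ε := by
          rw [norm_inv]
          have := (inv_lt_inv₀ (lt_trans hε1 h1) hε1).2 h1
          simpa using this
        have h8 := hyu w (ball_subset_ball (min_le_right _ _) h2.1) _ h7 hz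
        rw [← h8, mul_inv_cancel₀ hE0]
    · refine hmild ⟨?_, fun j hj => ?_⟩
      · exact eventually_nhdsWithin_of_eventually_nhds
          ((hAan m le_rfl).continuousAt.eventually_ne hAm)
      · have h1 : ContinuousAt (fun w => A j w / A m w * (w - w1) ^ (m - j)) w1 := by
          refine ContinuousAt.mul ?_ ?_
          · exact (hAan j hj.le).continuousAt.div (hAan m le_rfl).continuousAt hAm
          · fun_prop
        have h2 := h1.tendsto
        have h3 : m - j ≠ 0 := by omega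
        simp only [sub_self, zero_pow h3, mul_zero] at h2
        exact h2.mono_left nhdsWithin_le_nhds
  · exact hmild hg

/-- disc automorphisms. -/
theorem mobius' {v : ℂ} (hv : ‖v‖ < 1) {r : ℝ} (hr : 1 < r) :
    ∃ (r' : ℝ) (M : ℂ → ℂ), 1 < r' ∧ DifferentiableOn ℂ M (ball 0 r') ∧
      MapsTo M (ball 0 r') (ball 0 r) ∧ InjOn M (ball 0 r') ∧ M '' ball 0 1 = ball 0 1 ∧
      ∀ w, M w = (w + v) / (1 + conj v * w) := by
  have hid : ∀ w x : ℂ, ‖1 + conj x * w‖ ^ 2 - ‖w + x‖ ^ 2 = (1 - ‖w‖ ^ 2) * (1 - ‖x‖ ^ 2) := by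
    intro w x
    simp only [← Complex.normSq_eq_norm_sq, Complex.normSq_apply, Complex.add_re, Complex.add_im,
      Complex.mul_re, Complex.mul_im, Complex.conj_re, Complex.conj_im, Complex.one_re,
      Complex.one_im]
    ring
  have hden : ∀ w x : ℂ, ‖w‖ ≤ 1 → ‖x‖ < 1 → 1 + conj x * w ≠ 0 := by
    intro w x hw hx h0
    have h1 : ‖conj x * w‖ < 1 := by
      rw [norm_mul, RCLike.norm_conj]
      calc ‖x‖ * ‖w‖ ≤ ‖x‖ * 1 := by gcongr
        _ < 1 := by linarith
    have h2 : conj x * w = -1 := by linear_combination h0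
    rw [h2] at h1
    simp at h1
  set M : ℂ → ℂ := fun w => (w + v) / (1 + conj v * w) with hM
  have hvv : 1 - ‖v‖ ^ 2 ≠ 0 := by
    have : ‖v‖ ^ 2 < 1 := by
      have := norm_nonneg v
      nlinarith
    linarith
  have hvv' : (0 : ℝ) < 1 - ‖v‖ ^ 2 := by
    have := norm_nonneg v
    nlinarith
  have hO : IsOpen {w : ℂ | 1 + conj v * w ≠ 0} :=
    isOpen_ne_fun (by fun_prop) continuous_const
  have hMd : DifferentiableOn ℂ M {w : ℂ | 1 + conj v * w ≠ 0} := by
    intro w hw
    refine DifferentiableAt.differentiableWithinAt ?_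
    exact DifferentiableAt.div (by fun_prop) (by fun_prop) hw
  have hle : ∀ w : ℂ, ‖w‖ ≤ 1 → ‖M w‖ ≤ 1 := by
    intro w hw
    have h0 := hden w v hw hv
    simp only [hM]
    rw [norm_div, div_le_one (norm_pos_iff.2 h0)]
    have h1 := hid w v
    have h2 : 0 ≤ (1 - ‖w‖ ^ 2) * (1 - ‖v‖ ^ 2) := by
      refine mul_nonneg ?_ hvv'.le
      have := norm_nonneg w
      nlinarith
    exact (pow_le_pow_iff_left₀ (norm_nonneg _) (norm_nonneg _) two_ne_zero).1 (by linarith)
  have hlt : ∀ w x : ℂ, ‖w‖ < 1 → ‖x‖ < 1 → ‖(w + x) / (1 + conj x * w)‖ < 1 := by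
    intro w x hw hx
    have h0 := hden w x hw.le hx
    rw [norm_div, div_lt_one (norm_pos_iff.2 h0)]
    have h1 := hid w x
    have h2 : 0 < (1 - ‖w‖ ^ 2) * (1 - ‖x‖ ^ 2) := by
      have := norm_nonneg w
      have := norm_nonneg x
      refine mul_pos ?_ ?_ <;> nlinarith
    exact lt_of_pow_lt_pow_left₀ 2 (norm_nonneg _) (by linarith)
  have hVo : IsOpen ({w : ℂ | 1 + conj v * w ≠ 0} ∩ M ⁻¹' ball 0 r) :=
    hMd.continuousOn.isOpen_inter_preimage hO isOpen_ball
  obtain ⟨r', hr', hs⟩ := exists_ball hVo (fun w hw => by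
    rw [mem_closedBall_zero_iff] at hw
    exact ⟨hden w v hw hv, mem_ball_zero_iff.2 (lt_of_le_of_lt (hle w hw) hr)⟩)
  refine ⟨r', M, hr', hMd.mono fun w hw => (hs hw).1, fun w hw => (hs hw).2, ?_, ?_, fun w => rfl⟩
  · intro w hw w' hw' h
    have h1 : 1 + conj v * w ≠ 0 := (hs hw).1
    have h2 : 1 + conj v * w' ≠ 0 := (hs hw').1
    simp only [hM] at h
    rw [div_eq_div_iff h1 h2] at h
    have h3 : (w - w') * (1 - v * conj v) = 0 := by linear_combination h
    rcases mul_eq_zero.1 h3 with h4 | h4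
    · exact sub_eq_zero.1 h4
    · exfalso
      rw [Complex.mul_conj, Complex.normSq_eq_norm_sq] at h4
      apply hvv
      exact_mod_cast h4
  · ext y
    constructor
    · rintro ⟨w, hw, rfl⟩
      rw [mem_ball_zero_iff] at hw ⊢
      exact hlt w v hw hv
    · intro hy
      rw [mem_ball_zero_iff] at hy
      have hy1 := hlt y (-v) hy (by rwa [norm_neg])
      have hy0 := hden y (-v) hy.le (by rwa [norm_neg])
      refine ⟨(y + -v) / (1 + conj (-v) * y), mem_ball_zero_iff.2 hy1, ?_⟩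
      have hd := hden _ v hy1.le hv
      simp only [hM]
      rw [div_eq_iff hd]
      rw [map_neg] at hy0 ⊢
      have h5 : (y + -v) / (1 + -conj v * y) * (1 + -conj v * y) = y + -v :=
        div_mul_cancel₀ _ hy0
      set q : ℂ := (y + -v) / (1 + -conj v * y) with hq
      linear_combination h5

end Pool.Agent.Q162.Sch
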