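import Pool.Agent.Q162.Sch.Green7

/-!
Geometry of the discs `|y + x| < k |1 + conj x y|`, and the general reflection of the mild condition.
-/

set_option autoImplicit false

open MeasureTheory Metric Set Filter Topology ComplexConjugate
open Pool.Agent.Results.MP_83fd13_an.BranchSingularities

namespace Pool.Agent.Q162.Sch

/-- negative exactly in the disc `|y + x| < k |1 + conj x y|` -/
noncomputable def qf (x : ℂ) (k : ℝ) (y : ℂ) : ℝ := ‖y + x‖ ^ 2 - k ^ 2 * ‖1 + conj x * y‖ ^ 2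

theorem qf_cont (x : ℂ) (k : ℝ) : Continuous (qf x k) := by
  unfold qf
  fun_prop

theorem qf_zero (x : ℂ) (k : ℝ) : qf x k 0 = ‖x‖ ^ 2 - k ^ 2 := by
  simp [qf]

theorem qf_expand (x : ℂ) (k : ℝ) (y e : ℂ) :
    qf x k y = qf x k e +
      2 * ((y - e) * conj (((1 - k ^ 2 * ‖x‖ ^ 2 : ℝ) : ℂ) * e + ((1 - k ^ 2 : ℝ) : ℂ) * x)).re +
      (1 - k ^ 2 * ‖x‖ ^ 2) * ‖y - e‖ ^ 2 := by
  unfold qf
  simp only [← Complex.normSq_eq_norm_sq, Complex.normSq_apply, Complex.add_re, Complex.add_im,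
    Complex.sub_re, Complex.sub_im, Complex.mul_re, Complex.mul_im, Complex.conj_re,
    Complex.conj_im, Complex.one_re, Complex.one_im, Complex.ofReal_re, Complex.ofReal_im,
    map_add, map_mul, Complex.conj_ofReal]
  ring

theorem qf_convex {x : ℂ} {k : ℝ} (h : k ^ 2 * ‖x‖ ^ 2 < 1) : Convex ℝ {y | qf x k y < 0} := by
  set α : ℝ := 1 - k ^ 2 * ‖x‖ ^ 2 with hα
  have hα0 : 0 < α := by rw [hα]; linarith
  have hαc : (α : ℂ) ≠ 0 := by exact_mod_cast hα0.ne'
  set c : ℂ := -(((1 - k ^ 2 : ℝ) : ℂ) * x / α) with hc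
  have hgrad : ((α : ℝ) : ℂ) * c + ((1 - k ^ 2 : ℝ) : ℂ) * x = 0 := by
    rw [hc]; field_simp; ring
  have he : {y | qf x k y < 0} = ball c (√(-(qf x k c) / α)) := by
    ext y
    rw [mem_setOf_eq, mem_ball, dist_eq_norm, Real.lt_sqrt (norm_nonneg _),
      qf_expand x k y c, ← hα, hgrad, lt_div_iff₀ hα0]
    simp only [map_zero, mul_zero, Complex.zero_re, add_zero]
    constructor <;> intro h <;> linarith
  rw [he]
  exact convex_ball _ _

/-- a tangent half-plane at the point where the segment from `0` to `y1` leaves the disc -/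
theorem halfplane {x y1 : ℂ} {k : ℝ} (hα : k ^ 2 * ‖x‖ ^ 2 < 1) (hγ : ‖x‖ ^ 2 < k ^ 2)
    (h1 : 0 < qf x k y1) :
    ∃ (s0 : ℝ) (n : ℂ), 0 < s0 ∧ s0 < 1 ∧ qf x k (s0 * y1) = 0 ∧
      (∀ s : ℝ, s0 < s → 0 < (((s : ℂ) * y1 - s0 * y1) * conj n).re) ∧
      ∀ y, 0 < ((y - s0 * y1) * conj n).re → 0 < qf x k y := by
  have hg : Continuous (fun s : ℝ => qf x k ((s : ℂ) * y1)) :=
    (qf_cont x k).comp (by fun_prop)
  have h0 : qf x k (((0 : ℝ) : ℂ) * y1) < 0 := by
    rw [Complex.ofReal_zero, zero_mul, qf_zero]; linarith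
  have h1' : 0 < qf x k (((1 : ℝ) : ℂ) * y1) := by
    rw [Complex.ofReal_one, one_mul]; exact h1
  obtain ⟨s0, hs0, hs0e⟩ := intermediate_value_Icc (zero_le_one' ℝ) hg.continuousOn
    ⟨h0.le, h1'.le⟩
  have hs0e' : qf x k ((s0 : ℂ) * y1) = 0 := hs0e
  have hpos : 0 < s0 := lt_of_le_of_ne hs0.1 (by
    rintro rfl
    linarith)
  have hlt : s0 < 1 := lt_of_le_of_ne hs0.2 (by
    rintro rfl
    linarith)
  set e : ℂ := (s0 : ℂ) * y1 with he
  set n : ℂ := ((1 - k ^ 2 * ‖x‖ ^ 2 : ℝ) : ℂ) * e + ((1 - k ^ 2 : ℝ) : ℂ) * x with hn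
  have hen : 0 < (e * conj n).re := by
    have h2 := qf_expand x k 0 e
    rw [← hn, qf_zero, hs0e', zero_sub, norm_neg] at h2
    have h3 : (-e * conj n).re = -(e * conj n).re := by rw [neg_mul, Complex.neg_re]
    rw [h3] at h2
    have h4 : 0 ≤ (1 - k ^ 2 * ‖x‖ ^ 2) * ‖e‖ ^ 2 := mul_nonneg (by linarith) (by positivity)
    linarith
  refine ⟨s0, n, hpos, hlt, hs0e', fun s hs => ?_, fun y hy => ?_⟩
  · have h2 : ((s : ℂ) * y1 - e) * conj n = (((s - s0) / s0 : ℝ) : ℂ) * (e * conj n) := by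
      have hs0c : (s0 : ℂ) ≠ 0 := by exact_mod_cast hpos.ne'
      rw [he]; push_cast; field_simp
    rw [h2, Complex.re_ofReal_mul]
    exact mul_pos (div_pos (by linarith) hpos) hen
  · rw [qf_expand x k y e, ← hn, hs0e']
    have h4 : 0 ≤ (1 - k ^ 2 * ‖x‖ ^ 2) * ‖y - e‖ ^ 2 := mul_nonneg (by linarith) (by positivity)
    linarith

/-- reflection of the mild condition, general form -/
theorem mild_gen {T : ℂ → ℂ} {D w1 z1 : ℂ} (hT1 : T w1 = z1) (hD : D ≠ 0)
    (hd : HasDerivAt (fun w => conj (T w)) D w1) {m : ℕ} {a : ℕ → ℂ → ℂ} (hm : MildAt m a z1) :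
    (∀ᶠ w in 𝓝[≠] w1, conj (a m (T w)) ≠ 0) ∧
      ∀ j < m, Tendsto (fun w => conj (a j (T w)) / conj (a m (T w)) * (w - w1) ^ (m - j))
        (𝓝[≠] w1) (𝓝 0) := by
  obtain ⟨hne, ht⟩ := hm
  have hTc : ContinuousAt T w1 := by
    have h1 := (Complex.continuous_conj.continuousAt (x := conj (T w1))).comp
      (f := fun w => conj (T w)) hd.continuousAt
    have h2 : (fun z => conj z) ∘ (fun w => conj (T w)) = T := by
      funext w; simp
    rw [← h2]
    exact h1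
  have hTne : ∀ᶠ w in 𝓝[≠] w1, T w ≠ z1 := by
    have h1 := hd.eventually_ne (c := conj z1) hD
    filter_upwards [h1] with w hw h2
    exact hw (by rw [h2])
  have hTt : Tendsto T (𝓝[≠] w1) (𝓝[≠] z1) :=
    tendsto_nhdsWithin_iff.2 ⟨by
      have h1 := hTc.tendsto
      rw [hT1] at h1
      exact h1.mono_left nhdsWithin_le_nhds, hTne⟩
  have hslope : Tendsto (fun w => (w - w1) / conj (T w - z1)) (𝓝[≠] w1) (𝓝 D⁻¹) := by
    have h1 := (hasDerivAt_iff_tendsto_slope.1 hd).inv₀ hD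
    refine h1.congr fun w => ?_
    rw [slope_def_field, inv_div, map_sub, hT1]
  refine ⟨?_, fun j hj => ?_⟩
  · have := hTt.eventually hne
    filter_upwards [this] with w hw
    exact (map_ne_zero _).2 hw
  · have h1 : Tendsto (fun w => conj (a j (T w) / a m (T w) * (T w - z1) ^ (m - j)))
        (𝓝[≠] w1) (𝓝 (conj 0)) :=
      (Complex.continuous_conj.tendsto 0).comp ((ht j hj).comp hTt)
    have h2 := h1.mul (hslope.pow (m - j))
    rw [map_zero, zero_mul] at h2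
    refine h2.congr' ?_
    filter_upwards [hTne] with w hw
    have h3 : conj (T w - z1) ≠ 0 := (map_ne_zero _).2 (sub_ne_zero.2 hw)
    rw [map_mul, map_div₀, map_pow, div_pow]
    field_simp

end Pool.Agent.Q162.Sch
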