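import Pool.Agent.Q162.Sch.Green8

/-!
Images of concentric discs in domains with an algebraic boundary: one exceptional point.
-/

set_option autoImplicit false

open MeasureTheory Metric Set Filter Topology ComplexConjugate
open Pool.Agent.Results.MP_83fd13_an.BranchSingularities

namespace Pool.Agent.Q162.Sch

theorem refl_eq {t : ℝ} {x y : ℂ} (ht : (t : ℂ) ≠ 0) (h1 : conj y + conj x ≠ 0)
    (h2 : 1 + x * conj y ≠ 0) : 1 / conj ((t : ℂ) * ((y + x) / (1 + conj x * y))) =
      (1 + x * conj y) / ((t : ℂ) * (conj y + conj x)) := by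
  rw [map_mul, map_div₀, map_add, map_add, map_mul, map_one, Complex.conj_conj,
    Complex.conj_ofReal]
  field_simp

theorem ecc {f F : ℂ → ℂ} {R t lam : ℝ} {v1 : ℂ} (hf : DifferentiableOn ℂ f (ball 0 1))
    (hinj : InjOn f (ball 0 1)) (hR : 1 < R) (hF : DifferentiableOn ℂ F (ball 0 R))
    (hFf : ∀ v ∈ ball (0 : ℂ) 1, F v = f v) (ht : 0 < t) (ht1 : t < 1) (hlam : 0 < lam)
    (hS : Solvable (f '' ball 0 t) lam)
    (hnd : ¬ ∃ (p : ℂ) (r0 : ℝ), 0 < r0 ∧ f '' ball 0 t = ball p r0)
    {m : ℕ} (hm : 1 ≤ m) {a : ℕ → ℂ → ℂ} {U : Set ℂ} (hU : IsOpen U)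
    (hsub : closure (f '' ball 0 1) ⊆ U) (ha : ∀ j ≤ m, DifferentiableOn ℂ (a j) U)
    (hrel : ∀ z ∈ frontier (f '' ball 0 1), ∑ j ∈ Finset.range (m + 1), a j z * conj z ^ j = 0)
    (hv1 : ‖v1‖ < 1) (hRv : R * ‖v1‖ < 1)
    (hgood : ∀ v ∈ ball (0 : ℂ) 1, v ≠ v1 → a (m - 1) (f v) ≠ 0 ∨ MildAt m a (f v)) : False := by
  have htc : (t : ℂ) ≠ 0 := by exact_mod_cast ht.ne'
  have hmt : ∀ w : ℂ, ‖(t : ℂ) * w‖ = t * ‖w‖ := fun w => by
    rw [norm_mul, Complex.norm_real, Real.norm_of_nonneg ht.le]
  have hclU : F '' closedBall 0 1 ⊆ U := by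
    refine Subset.trans ?_ hsub
    rintro z ⟨v, hv, rfl⟩
    have hvcl : v ∈ closure (ball (0 : ℂ) 1) := by
      rw [closure_ball (0 : ℂ) one_ne_zero]; exact hv
    have hvR : v ∈ ball (0 : ℂ) R := closedBall_subset_ball hR hv
    have h1 : F '' ball 0 1 = f '' ball 0 1 := image_congr hFf
    rw [← h1]
    exact mem_closure_image
      (hF.differentiableAt (isOpen_ball.mem_nhds hvR)).continuousAt hvcl
  have hVo : IsOpen (ball (0 : ℂ) R ∩ F ⁻¹' U) :=
    hF.continuousOn.isOpen_inter_preimage isOpen_ball hU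
  obtain ⟨R0, hR0, hR0s⟩ := exists_ball hVo
    (fun w hw => ⟨closedBall_subset_ball hR hw, hclU ⟨w, hw, rfl⟩⟩)
  have hR00 : 0 < R0 := by linarith
  have hr : 1 < 1 / t := by rw [one_lt_div ht]; exact ht1
  -- the point `x`
  set x : ℂ := (t : ℂ) * v1 with hx
  have hxn : ‖x‖ = t * ‖v1‖ := hmt v1
  have hv0 : 0 ≤ ‖v1‖ := norm_nonneg v1
  have hx1 : ‖x‖ < 1 := by rw [hxn]; nlinarith
  have hxt : ‖x‖ < t := by rw [hxn]; nlinarith
  have hxx : (1 : ℂ) - x * conj x ≠ 0 := by
    rw [Complex.mul_conj, Complex.normSq_eq_norm_sq]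
    intro h
    have h2 : (1 : ℝ) - ‖x‖ ^ 2 = 0 := by exact_mod_cast h
    nlinarith [norm_nonneg x]
  obtain ⟨r', M, hr', hMd, hMm, hMi, hMim, hMf⟩ := mobius' hx1 hr
  -- the function `φ (w) = F (t w)`
  have hmem1 : ∀ w ∈ ball (0 : ℂ) (1 / t), (t : ℂ) * w ∈ ball (0 : ℂ) 1 := by
    intro w hw
    rw [mem_ball_zero_iff] at hw ⊢
    rw [hmt]
    rw [lt_div_iff₀ ht] at hw
    linarith
  set ψ : ℂ → ℂ := fun y => F (t * M y) with hψdef
  have hψd : DifferentiableOn ℂ ψ (ball 0 r') := by
    refine hF.comp (hMd.const_mul (t : ℂ)) ?_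
    intro w hw
    exact ball_subset_ball hR.le (hmem1 _ (hMm hw))
  have hψi : InjOn ψ (ball 0 r') := by
    intro w hw w' hw' h
    have h' : F (t * M w) = F (t * M w') := h
    rw [hFf _ (hmem1 _ (hMm hw)), hFf _ (hmem1 _ (hMm hw'))] at h'
    exact hMi hw hw' (mul_left_cancel₀ htc (hinj (hmem1 _ (hMm hw)) (hmem1 _ (hMm hw')) h'))
  have him : ψ '' ball 0 1 = f '' ball 0 t := by
    have e1 : ψ '' ball 0 1 = (fun w => F (t * w)) '' (M '' ball 0 1) := by
      rw [image_image]
    rw [e1, hMim]
    ext z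
    constructor
    · rintro ⟨w, hw, rfl⟩
      rw [mem_ball_zero_iff] at hw
      refine ⟨t * w, ?_, ?_⟩
      · rw [mem_ball_zero_iff, hmt]
        nlinarith
      · exact (hFf _ (mem_ball_zero_iff.2 (by rw [hmt]; nlinarith))).symm
    · rintro ⟨v, hv, rfl⟩
      rw [mem_ball_zero_iff] at hv
      refine ⟨v / t, ?_, ?_⟩
      · rw [mem_ball_zero_iff, norm_div, Complex.norm_real, Real.norm_of_nonneg ht.le,
          div_lt_one ht]
        exact hv
      · simp only
        rw [mul_div_cancel₀ _ htc]
        exact hFf _ (mem_ball_zero_iff.2 (by linarith))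
  obtain ⟨hBB, -, hrest⟩ := result ψ r' hr' hψd hψi lam hlam (by rw [him]; exact hS)
  obtain ⟨hNF, -, -⟩ := hrest (by rw [him]; exact hnd)
  rcases maximal (by linarith) hψd with ⟨E, hE, hEψ⟩ | ⟨R2, E, y1, hrR, hE, hEψ, hy1, hno⟩
  · -- the entire case
    have him' : E '' ball 0 1 = f '' ball 0 t := by
      rw [← him]
      exact image_congr fun w hw => hEψ w (ball_subset_ball hr'.le hw)
    have hinjE : InjOn E (ball 0 r') := fun x hx y hy h => hψi hx hy (by
      rw [← hEψ x hx, ← hEψ y hy]; exact h)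
    obtain ⟨-, -, h3⟩ := result E r' hr' hE.differentiableOn hinjE lam hlam
      (by rw [him']; exact hS)
    obtain ⟨-, -, h4⟩ := h3 (by rw [him']; exact hnd)
    exact h4 fun z => (hE.analyticAt z).meromorphicAt
  refine hno ?_
  have hR2 : 1 < R2 := by linarith
  have hbr : ∀ z : ℂ, 1 < ‖z‖ → ‖z‖ < R2 → Branch ψ r' z E := fun z h1 h2 =>
    branch_of_lt hr' hrR hE hEψ h1 h2
  -- the disc on which `F (t M)` is holomorphic
  set K : ℝ := R / t with hK
  have hK1 : 1 / t < K := div_lt_div_of_pos_right hR ht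
  have hK0 : 0 < K := by positivity
  have hKx : K ^ 2 * ‖x‖ ^ 2 < 1 := by
    have h1 : K * ‖x‖ = R * ‖v1‖ := by rw [hK, hxn]; field_simp
    rw [← mul_pow, h1]
    have h2 : 0 ≤ R * ‖v1‖ := by positivity
    nlinarith
  have hΔo : IsOpen {y | qf x K y < 0} := isOpen_lt (qf_cont x K) continuous_const
  have hΔc : Convex ℝ {y | qf x K y < 0} := qf_convex hKx
  have hne1 : ∀ (k : ℝ) (y : ℂ), qf x k y < 0 → 1 + conj x * y ≠ 0 := by
    intro k y hy h0
    rw [qf, h0, norm_zero] at hy
    nlinarith [sq_nonneg ‖y + x‖]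
  have hΔR : ∀ y, qf x K y < 0 → ‖(t : ℂ) * ((y + x) / (1 + conj x * y))‖ < R := by
    intro y hy
    have h0 := hne1 K y hy
    have h1 : ‖y + x‖ < K * ‖1 + conj x * y‖ := by
      refine lt_of_pow_lt_pow_left₀ 2 (by positivity) ?_
      rw [mul_pow]
      unfold qf at hy
      linarith
    rw [hmt, norm_div]
    have h2 : ‖y + x‖ / ‖1 + conj x * y‖ < K := by
      rw [div_lt_iff₀ (norm_pos_iff.2 h0)]; exact h1
    have h3 : t * K = R := by rw [hK]; field_simp
    nlinarith
  set H : ℂ → ℂ := fun y => F ((t : ℂ) * ((y + x) / (1 + conj x * y))) with hH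
  have hHd : DifferentiableOn ℂ H {y | qf x K y < 0} := by
    refine hF.comp ?_ (fun y hy => mem_ball_zero_iff.2 (hΔR y hy))
    intro y hy
    refine DifferentiableAt.differentiableWithinAt ?_
    exact (DifferentiableAt.div (c := fun y : ℂ => y + x) (d := fun y : ℂ => 1 + conj x * y)
      (by fun_prop) (by fun_prop) (hne1 K y hy)).const_mul _
  have h0Δ : qf x K 0 < 0 := by
    rw [qf_zero]
    have h1 : (1 : ℝ) < K := lt_trans hr hK1
    nlinarith [norm_nonneg x]
  have hEH : EqOn E H (ball 0 R2 ∩ {y | qf x K y < 0}) := by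
    refine eqOn_convex (isOpen_ball.inter hΔo) ((convex_ball _ _).inter hΔc)
      (hE.mono inter_subset_left) (hHd.mono inter_subset_right) (z := 0)
      ⟨mem_ball_self (by linarith), h0Δ⟩ ?_
    filter_upwards [isOpen_ball.mem_nhds (mem_ball_self (x := (0 : ℂ)) (by linarith : 0 < r'))]
      with y hy
    rw [hEψ y hy]
    simp only [hψdef, hH, hMf]
  by_cases hA : qf x K y1 < 0
  · obtain ⟨ε, hε, hεs⟩ := Metric.isOpen_iff.1 hΔo y1 hA
    exact ⟨ε, H, hε, hHd.mono hεs, fun w hw => (hEH ⟨hw.2, hεs hw.1⟩).symm⟩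
  · push Not at hA
    -- a slightly larger circle
    set R1 : ℝ := (1 + R0) / 2 with hR1
    have hR11 : 1 < R1 := by rw [hR1]; linarith
    have hR10 : R1 < R0 := by rw [hR1]; linarith
    set κ : ℝ := max 1 (1 / (t * R1)) with hκ
    have hκ1 : 1 ≤ κ := le_max_left _ _
    have hκ0 : 0 < κ := by linarith
    have hκt : κ < 1 / t := by
      rw [hκ]
      refine max_lt hr ?_
      rw [div_lt_div_iff₀ (by positivity) ht]
      nlinarith
    have hκR : 1 / (t * κ) ≤ R1 := by
      have h1 : 1 / (t * R1) ≤ κ := le_max_right _ _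
      rw [div_le_iff₀ (by positivity)] at h1 ⊢
      linarith
    have hκK : κ < K := lt_trans hκt hK1
    have hα : κ ^ 2 * ‖x‖ ^ 2 < 1 := by
      refine lt_of_le_of_lt ?_ hKx
      gcongr
    have hγ : ‖x‖ ^ 2 < κ ^ 2 := by
      nlinarith [norm_nonneg x]
    have hqy : 0 < qf x κ y1 := by
      have h1 : qf x κ y1 = qf x K y1 + (K ^ 2 - κ ^ 2) * ‖1 + conj x * y1‖ ^ 2 := by
        unfold qf; ring
      have h2 : 0 < K ^ 2 - κ ^ 2 := by nlinarith
      rcases eq_or_ne (1 + conj x * y1) 0 with h0 | h0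
      · have h3 : y1 + x ≠ 0 := by
          intro h4
          have h5 : ‖y1‖ = ‖x‖ := by rw [eq_neg_of_add_eq_zero_left h4, norm_neg]
          linarith
        unfold qf
        rw [h0, norm_zero]
        have := norm_pos_iff.2 h3
        nlinarith
      · have h3 : 0 < ‖1 + conj x * y1‖ := norm_pos_iff.2 h0
        rw [h1]
        have : 0 < (K ^ 2 - κ ^ 2) * ‖1 + conj x * y1‖ ^ 2 := by positivity
        linarith
    obtain ⟨s0, n, hs0, hs01, hqe, hray, hhalf⟩ := halfplane hα hγ hqy
    set e0 : ℂ := (s0 : ℂ) * y1 with he0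
    -- the reflected coefficients
    set τ : ℂ → ℂ := fun y => (1 + x * conj y) / ((t : ℂ) * (conj y + conj x)) with hτ
    have hden : ∀ y, 0 < qf x κ y → conj y + conj x ≠ 0 := by
      intro y hy h0
      have h1 : conj (y + x) = 0 := by rw [map_add]; exact h0
      have h2 : y + x = 0 := by
        have := congrArg conj h1
        rwa [Complex.conj_conj, map_zero] at this
      unfold qf at hy
      rw [h2, norm_zero] at hy
      have : 0 ≤ κ ^ 2 * ‖1 + conj x * y‖ ^ 2 := by positivity
      nlinarith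
    have hτn : ∀ y, ‖τ y‖ = ‖1 + conj x * y‖ / (t * ‖y + x‖) := by
      intro y
      have e1 : ‖1 + x * conj y‖ = ‖1 + conj x * y‖ := by
        rw [← RCLike.norm_conj (1 + x * conj y)]
        congr 1
        rw [map_add, map_mul, map_one, Complex.conj_conj]
      have e2 : ‖conj y + conj x‖ = ‖y + x‖ := by
        rw [← map_add, RCLike.norm_conj]
      simp only [hτ]
      rw [norm_div, norm_mul, Complex.norm_real, Real.norm_of_nonneg ht.le, e1, e2]
    have hτR : ∀ y, 0 < qf x κ y → ‖τ y‖ < R0 := by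
      intro y hy
      have h0 : 0 < ‖y + x‖ := by
        rw [norm_pos_iff]
        intro h1
        apply hden y hy
        rw [← map_add, h1, map_zero]
      have h1 : κ * ‖1 + conj x * y‖ < ‖y + x‖ := by
        refine lt_of_pow_lt_pow_left₀ 2 (by positivity) ?_
        rw [mul_pow]
        unfold qf at hy
        linarith
      rw [hτn, div_lt_iff₀ (by positivity)]
      rw [div_le_iff₀ (by positivity)] at hκR
      have h2 : ‖1 + conj x * y‖ ≤ R1 * (t * κ) * ‖1 + conj x * y‖ :=
        le_mul_of_one_le_left (norm_nonneg _) hκR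
      have h3 : R1 * (t * κ) * ‖1 + conj x * y‖ = R1 * t * (κ * ‖1 + conj x * y‖) := by ring
      have h4 : R1 * t * (κ * ‖1 + conj x * y‖) ≤ R1 * t * ‖y + x‖ :=
        mul_le_mul_of_nonneg_left h1.le (by positivity)
      have h5 : R1 * t * ‖y + x‖ < R0 * (t * ‖y + x‖) := by
        have : 0 < t * ‖y + x‖ := by positivity
        nlinarith
      linarith
    have hqo : IsOpen {y | 0 < qf x κ y} := isOpen_lt continuous_const (qf_cont x κ)
    have hBd : ∀ j ≤ m, ∀ y, 0 < qf x κ y →
        DifferentiableAt ℂ (fun y : ℂ => conj (a j (F (τ y)))) y := by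
      intro j hj y hy
      have hmem := hR0s (mem_ball_zero_iff.2 (hτR y hy))
      have h0 := hden y hy
      have h1 : DifferentiableAt ℂ
          (fun u : ℂ => a j (F ((1 + x * u) / ((t : ℂ) * (u + conj x))))) (conj y) := by
        have e1 : DifferentiableAt ℂ (a j) (F (τ y)) :=
          (ha j hj).differentiableAt (hU.mem_nhds hmem.2)
        have e2 : DifferentiableAt ℂ F (τ y) :=
          hF.differentiableAt (isOpen_ball.mem_nhds hmem.1)
        have e3 : DifferentiableAt ℂ (fun u : ℂ => (1 + x * u) / ((t : ℂ) * (u + conj x)))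
            (conj y) :=
          DifferentiableAt.div (c := fun u : ℂ => 1 + x * u)
            (d := fun u : ℂ => (t : ℂ) * (u + conj x)) (by fun_prop) (by fun_prop)
            (mul_ne_zero htc h0)
        have e4 : DifferentiableAt ℂ (fun u : ℂ => F ((1 + x * u) / ((t : ℂ) * (u + conj x))))
            (conj y) :=
          DifferentiableAt.comp (conj y) (g := F)
            (f := fun u : ℂ => (1 + x * u) / ((t : ℂ) * (u + conj x))) e2 e3
        exact DifferentiableAt.comp (conj y) (g := a j)
          (f := fun u : ℂ => F ((1 + x * u) / ((t : ℂ) * (u + conj x)))) e1 e4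
      exact differentiableAt_conj_conj_iff.2 h1
    -- the relation in the annulus of the variable `v`
    have hann : ∀ v : ℂ, 1 / R0 < ‖v‖ → ‖v‖ < R →
        ∑ j ∈ Finset.range (m + 1), conj (a j (F (1 / conj v))) * F v ^ j = 0 := by
      refine relation_annulus (φ := F) (E := F) (r := R) (R := R) (κ := 1 / R0)
        (A := fun j v => conj (a j (F (1 / conj v)))) hR le_rfl (by positivity)
        (by rw [div_lt_one hR00]; exact hR0) hF (fun _ _ => rfl) ?_ ?_
      · intro j hj v hv
        have hv0 : 0 < ‖v‖ := lt_trans (by positivity) hv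
        have hcv : conj v ≠ 0 := (map_ne_zero _).2 (norm_pos_iff.1 hv0)
        have hn : ‖1 / conj v‖ < R0 := by
          rw [norm_div, norm_one, RCLike.norm_conj]
          exact (one_div_lt hR00 hv0).1 hv
        have hmem := hR0s (mem_ball_zero_iff.2 hn)
        have h1 : DifferentiableAt ℂ (fun u : ℂ => a j (F (1 / u))) (conj v) := by
          have e1 : DifferentiableAt ℂ (a j) (F (1 / conj v)) :=
            (ha j hj).differentiableAt (hU.mem_nhds hmem.2)
          have e2 : DifferentiableAt ℂ F (1 / conj v) :=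
            hF.differentiableAt (isOpen_ball.mem_nhds hmem.1)
          have e3 : DifferentiableAt ℂ (fun u : ℂ => 1 / u) (conj v) :=
            (differentiableAt_const _).div differentiableAt_id hcv
          have e4 : DifferentiableAt ℂ (fun u : ℂ => F (1 / u)) (conj v) :=
            DifferentiableAt.comp (conj v) (g := F) (f := fun u : ℂ => 1 / u) e2 e3
          exact DifferentiableAt.comp (conj v) (g := a j) (f := fun u : ℂ => F (1 / u)) e1 e4
        exact (differentiableAt_conj_conj_iff.2 h1).differentiableWithinAt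
      · intro v hv
        have hvne : v ≠ 0 := by rw [← norm_pos_iff, hv]; exact one_pos
        have hcv : conj v ≠ 0 := (map_ne_zero _).2 hvne
        have hinv : 1 / conj v = v := by
          rw [div_eq_iff hcv, Complex.mul_conj, Complex.normSq_eq_norm_sq, hv]
          simp
        have h1 := hrel (F v) (frontier_mem' hf hinj hR hF hFf hv)
        have h2 := congrArg conj h1
        rw [map_sum, map_zero] at h2
        rw [← h2]
        refine Finset.sum_congr rfl fun j _ => ?_
        rw [hinv, map_mul, map_pow, Complex.conj_conj]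
    -- the relation near the exit point
    have hNrel : ∀ y ∈ ball (0 : ℂ) R2, qf x K y < 0 → 0 < qf x (1 / (t * R0)) y →
        ∑ j ∈ Finset.range (m + 1), conj (a j (F (τ y))) * E y ^ j = 0 := by
      intro y hyR hyK hyk
      have h0 := hne1 K y hyK
      have h0p : 0 < ‖1 + conj x * y‖ := norm_pos_iff.2 h0
      set v : ℂ := (t : ℂ) * ((y + x) / (1 + conj x * y)) with hv
      have hvR : ‖v‖ < R := hΔR y hyK
      have hyx : 1 / (t * R0) * ‖1 + conj x * y‖ < ‖y + x‖ := by
        refine lt_of_pow_lt_pow_left₀ 2 (norm_nonneg _) ?_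
        rw [mul_pow]
        unfold qf at hyk
        linarith
      have hvl : 1 / R0 < ‖v‖ := by
        rw [hv, hmt, norm_div, div_lt_iff₀ hR00]
        have h1 : ‖1 + conj x * y‖ < ‖y + x‖ * (t * R0) := by
          have h2 : 1 / (t * R0) * ‖1 + conj x * y‖ = ‖1 + conj x * y‖ / (t * R0) := by ring
          rw [h2, div_lt_iff₀ (by positivity)] at hyx
          exact hyx
        have h3 : t * (‖y + x‖ / ‖1 + conj x * y‖) * R0 =
            ‖y + x‖ * (t * R0) / ‖1 + conj x * y‖ := by ring
        rw [h3, lt_div_iff₀ h0p, one_mul]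
        exact h1
      have hyx0 : y + x ≠ 0 := by
        intro h1
        rw [h1, norm_zero] at hyx
        have : 0 < 1 / (t * R0) * ‖1 + conj x * y‖ := by positivity
        linarith
      have hcyx : conj y + conj x ≠ 0 := by
        rw [← map_add]; exact (map_ne_zero _).2 hyx0
      have hc1 : 1 + x * conj y ≠ 0 := by
        have := (map_ne_zero (starRingEnd ℂ)).2 h0
        rwa [map_add, map_mul, map_one, Complex.conj_conj] at this
      have hτv : 1 / conj v = τ y := refl_eq htc hcyx hc1
      have hEy : E y = F v := hEH ⟨hyR, hyK⟩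
      have h5 := hann v hvl hvR
      rw [hτv] at h5
      rw [hEy]
      exact h5
    -- the relation in a half disc
    set V : Set ℂ := ball (0 : ℂ) R2 ∩ {y | 0 < ((y - e0) * conj n).re} with hV
    have hHo : IsOpen {y : ℂ | 0 < ((y - e0) * conj n).re} :=
      isOpen_lt continuous_const (by fun_prop)
    have hHc : Convex ℝ {y : ℂ | 0 < ((y - e0) * conj n).re} := by
      intro y hy z hz c d hc hd hcd
      simp only [mem_setOf_eq] at hy hz ⊢
      have e1 : ((c • y + d • z - e0) * conj n).re =
          c * ((y - e0) * conj n).re + d * ((z - e0) * conj n).re := by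
        have e2 : (c • y + d • z - e0) * conj n =
            (c : ℂ) * ((y - e0) * conj n) + (d : ℂ) * ((z - e0) * conj n) := by
          have e3 : (c : ℂ) + d = 1 := by exact_mod_cast hcd
          simp only [Complex.real_smul]
          linear_combination (e0 * conj n) * e3
        rw [e2, Complex.add_re, Complex.re_ofReal_mul, Complex.re_ofReal_mul]
      rw [e1]
      rcases eq_or_lt_of_le hc with h | h
      · have : d = 1 := by linarith
        rw [← h, this]; linarith
      · have h1 : 0 < c * ((y - e0) * conj n).re := mul_pos h hy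
        have h2 : 0 ≤ d * ((z - e0) * conj n).re := mul_nonneg hd hz.le
        linarith
    have hVo2 : IsOpen V := isOpen_ball.inter hHo
    have hVc : Convex ℝ V := (convex_ball _ _).inter hHc
    have hEV : DifferentiableOn ℂ
        (fun y => ∑ j ∈ Finset.range (m + 1), conj (a j (F (τ y))) * E y ^ j) V := by
      refine DifferentiableOn.fun_sum fun j hj => ?_
      refine DifferentiableOn.mul ?_ (DifferentiableOn.pow ?_ _)
      · intro y hy
        exact (hBd j (by rw [Finset.mem_range] at hj; omega) y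
          (hhalf y hy.2)).differentiableWithinAt
      · exact hE.mono inter_subset_left
    -- a point of the half disc close to the exit point
    have hNo : IsOpen (ball (0 : ℂ) R2 ∩ ({y | qf x K y < 0} ∩ {y | 0 < qf x (1 / (t * R0)) y})) :=
      isOpen_ball.inter (hΔo.inter (isOpen_lt continuous_const (qf_cont x _)))
    have hne0 : 1 + conj x * e0 ≠ 0 := by
      intro h0
      have h1 := hqe
      unfold qf at h1
      rw [h0, norm_zero] at h1
      have h2 : ‖e0 + x‖ = 0 := by
        have : ‖e0 + x‖ ^ 2 = 0 := by linarith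
        exact pow_eq_zero_iff (two_ne_zero) |>.1 this
      have h3 : e0 = -x := eq_neg_of_add_eq_zero_left (norm_eq_zero.1 h2)
      apply hxx
      rw [h3] at h0
      linear_combination h0
    have hne0p : 0 < ‖1 + conj x * e0‖ := norm_pos_iff.2 hne0
    have he0R : e0 ∈ ball (0 : ℂ) R2 := by
      rw [mem_ball_zero_iff, he0, norm_mul, Complex.norm_real, Real.norm_of_nonneg hs0.le, hy1]
      nlinarith
    have he0N : e0 ∈ ball (0 : ℂ) R2 ∩
        ({y | qf x K y < 0} ∩ {y | 0 < qf x (1 / (t * R0)) y}) := by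
      refine ⟨he0R, ?_, ?_⟩
      · show qf x K e0 < 0
        have h1 : qf x K e0 = qf x κ e0 - (K ^ 2 - κ ^ 2) * ‖1 + conj x * e0‖ ^ 2 := by
          unfold qf; ring
        have h2 : 0 < K ^ 2 - κ ^ 2 := by nlinarith
        have h3 : 0 < (K ^ 2 - κ ^ 2) * ‖1 + conj x * e0‖ ^ 2 := by positivity
        rw [h1, hqe]; linarith
      · show 0 < qf x (1 / (t * R0)) e0
        have h1 : qf x (1 / (t * R0)) e0 =
            qf x κ e0 + (κ ^ 2 - (1 / (t * R0)) ^ 2) * ‖1 + conj x * e0‖ ^ 2 := by
          unfold qf; ring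
        have h4 : 1 / (t * R0) < κ := by
          refine lt_of_lt_of_le ?_ (le_max_right 1 (1 / (t * R1)))
          exact one_div_lt_one_div_of_lt (by positivity) (by nlinarith)
        have h5 : 0 < 1 / (t * R0) := by positivity
        have h2 : 0 < κ ^ 2 - (1 / (t * R0)) ^ 2 := by nlinarith
        have h3 : 0 < (κ ^ 2 - (1 / (t * R0)) ^ 2) * ‖1 + conj x * e0‖ ^ 2 := by positivity
        rw [h1, hqe]; linarith
    obtain ⟨s, hs, hsN⟩ : ∃ s : ℝ, s0 < s ∧ (s : ℂ) * y1 ∈ ball (0 : ℂ) R2 ∩
        ({y | qf x K y < 0} ∩ {y | 0 < qf x (1 / (t * R0)) y}) := by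
      have hc : ContinuousAt (fun s : ℝ => (s : ℂ) * y1) s0 := by fun_prop
      have h1 : ∀ᶠ s : ℝ in 𝓝 s0, (s : ℂ) * y1 ∈ ball (0 : ℂ) R2 ∩
          ({y | qf x K y < 0} ∩ {y | 0 < qf x (1 / (t * R0)) y}) :=
        hc.eventually (hNo.mem_nhds he0N)
      obtain ⟨δ, hδ, h2⟩ := Metric.eventually_nhds_iff_ball.1 h1
      refine ⟨s0 + δ / 2, by linarith, h2 _ ?_⟩
      rw [mem_ball, Real.dist_eq, add_sub_cancel_left, abs_of_pos (by linarith)]
      linarith
    have hrelV : EqOn (fun y => ∑ j ∈ Finset.range (m + 1), conj (a j (F (τ y))) * E y ^ j)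
        (fun _ => (0 : ℂ)) V := by
      refine eqOn_convex hVo2 hVc hEV (differentiableOn_const _) (z := (s : ℂ) * y1)
        ⟨hsN.1, hray s hs⟩ ?_
      filter_upwards [hNo.mem_nhds hsN] with y hy
      exact hNrel y hy.1 hy.2.1 hy.2.2
    have hy1H : 0 < ((y1 - e0) * conj n).re := by
      have := hray 1 hs01
      rwa [Complex.ofReal_one, one_mul] at this
    refine step (A := fun j y => conj (a j (F (τ y)))) hlam hBB hNF hR2 hy1 hbr hE hm ?_ ?_ ?_
    · intro j hj
      exact DifferentiableOn.analyticAt (s := {y | 0 < qf x κ y})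
        (fun y hy => (hBd j hj y hy).differentiableWithinAt) (hqo.mem_nhds hqy)
    · filter_upwards [hHo.mem_nhds hy1H] with y hy hyR
      exact hrelV ⟨hyR, hy⟩
    · -- the good alternative at `τ y1`
      have hyx : 0 < ‖y1 + x‖ := by
        rw [norm_pos_iff]
        intro h1
        apply hden y1 hqy
        rw [← map_add, h1, map_zero]
      have hun : ‖τ y1‖ < 1 := by
        rw [hτn, div_lt_one (by positivity)]
        have h1 : K * ‖1 + conj x * y1‖ ≤ ‖y1 + x‖ := by
          refine le_of_sq_le_sq ?_ (norm_nonneg _)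
          rw [mul_pow]
          unfold qf at hA
          linarith
        have h2 : t * (K * ‖1 + conj x * y1‖) ≤ t * ‖y1 + x‖ :=
          mul_le_mul_of_nonneg_left h1 ht.le
        have h3 : t * (K * ‖1 + conj x * y1‖) = R * ‖1 + conj x * y1‖ := by
          rw [hK]; field_simp
        rw [h3] at h2
        rcases eq_or_lt_of_le (norm_nonneg (1 + conj x * y1)) with h4 | h4
        · rw [← h4]; positivity
        · nlinarith
      have hub : τ y1 ∈ ball (0 : ℂ) 1 := mem_ball_zero_iff.2 hun
      have hcd := hden y1 hqy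
      have huv : τ y1 ≠ v1 := by
        intro h1
        simp only [hτ] at h1
        rw [div_eq_iff (mul_ne_zero htc hcd)] at h1
        apply hxx
        rw [hx] at h1 ⊢
        rw [hx, map_mul, Complex.conj_ofReal] at hcd
        rw [map_mul, Complex.conj_ofReal] at h1 ⊢
        linear_combination h1
      have hFu : F (τ y1) = f (τ y1) := hFf _ hub
      rcases hgood (τ y1) hub huv with hg | hg
      · left
        show conj (a (m - 1) (F (τ y1))) ≠ 0
        rw [hFu]
        exact (map_ne_zero _).2 hg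
      · right
        have hG : HasDerivAt (fun u : ℂ => F ((1 + x * u) / ((t : ℂ) * (u + conj x))))
            (deriv F (τ y1) * ((x * ((t : ℂ) * (conj y1 + conj x)) - (1 + x * conj y1) * t) /
              ((t : ℂ) * (conj y1 + conj x)) ^ 2)) (conj y1) := by
          have e1 : HasDerivAt F (deriv F (τ y1)) (τ y1) :=
            (hF.differentiableAt (isOpen_ball.mem_nhds
              (ball_subset_ball hR.le hub))).hasDerivAt
          have e2 : HasDerivAt (fun u : ℂ => 1 + x * u) x (conj y1) := by
            simpa using ((hasDerivAt_id (conj y1)).const_mul x).const_add 1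
          have e3 : HasDerivAt (fun u : ℂ => (t : ℂ) * (u + conj x)) (t : ℂ) (conj y1) := by
            simpa using ((hasDerivAt_id (conj y1)).add_const (conj x)).const_mul (t : ℂ)
          have e4 := e2.div e3 (mul_ne_zero htc hcd)
          exact HasDerivAt.comp (conj y1) (h₂ := F)
            (h := fun u : ℂ => (1 + x * u) / ((t : ℂ) * (u + conj x))) e1 e4
        have hG2 := hG.conj_conj
        rw [Complex.conj_conj] at hG2
        refine mild_gen (T := fun y => F (τ y)) (z1 := f (τ y1)) hFu ?_ ?_ hg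
          (D := conj (deriv F (τ y1) * ((x * ((t : ℂ) * (conj y1 + conj x)) -
            (1 + x * conj y1) * t) / ((t : ℂ) * (conj y1 + conj x)) ^ 2)))
        · refine (map_ne_zero _).2 (mul_ne_zero ?_ (div_ne_zero ?_ (pow_ne_zero _
            (mul_ne_zero htc hcd))))
          · have e1 : deriv F (τ y1) = deriv f (τ y1) := by
              apply Filter.EventuallyEq.deriv_eq
              filter_upwards [isOpen_ball.mem_nhds hub] with v hv
              exact hFf v hv
            rw [e1]
            exact Pool.Agent.Y769.SC.nz f 1 hf hinj (τ y1) hub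
          · intro h1
            have h2 : (t : ℂ) * (1 - x * conj x) = 0 := by linear_combination -h1
            exact (mul_ne_zero htc hxx) h2
        · refine hG2.congr_of_eventuallyEq (Eventually.of_forall fun y => ?_)
          simp only [hτ, Function.comp_apply]

end Pool.Agent.Q162.Sch
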