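import Pool.Agent.Q162.Sch.Core

/-!
A function in a disc whose oscillation is at most one on pieces of diameter `δ dist(., w1)` grows at
most logarithmically at the boundary point `w1`; the general principle.
-/

set_option autoImplicit false

open MeasureTheory Metric Set Filter Topology ComplexConjugate
open Pool.Agent.Results.MP_83fd13_an.BranchSingularities

namespace Pool.Agent.Q162.Sch

theorem seg_step {E : ℂ → ℂ} {R : ℝ} {w1 : ℂ} {δ : ℝ} (hδ : 0 < δ)
    (hE : ∀ w ∈ ball (0 : ℂ) R, ∀ w' ∈ ball (0 : ℂ) R, ‖w - w1‖ < δ → ‖w' - w1‖ < δ →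
      ‖w' - w‖ ≤ δ * ‖w - w1‖ → ‖E w' - E w‖ ≤ 1)
    {a b : ℂ} (ha : a ∈ ball (0 : ℂ) R) (hb : b ∈ ball (0 : ℂ) R) (ha1 : ‖a - w1‖ < δ)
    (hb1 : ‖b - w1‖ < δ) {d0 : ℝ} (hd0 : 0 < d0)
    (hfar : ∀ s : ℝ, 0 ≤ s → s ≤ 1 → d0 ≤ ‖((1 - s : ℝ) : ℂ) * a + (s : ℂ) * b - w1‖)
    {K : ℕ} (hK : 1 ≤ K) (hlen : ‖b - a‖ ≤ K * δ * d0) : ‖E b - E a‖ ≤ K := by
  have hK0 : (0 : ℝ) < K := by exact_mod_cast hK
  set γ : ℕ → ℂ := fun i => ((1 - (i : ℝ) / K : ℝ) : ℂ) * a + (((i : ℝ) / K : ℝ) : ℂ) * b with hγ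
  have hs : ∀ i : ℕ, i ≤ K → 0 ≤ (i : ℝ) / K ∧ (i : ℝ) / K ≤ 1 := by
    intro i hi
    refine ⟨by positivity, ?_⟩
    rw [div_le_one hK0]
    exact_mod_cast hi
  have hconv : ∀ (S : Set ℂ), Convex ℝ S → a ∈ S → b ∈ S → ∀ i : ℕ, i ≤ K → γ i ∈ S := by
    intro S hS haS hbS i hi
    obtain ⟨h1, h2⟩ := hs i hi
    have := hS haS hbS (sub_nonneg.2 h2) h1 (by ring)
    simpa only [hγ, Complex.real_smul] using this
  have h0 : γ 0 = a := by simp [hγ]
  have hKK : γ K = b := by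
    simp only [hγ]
    rw [div_self hK0.ne']
    simp
  have hind : ∀ i : ℕ, i ≤ K → ‖E (γ i) - E a‖ ≤ i := by
    intro i
    induction i with
    | zero => intro _; simp [h0]
    | succ i ih =>
      intro hi
      have hi' : i ≤ K := by omega
      have h1 := ih hi'
      have hr1 := hconv _ (convex_ball 0 R) ha hb i hi'
      have hr2 := hconv _ (convex_ball 0 R) ha hb (i + 1) hi
      have hw1 := hconv (ball w1 δ) (convex_ball w1 δ) (by rw [mem_ball, dist_eq_norm]; exact ha1)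
        (by rw [mem_ball, dist_eq_norm]; exact hb1) i hi'
      have hw2 := hconv (ball w1 δ) (convex_ball w1 δ) (by rw [mem_ball, dist_eq_norm]; exact ha1)
        (by rw [mem_ball, dist_eq_norm]; exact hb1) (i + 1) hi
      rw [mem_ball, dist_eq_norm] at hw1 hw2
      have hd : ‖γ (i + 1) - γ i‖ ≤ δ * ‖γ i - w1‖ := by
        have e : γ (i + 1) - γ i = ((1 / K : ℝ) : ℂ) * (b - a) := by
          simp only [hγ]
          push_cast
          field_simp
          ring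
        rw [e, norm_mul, Complex.norm_real, Real.norm_of_nonneg (by positivity)]
        have h2 := hfar _ (hs i hi').1 (hs i hi').2
        calc 1 / K * ‖b - a‖ ≤ 1 / K * (K * δ * d0) := by gcongr
          _ = δ * d0 := by field_simp
          _ ≤ δ * ‖γ i - w1‖ := by gcongr
      have h3 := hE _ hr1 _ hr2 hw1 hw2 hd
      calc ‖E (γ (i + 1)) - E a‖ = ‖(E (γ (i + 1)) - E (γ i)) + (E (γ i) - E a)‖ := by ring_nf
        _ ≤ ‖E (γ (i + 1)) - E (γ i)‖ + ‖E (γ i) - E a‖ := norm_add_le _ _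
        _ ≤ ((i + 1 : ℕ) : ℝ) := by push_cast; linarith
  have := hind K le_rfl
  rwa [hKK] at this

theorem growth {E : ℂ → ℂ} {R : ℝ} (hR : 0 < R) {w1 : ℂ} (hw1 : ‖w1‖ = R) {δ : ℝ} (hδ : 0 < δ)
    (hE : ∀ w ∈ ball (0 : ℂ) R, ∀ w' ∈ ball (0 : ℂ) R, ‖w - w1‖ < δ → ‖w' - w1‖ < δ →
      ‖w' - w‖ ≤ δ * ‖w - w1‖ → ‖E w' - E w‖ ≤ 1) :
    ∀ η : ℝ, 0 < η → ∃ δ' > 0, ∀ w ∈ ball (0 : ℂ) R, ‖w - w1‖ < δ' →
      ‖w - w1‖ * ‖E w‖ ≤ η := by
  set τ0 : ℝ := min δ R / (2 * R) with hτ0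
  have hmin : 0 < min δ R := lt_min hδ hR
  set D0 : ℝ := τ0 * R with hD0
  have hD0e : D0 = min δ R / 2 := by rw [hD0, hτ0]; field_simp
  have hD0p : 0 < D0 := by rw [hD0e]; linarith
  have hD0δ : D0 < δ := by
    have := min_le_left δ R
    rw [hD0e]; linarith
  have hτp : 0 < τ0 := by positivity
  have hτ1 : τ0 < 1 := by
    have := min_le_right δ R
    rw [hτ0, div_lt_one (by positivity)]; linarith
  -- radial points
  set τ : ℕ → ℝ := fun k => τ0 * (1 / 2) ^ k with hτ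
  have hτkp : ∀ k, 0 < τ k := fun k => by simp only [hτ]; positivity
  have hτk1 : ∀ k, τ k ≤ τ0 := fun k => by
    simp only [hτ]
    have : ((1 : ℝ) / 2) ^ k ≤ 1 := pow_le_one₀ (by norm_num) (by norm_num)
    nlinarith
  have hτs : ∀ k, τ (k + 1) = τ k / 2 := fun k => by simp only [hτ]; ring
  set u : ℕ → ℂ := fun k => ((1 - τ k : ℝ) : ℂ) * w1 with hu
  have hud : ∀ k, u k - w1 = ((-τ k : ℝ) : ℂ) * w1 := fun k => by
    simp only [hu]; push_cast; ring
  have hun : ∀ k, ‖u k - w1‖ = τ k * R := fun k => by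
    rw [hud, norm_mul, Complex.norm_real, norm_neg, Real.norm_of_nonneg (hτkp k).le, hw1]
  have huR : ∀ k, u k ∈ ball (0 : ℂ) R := fun k => by
    have h1 := hτk1 k
    have h2 := hτkp k
    simp only [hu]
    rw [mem_ball_zero_iff, norm_mul, Complex.norm_real, Real.norm_of_nonneg (by linarith), hw1]
    nlinarith
  have huδ : ∀ k, ‖u k - w1‖ < δ := fun k => by
    rw [hun]
    have h1 := hτk1 k
    nlinarith
  obtain ⟨K, hK⟩ := exists_nat_ge (8 / δ + 1)
  have hKδ : 8 ≤ K * δ := by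
    have h1 : 8 / δ ≤ K := by linarith
    rwa [div_le_iff₀ hδ] at h1
  have hK1 : 1 ≤ K := by
    have : (1 : ℝ) ≤ K := by
      have : 0 < 8 / δ := by positivity
      linarith
    exact_mod_cast this
  -- consecutive radial points
  have hstep : ∀ k, ‖E (u k) - E (u (k + 1))‖ ≤ K := by
    intro k
    refine seg_step hδ hE (huR (k + 1)) (huR k) (huδ (k + 1)) (huδ k)
      (d0 := τ (k + 1) * R) (mul_pos (hτkp _) hR) ?_ hK1 ?_
    · intro s hs0 hs1
      have e : ((1 - s : ℝ) : ℂ) * u (k + 1) + (s : ℂ) * u k - w1 =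
          ((-((1 - s) * τ (k + 1) + s * τ k) : ℝ) : ℂ) * w1 := by
        simp only [hu]; push_cast; ring
      have h1 := hτkp k
      have h2 := hτs k
      have h3 : τ (k + 1) ≤ (1 - s) * τ (k + 1) + s * τ k := by nlinarith
      rw [e, norm_mul, Complex.norm_real, norm_neg, hw1,
        Real.norm_of_nonneg (by nlinarith [hτkp (k + 1)])]
      gcongr
    · have e : u k - u (k + 1) = ((-(τ k - τ (k + 1)) : ℝ) : ℂ) * w1 := by
        simp only [hu]; push_cast; ring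
      have h1 := hτkp k
      have h2 := hτs k
      rw [e, norm_mul, Complex.norm_real, norm_neg, hw1, Real.norm_of_nonneg (by linarith)]
      have h3 : τ k - τ (k + 1) = τ (k + 1) := by linarith
      rw [h3]
      have h4 : 0 < τ (k + 1) * R := mul_pos (hτkp _) hR
      nlinarith
  have hrad : ∀ k : ℕ, ‖E (u k)‖ ≤ ‖E (u 0)‖ + k * K := by
    intro k
    induction k with
    | zero => simp
    | succ k ih =>
      have h1 := hstep k
      have h2 : ‖E (u (k + 1))‖ ≤ ‖E (u k)‖ + ‖E (u k) - E (u (k + 1))‖ := by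
        calc ‖E (u (k + 1))‖ = ‖E (u k) - (E (u k) - E (u (k + 1)))‖ := by ring_nf
          _ ≤ _ := norm_sub_le _ _
      push_cast
      linarith
  -- general points
  have hgen : ∀ w ∈ ball (0 : ℂ) R, ∀ k : ℕ, τ k * R / 2 ≤ ‖w - w1‖ → ‖w - w1‖ ≤ τ k * R →
      ‖w - w1‖ < δ → ‖E w‖ ≤ ‖E (u 0)‖ + (k + 1) * K := by
    intro w hw k h1 h2 h3
    have hτR : 0 < τ k * R := mul_pos (hτkp k) hR
    have hstep2 : ‖E (u k) - E w‖ ≤ K := by
      refine seg_step hδ hE hw (huR k) h3 (huδ k) (d0 := τ k * R / 4) (by linarith) ?_ hK1 ?_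
      · intro s hs0 hs1
        have e : ((1 - s : ℝ) : ℂ) * w + (s : ℂ) * u k - w1 =
            ((1 - s : ℝ) : ℂ) * (w - w1) + (s : ℂ) * (u k - w1) := by
          push_cast; ring
        rw [e]
        have hip : 0 ≤ ((w - w1) * conj (u k - w1)).re := by
          rw [hud, map_mul, Complex.conj_ofReal]
          have h4 : ((w - w1) * (((-τ k : ℝ) : ℂ) * conj w1)).re =
              τ k * (((w1 - w) * conj w1).re) := by
            simp only [Complex.mul_re, Complex.sub_re, Complex.sub_im, Complex.conj_re,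
              Complex.conj_im, Complex.ofReal_re, Complex.ofReal_im, Complex.mul_im]
            ring
          rw [h4]
          refine mul_nonneg (hτkp k).le ?_
          have h5 : ((w1 - w) * conj w1).re = ‖w1‖ ^ 2 - (w * conj w1).re := by
            rw [sub_mul, Complex.sub_re, Complex.mul_conj, Complex.ofReal_re,
              Complex.normSq_eq_norm_sq]
          have h6 : (w * conj w1).re ≤ ‖w‖ * ‖w1‖ := by
            refine (Complex.re_le_norm _).trans ?_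
            rw [norm_mul, RCLike.norm_conj]
          rw [mem_ball_zero_iff] at hw
          rw [h5]
          rw [hw1] at h6 ⊢
          nlinarith [norm_nonneg w]
        have h7 : (τ k * R / 4) ^ 2 ≤
            ‖((1 - s : ℝ) : ℂ) * (w - w1) + (s : ℂ) * (u k - w1)‖ ^ 2 := by
          rw [← Complex.normSq_eq_norm_sq, Complex.normSq_add]
          have h8 : Complex.normSq (((1 - s : ℝ) : ℂ) * (w - w1)) = (1 - s) ^ 2 * ‖w - w1‖ ^ 2 := by
            rw [Complex.normSq_mul, Complex.normSq_ofReal, Complex.normSq_eq_norm_sq]; ring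
          have h9 : Complex.normSq ((s : ℂ) * (u k - w1)) = s ^ 2 * (τ k * R) ^ 2 := by
            rw [Complex.normSq_mul, Complex.normSq_ofReal, Complex.normSq_eq_norm_sq, hun]; ring
          have h10 : ((((1 - s : ℝ) : ℂ) * (w - w1)) * conj ((s : ℂ) * (u k - w1))).re =
              (1 - s) * s * ((w - w1) * conj (u k - w1)).re := by
            rw [map_mul, Complex.conj_ofReal]
            have : ((1 - s : ℝ) : ℂ) * (w - w1) * ((s : ℂ) * conj (u k - w1)) =
                (((1 - s) * s : ℝ) : ℂ) * ((w - w1) * conj (u k - w1)) := by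
              push_cast; ring
            rw [this, Complex.re_ofReal_mul]
          rw [h8, h9, h10]
          have h11 : 0 ≤ (1 - s) * s * ((w - w1) * conj (u k - w1)).re :=
            mul_nonneg (mul_nonneg (by linarith) hs0) hip
          have h12 : (τ k * R / 2) ^ 2 ≤ ‖w - w1‖ ^ 2 :=
            pow_le_pow_left₀ (by linarith) h1 2
          have h13 : (1 - s) ^ 2 * (τ k * R / 2) ^ 2 ≤ (1 - s) ^ 2 * ‖w - w1‖ ^ 2 := by gcongr
          have h14 : (τ k * R / 4) ^ 2 ≤ (1 - s) ^ 2 * (τ k * R / 2) ^ 2 + s ^ 2 * (τ k * R) ^ 2 := by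
            have h15 : 1 / 4 ≤ (1 - s) ^ 2 + 4 * s ^ 2 := by nlinarith [sq_nonneg (5 * s - 1)]
            nlinarith [sq_nonneg (τ k * R)]
          linarith
        exact (pow_le_pow_iff_left₀ (by positivity) (norm_nonneg _) two_ne_zero).1 h7
      · calc ‖u k - w‖ = ‖(u k - w1) - (w - w1)‖ := by ring_nf
          _ ≤ ‖u k - w1‖ + ‖w - w1‖ := norm_sub_le _ _
          _ ≤ 8 * (τ k * R / 4) := by rw [hun]; linarith
          _ ≤ K * δ * (τ k * R / 4) := by gcongr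
    have h5 : ‖E w‖ ≤ ‖E (u k)‖ + ‖E (u k) - E w‖ := by
      calc ‖E w‖ = ‖E (u k) - (E (u k) - E w)‖ := by ring_nf
        _ ≤ _ := norm_sub_le _ _
    have h6 := hrad k
    linarith
  -- conclusion
  intro η hη
  have hlim : Tendsto (fun k : ℕ => D0 * ((1 / 2 : ℝ) ^ k * (‖E (u 0)‖ + (k + 1) * K))) atTop
      (𝓝 0) := by
    have h1 : Tendsto (fun k : ℕ => (1 / 2 : ℝ) ^ k) atTop (𝓝 0) :=
      tendsto_pow_atTop_nhds_zero_of_lt_one (by norm_num) (by norm_num)
    have h2 : Tendsto (fun k : ℕ => (k : ℝ) * (1 / 2 : ℝ) ^ k) atTop (𝓝 0) :=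
      tendsto_self_mul_const_pow_of_lt_one (by norm_num) (by norm_num)
    have h3 := ((h1.mul_const (‖E (u 0)‖ + K)).add (h2.mul_const (K : ℝ))).const_mul D0
    simp only [zero_mul, add_zero, mul_zero] at h3
    refine h3.congr fun k => ?_
    ring
  obtain ⟨k0, hk0⟩ := eventually_atTop.1 (hlim.eventually (gt_mem_nhds hη))
  refine ⟨D0 * (1 / 2) ^ k0, by positivity, fun w hw hwd => ?_⟩
  rcases eq_or_ne w w1 with rfl | hne
  · simp [hη.le]
  have hwp : 0 < ‖w - w1‖ := norm_pos_iff.2 (sub_ne_zero.2 hne)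
  have hwD : ‖w - w1‖ ≤ D0 := by
    have : ((1 : ℝ) / 2) ^ k0 ≤ 1 := pow_le_one₀ (by norm_num) (by norm_num)
    nlinarith
  obtain ⟨k, hk1, hk2⟩ := exists_nat_pow_near_of_lt_one (x := ‖w - w1‖ / D0) (y := 1 / 2)
    (div_pos hwp hD0p) ((div_le_one hD0p).2 hwD) (by norm_num) (by norm_num)
  rw [lt_div_iff₀ hD0p] at hk1
  rw [div_le_iff₀ hD0p] at hk2
  have hkk : k0 ≤ k := by
    by_contra hcon
    push Not at hcon
    have h1 : ((1 : ℝ) / 2) ^ k0 ≤ (1 / 2) ^ (k + 1) :=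
      pow_le_pow_of_le_one (by norm_num) (by norm_num) hcon
    nlinarith
  have hτkR : τ k * R = (1 / 2) ^ k * D0 := by simp only [hτ, hD0]; ring
  have h1 := hgen w hw k (by rw [hτkR]; rw [pow_succ] at hk1; nlinarith) (by rw [hτkR]; exact hk2)
    (by linarith)
  have h2 := hk0 k hkk
  calc ‖w - w1‖ * ‖E w‖ ≤ ((1 / 2) ^ k * D0) * (‖E (u 0)‖ + (k + 1) * K) := by gcongr
    _ = D0 * ((1 / 2 : ℝ) ^ k * (‖E (u 0)‖ + (k + 1) * K)) := by ring
    _ ≤ η := h2.le

/-- The general principle. -/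
theorem principle {φ : ℂ → ℂ} {r : ℝ} (hr : 1 < r) (hφ : DifferentiableOn ℂ φ (ball 0 r))
    (hinj : InjOn φ (ball 0 r)) {lam : ℝ} (hlam : 0 < lam) (hS : Solvable (φ '' ball 0 1) lam)
    (hnd : ¬ ∃ (p : ℂ) (r0 : ℝ), 0 < r0 ∧ φ '' ball 0 1 = ball p r0)
    (h : ∀ (R : ℝ) (E : ℂ → ℂ) (w1 : ℂ), r ≤ R → DifferentiableOn ℂ E (ball 0 R) →
      (∀ w ∈ ball (0 : ℂ) r, E w = φ w) → ‖w1‖ = R → ∀ η : ℝ, 0 < η → ∃ δ > 0,
      ∀ w ∈ ball (0 : ℂ) R, ‖w - w1‖ < δ → ‖w - w1‖ * ‖E w‖ ≤ η) : False := by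
  obtain ⟨hBB, -, hrest⟩ := result φ r hr hφ hinj lam hlam hS
  rcases maximal (by linarith) hφ with ⟨E, hE, hEφ⟩ | ⟨R, E, w1, hrR, hE, hEφ, hw1, hno⟩
  · have him : E '' ball 0 1 = φ '' ball 0 1 :=
      image_congr fun w hw => hEφ w (ball_subset_ball hr.le hw)
    have hinjE : InjOn E (ball 0 r) := fun x hx y hy h => hinj hx hy (by
      rw [← hEφ x hx, ← hEφ y hy]; exact h)
    obtain ⟨-, -, h3⟩ := result E r hr hE.differentiableOn hinjE lam hlam (by rw [him]; exact hS)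
    obtain ⟨-, -, h4⟩ := h3 (by rw [him]; exact hnd)
    exact h4 fun z => (hE.analyticAt z).meromorphicAt
  · refine hno ?_
    have hR : 1 < R := by linarith
    exact of_small hlam hBB hR hw1 (fun z h1 h2 => branch_of_lt hr hrR hE hEφ h1 h2) hE
      (h R E w1 hrR hE hEφ hw1)

/-- A holomorphic function in an annulus around the unit circle that vanishes on the circle. -/
theorem annulus_zero {f : ℂ → ℂ} {R κ : ℝ} (hκ0 : 0 ≤ κ) (hκ : κ < 1) (hR : 1 < R)
    (hf : DifferentiableOn ℂ f {w : ℂ | κ < ‖w‖ ∧ ‖w‖ < R})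
    (hz : ∀ w : ℂ, ‖w‖ = 1 → f w = 0) : ∀ w : ℂ, κ < ‖w‖ → ‖w‖ < R → f w = 0 := by
  have hUo : IsOpen {w : ℂ | κ < ‖w‖ ∧ ‖w‖ < R} := (isOpen_lt continuous_const continuous_norm).inter
    (isOpen_lt continuous_norm continuous_const)
  have h1U : (1 : ℂ) ∈ {w : ℂ | κ < ‖w‖ ∧ ‖w‖ < R} := by
    constructor
    · rw [norm_one]; exact hκ
    · rw [norm_one]; exact hR
  have hfreq : ∃ᶠ z in 𝓝[≠] (1 : ℂ), f z = 0 := by
    have hder : HasDerivAt (fun θ : ℝ => Complex.exp (θ * Complex.I))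
        (Complex.exp ((0 : ℝ) * Complex.I) * Complex.I) 0 := by
      have h1 : HasDerivAt (fun θ : ℝ => (θ : ℂ) * Complex.I) (1 * Complex.I) 0 :=
        (Complex.ofRealCLM.hasDerivAt (x := (0 : ℝ))).mul_const _
      have h2 := h1.cexp
      simpa using h2
    have hne : Complex.exp ((0 : ℝ) * Complex.I) * Complex.I ≠ 0 := by simp
    have ht := hder.tendsto_nhdsNE hne
    have h01 : Complex.exp ((0 : ℝ) * Complex.I) = 1 := by simp
    rw [h01] at ht
    have hev : ∀ᶠ θ : ℝ in 𝓝[≠] (0 : ℝ), f (Complex.exp (θ * Complex.I)) = 0 :=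
      Eventually.of_forall fun θ => hz _ (Complex.norm_exp_ofReal_mul_I θ)
    exact ht.frequently hev.frequently
  have h0 := (hf.analyticOnNhd hUo).eqOn_zero_of_preconnected_of_frequently_eq_zero
    (annulus_preconnected κ R hκ0) h1U hfreq
  intro w h1 h2
  exact h0 ⟨h1, h2⟩

end Pool.Agent.Q162.Sch
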