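import Pool.Agent.Q162.Sch.Trans

/-!
Real algebraic curves of degree at most seven, and lemniscates.
-/

set_option autoImplicit false

open MeasureTheory Metric Set Filter Topology ComplexConjugate
open Pool.Agent.Results.MP_83fd13_an.BranchSingularities

namespace Pool.Agent.Q162.Sch

theorem mild_of_ne {m : ℕ} {a : ℕ → ℂ → ℂ} {z1 : ℂ} (ha : ∀ j ≤ m, ContinuousAt (a j) z1)
    (h : a m z1 ≠ 0) : MildAt m a z1 := by
  refine ⟨eventually_nhdsWithin_of_eventually_nhds ((ha m le_rfl).eventually_ne h),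
    fun j hj => ?_⟩
  have h1 : ContinuousAt (fun z => a j z / a m z * (z - z1) ^ (m - j)) z1 := by
    refine ContinuousAt.mul ((ha j hj.le).div (ha m le_rfl) h) ?_
    fun_prop
  have h2 := h1.tendsto
  have h3 : m - j ≠ 0 := by omega
  simp only [sub_self, zero_pow h3, mul_zero] at h2
  exact h2.mono_left nhdsWithin_le_nhds

theorem mild_of_deriv {m : ℕ} {a : ℕ → ℂ → ℂ} {z1 : ℂ} (hm : 1 ≤ m)
    (ha : ∀ j ≤ m, DifferentiableAt ℂ (a j) z1)
    (h0 : a m z1 = 0) (h1 : deriv (a m) z1 ≠ 0) (h2 : a (m - 1) z1 = 0) : MildAt m a z1 := by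
  have hd : HasDerivAt (a m) (deriv (a m) z1) z1 := (ha m le_rfl).hasDerivAt
  have hne : ∀ᶠ z in 𝓝[≠] z1, a m z ≠ 0 := hd.eventually_ne h1
  refine ⟨hne, fun j hj => ?_⟩
  have hslope : Tendsto (fun z => (z - z1) / a m z) (𝓝[≠] z1) (𝓝 (deriv (a m) z1)⁻¹) := by
    have h3 := (hasDerivAt_iff_tendsto_slope.1 hd).inv₀ h1
    refine h3.congr fun z => ?_
    rw [slope_def_field, inv_div, h0, sub_zero]
  have h4 : Tendsto (a j) (𝓝[≠] z1) (𝓝 (a j z1)) :=
    ((ha j hj.le).continuousAt).tendsto.mono_left nhdsWithin_le_nhds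
  have h5 : Tendsto (fun z => (z - z1) ^ (m - j - 1)) (𝓝[≠] z1) (𝓝 ((z1 - z1) ^ (m - j - 1))) := by
    have : Continuous fun z : ℂ => (z - z1) ^ (m - j - 1) := by fun_prop
    exact (this.tendsto z1).mono_left nhdsWithin_le_nhds
  have h6 := (h4.mul hslope).mul h5
  have h7 : a j z1 * (deriv (a m) z1)⁻¹ * (z1 - z1) ^ (m - j - 1) = 0 := by
    rcases Nat.eq_zero_or_pos (m - j - 1) with h | h
    · have hj1 : j = m - 1 := by omega
      rw [hj1, h2]; ring
    · rw [sub_self, zero_pow h.ne', mul_zero]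
  rw [h7] at h6
  refine h6.congr fun z => ?_
  have h8 : (z - z1) ^ (m - j) = (z - z1) * (z - z1) ^ (m - j - 1) := by
    rw [← pow_succ']; congr 1; omega
  rw [h8]
  ring

theorem hermitian_coeffs (P : MvPolynomial (Fin 2) ℝ) (d : ℕ) (hd : P.totalDegree ≤ d) :
    ∃ c : ℕ → ℕ → ℂ, (∀ j k, c k j = conj (c j k)) ∧ (∀ j k, d < j + k → c j k = 0) ∧
      ∀ z : ℂ, ((MvPolynomial.eval ![z.re, z.im] P : ℝ) : ℂ) =
        ∑ j ∈ Finset.range (d + 1), ∑ k ∈ Finset.range (d + 1), c j k * z ^ j * conj z ^ k := by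
  classical
  set L0 : MvPolynomial (Fin 2) ℂ :=
    MvPolynomial.C (1 / 2 : ℂ) * (MvPolynomial.X 0 + MvPolynomial.X 1) with hL0
  set L1 : MvPolynomial (Fin 2) ℂ :=
    MvPolynomial.C (1 / (2 * Complex.I) : ℂ) * (MvPolynomial.X 0 - MvPolynomial.X 1) with hL1
  have hdeg0 : L0.totalDegree ≤ 1 := by
    refine (MvPolynomial.totalDegree_mul _ _).trans ?_
    rw [MvPolynomial.totalDegree_C, zero_add]
    refine (MvPolynomial.totalDegree_add _ _).trans ?_
    simp [MvPolynomial.totalDegree_X]
  have hdeg1 : L1.totalDegree ≤ 1 := by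
    refine (MvPolynomial.totalDegree_mul _ _).trans ?_
    rw [MvPolynomial.totalDegree_C, zero_add]
    refine (MvPolynomial.totalDegree_sub _ _).trans ?_
    simp [MvPolynomial.totalDegree_X]
  set Q : MvPolynomial (Fin 2) ℂ :=
    ∑ s ∈ P.support, MvPolynomial.C ((P.coeff s : ℝ) : ℂ) * L0 ^ (s 0) * L1 ^ (s 1) with hQ
  have hQdeg : Q.totalDegree ≤ d := by
    refine MvPolynomial.totalDegree_finsetSum_le fun s hs => ?_
    have h1 : s 0 + s 1 ≤ d := by
      have := MvPolynomial.le_totalDegree hs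
      rw [Finsupp.sum_fintype _ _ (fun _ => rfl), Fin.sum_univ_two] at this
      exact this.trans hd
    refine (MvPolynomial.totalDegree_mul _ _).trans ?_
    have h2 := MvPolynomial.totalDegree_mul (MvPolynomial.C ((P.coeff s : ℝ) : ℂ)) (L0 ^ (s 0))
    rw [MvPolynomial.totalDegree_C, zero_add] at h2
    have h3 := MvPolynomial.totalDegree_pow L0 (s 0)
    have h4 := MvPolynomial.totalDegree_pow L1 (s 1)
    have h5 : s 0 * L0.totalDegree ≤ s 0 * 1 := Nat.mul_le_mul_left _ hdeg0
    have h6 : s 1 * L1.totalDegree ≤ s 1 * 1 := Nat.mul_le_mul_left _ hdeg1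
    omega
  have hQeval : ∀ z : ℂ, MvPolynomial.eval ![z, conj z] Q =
      ((MvPolynomial.eval ![z.re, z.im] P : ℝ) : ℂ) := by
    intro z
    have e0 : MvPolynomial.eval ![z, conj z] L0 = (z.re : ℂ) := by
      rw [Complex.re_eq_add_conj]
      simp [hL0]
      ring
    have e1 : MvPolynomial.eval ![z, conj z] L1 = (z.im : ℂ) := by
      rw [Complex.im_eq_sub_conj]
      simp [hL1]
      field_simp
      rw [Complex.I_sq]
      ring
    rw [hQ, map_sum, MvPolynomial.eval_eq', Complex.ofReal_sum]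
    refine Finset.sum_congr rfl fun s _ => ?_
    rw [map_mul, map_mul, map_pow, map_pow, e0, e1, MvPolynomial.eval_C, Fin.prod_univ_two]
    push_cast
    ring_nf
  set e : ℕ × ℕ → (Fin 2 →₀ ℕ) := fun p => Finsupp.single 0 p.1 + Finsupp.single 1 p.2 with he
  have he0 : ∀ p, e p 0 = p.1 := fun p => by simp [he]
  have he1 : ∀ p, e p 1 = p.2 := fun p => by simp [he]
  have heinj : Function.Injective e := by
    intro p q h
    have h0 := DFunLike.congr_fun h 0
    have h1 := DFunLike.congr_fun h 1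
    rw [he0, he0] at h0
    rw [he1, he1] at h1
    exact Prod.ext h0 h1
  have hes : ∀ s : Fin 2 →₀ ℕ, e (s 0, s 1) = s := by
    intro s
    ext i
    fin_cases i
    · simpa using he0 (s 0, s 1)
    · simpa using he1 (s 0, s 1)
  set c0 : ℕ → ℕ → ℂ := fun j k => Q.coeff (e (j, k)) with hc0
  have hc0v : ∀ j k, d < j + k → c0 j k = 0 := by
    intro j k hjk
    refine MvPolynomial.coeff_eq_zero_of_totalDegree_lt ?_
    have h1 : ∑ i ∈ (e (j, k)).support, (e (j, k)) i = j + k := by
      have h2 : (e (j, k)).sum (fun _ x => x) = j + k := by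
        rw [Finsupp.sum_fintype _ _ (fun _ => rfl), Fin.sum_univ_two, he0, he1]
      exact h2
    rw [h1]
    omega
  have hsum : ∀ z ζ : ℂ, MvPolynomial.eval ![z, ζ] Q =
      ∑ j ∈ Finset.range (d + 1), ∑ k ∈ Finset.range (d + 1), c0 j k * z ^ j * ζ ^ k := by
    intro z ζ
    rw [MvPolynomial.eval_eq', ← Finset.sum_product']
    set g : (Fin 2 →₀ ℕ) → ℂ := fun s => Q.coeff s * ∏ i, ![z, ζ] i ^ s i with hg
    have h1 : ∑ p ∈ Finset.range (d + 1) ×ˢ Finset.range (d + 1), c0 p.1 p.2 * z ^ p.1 * ζ ^ p.2 =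
        ∑ p ∈ Finset.range (d + 1) ×ˢ Finset.range (d + 1), g (e p) := by
      refine Finset.sum_congr rfl fun p _ => ?_
      simp only [hg, hc0, Fin.prod_univ_two, he0, he1, Matrix.cons_val_zero, Matrix.cons_val_one]
      ring
    rw [h1, ← Finset.sum_image (f := g) (fun p _ q _ h => heinj h)]
    refine Finset.sum_subset ?_ ?_
    · intro s hs
      rw [Finset.mem_image]
      refine ⟨(s 0, s 1), ?_, hes s⟩
      have h2 : s 0 + s 1 ≤ d := by
        have := MvPolynomial.le_totalDegree hs
        rw [Finsupp.sum_fintype _ _ (fun _ => rfl), Fin.sum_univ_two] at this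
        exact this.trans hQdeg
      rw [Finset.mem_product, Finset.mem_range, Finset.mem_range]
      constructor <;> simp only <;> omega
    · intro s _ hs
      have h2 : Q.coeff s = 0 := by
        rwa [MvPolynomial.notMem_support_iff] at hs
      simp only [h2, zero_mul]
  refine ⟨fun j k => (c0 j k + conj (c0 k j)) / 2, ?_, ?_, ?_⟩
  · intro j k
    simp only [map_div₀, map_add, Complex.conj_conj, map_ofNat]
    ring
  · intro j k hjk
    simp only [hc0v j k hjk, hc0v k j (by omega), map_zero, add_zero, zero_div]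
  · intro z
    have h1 := hQeval z
    rw [hsum] at h1
    have h2 := congrArg conj h1
    rw [Complex.conj_ofReal, map_sum] at h2
    simp only [map_sum, map_mul, map_pow, Complex.conj_conj] at h2
    rw [Finset.sum_comm] at h2
    have h3 : ((MvPolynomial.eval ![z.re, z.im] P : ℝ) : ℂ) =
        (((MvPolynomial.eval ![z.re, z.im] P : ℝ) : ℂ) +
          ((MvPolynomial.eval ![z.re, z.im] P : ℝ) : ℂ)) / 2 := by ring
    rw [h3]
    nth_rewrite 1 [← h1]
    rw [← h2, ← Finset.sum_add_distrib, Finset.sum_div]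
    refine Finset.sum_congr rfl fun j _ => ?_
    rw [← Finset.sum_add_distrib, Finset.sum_div]
    refine Finset.sum_congr rfl fun k _ => ?_
    ring

/-- frontier points -/
theorem frontier_mem {φ : ℂ → ℂ} {r : ℝ} (hr : 1 < r) (hφ : DifferentiableOn ℂ φ (ball 0 r))
    (hinj : InjOn φ (ball 0 r)) {w : ℂ} (hw : ‖w‖ = 1) : φ w ∈ frontier (φ '' ball 0 1) := by
  have h1 : ContinuousOn φ (closure (ball (0 : ℂ) 1)) := by
    rw [closure_ball (0 : ℂ) one_ne_zero]
    exact hφ.continuousOn.mono (closedBall_subset_ball hr)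
  have h2 := h1.image_closure
  rw [closure_ball (0 : ℂ) one_ne_zero] at h2
  have hwc : w ∈ closedBall (0 : ℂ) 1 := mem_closedBall_zero_iff.2 hw.le
  refine ⟨h2 ⟨w, hwc, rfl⟩, fun hin => ?_⟩
  obtain ⟨w', hw', heq⟩ := interior_subset hin
  have hww : w' = w := hinj (ball_subset_ball hr.le hw') (closedBall_subset_ball hr hwc) heq
  rw [hww, mem_ball_zero_iff, hw] at hw'
  exact lt_irrefl _ hw'

open Polynomial in
/-- Real algebraic curves of degree at most seven. -/
theorem part2 {φ : ℂ → ℂ} {r : ℝ} (hr : 1 < r) (hφ : DifferentiableOn ℂ φ (ball 0 r))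
    (hinj : InjOn φ (ball 0 r)) {lam : ℝ} (hlam : 0 < lam) (hS : Solvable (φ '' ball 0 1) lam)
    {P : MvPolynomial (Fin 2) ℝ} (hP0 : P ≠ 0) (hP7 : P.totalDegree ≤ 7)
    (hP : ∀ z ∈ frontier (φ '' ball 0 1), MvPolynomial.eval ![z.re, z.im] P = 0) :
    ∃ (p : ℂ) (r0 : ℝ), 0 < r0 ∧ φ '' ball 0 1 = ball p r0 := by
  classical
  obtain ⟨c, hsym, hvan, hev⟩ := hermitian_coeffs P 7 hP7
  have hex : ∃ j k, c j k ≠ 0 := by
    by_contra hcon
    push Not at hcon
    apply hP0
    refine MvPolynomial.funext fun x => ?_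
    have h1 := hev (x 0 + x 1 * Complex.I)
    simp only [hcon, zero_mul, Finset.sum_const_zero] at h1
    have h2 : ![((x 0 : ℂ) + x 1 * Complex.I).re, ((x 0 : ℂ) + x 1 * Complex.I).im] = x := by
      ext i
      fin_cases i <;> simp
    rw [h2] at h1
    rw [map_zero]
    exact_mod_cast h1
  set m : ℕ := Nat.findGreatest (fun k => ∃ j, c j k ≠ 0) 7 with hm
  have hspec : ∃ j, c j m ≠ 0 := by
    obtain ⟨j, k, hjk⟩ := hex
    have hk : k ≤ 7 := by
      by_contra h
      exact hjk (hvan j k (by omega))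
    exact Nat.findGreatest_spec (P := fun k => ∃ j, c j k ≠ 0) hk ⟨j, hjk⟩
  have hm7 : m ≤ 7 := Nat.findGreatest_le 7
  have hmax : ∀ j k, m < k → c j k = 0 := by
    intro j k hk
    by_contra h
    by_cases hk7 : k ≤ 7
    · exact Nat.findGreatest_is_greatest (P := fun k => ∃ j, c j k ≠ 0) hk hk7 ⟨j, h⟩
    · exact h (hvan j k (by omega))
  have hmax' : ∀ j k, m < j → c j k = 0 := by
    intro j k hj
    rw [hsym k j, hmax k j hj, map_zero]
  set q : ℕ → ℂ[X] := fun k => ∑ j ∈ Finset.range 8, C (c j k) * X ^ j with hq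
  have hqe : ∀ k z, (q k).eval z = ∑ j ∈ Finset.range 8, c j k * z ^ j := by
    intro k z
    simp [hq, eval_finsetSum]
  have hqc : ∀ k n, (q k).coeff n = if n < 8 then c n k else 0 := by
    intro k n
    simp only [hq, finsetSum_coeff, coeff_C_mul, coeff_X_pow]
    by_cases h : n < 8
    · rw [if_pos h, Finset.sum_eq_single n]
      · simp
      · intro b _ hb
        rw [if_neg (Ne.symm hb), mul_zero]
      · intro h'
        exact absurd (Finset.mem_range.2 h) h'
    · rw [if_neg h]
      refine Finset.sum_eq_zero fun b hb => ?_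
      rw [Finset.mem_range] at hb
      rw [if_neg (by omega), mul_zero]
  have hrel : ∀ z ∈ frontier (φ '' ball 0 1),
      ∑ j ∈ Finset.range (m + 1), (q j).eval z * conj z ^ j = 0 := by
    intro z hz
    have h1 := hev z
    rw [hP z hz, Complex.ofReal_zero, Finset.sum_comm] at h1
    have h2 : ∑ k ∈ Finset.range (7 + 1), ∑ j ∈ Finset.range (7 + 1), c j k * z ^ j * conj z ^ k =
        ∑ k ∈ Finset.range (7 + 1), (q k).eval z * conj z ^ k := by
      refine Finset.sum_congr rfl fun k _ => ?_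
      rw [hqe, Finset.sum_mul]
    rw [h2] at h1
    rw [h1]
    refine Finset.sum_subset (Finset.range_subset_range.2 (by omega)) fun k _ hk => ?_
    rw [Finset.mem_range, not_lt] at hk
    rw [hqe, Finset.sum_eq_zero (fun j _ => by rw [hmax j k (by omega), zero_mul]), zero_mul]
  have hm1 : 1 ≤ m := by
    by_contra h
    have hm0 : m = 0 := by omega
    have h1 := hrel (φ 1) (frontier_mem hr hφ hinj (by simp))
    rw [hm0] at h1
    simp only [zero_add, Finset.sum_range_one, pow_zero, mul_one] at h1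
    rw [hqe] at h1
    rw [Finset.sum_eq_single 0] at h1
    · obtain ⟨j, hj⟩ := hspec
      rw [hm0] at hj
      rcases Nat.eq_zero_or_pos j with h0 | h0
      · rw [h0] at hj
        exact hj (by simpa using h1)
      · exact hj (hmax' j 0 (by omega))
    · intro b _ hb
      rw [hmax' b 0 (by omega), zero_mul]
    · intro h'
      exact absurd (Finset.mem_range.2 (by norm_num)) h'
  have hqm0 : q m ≠ 0 := by
    obtain ⟨j, hj⟩ := hspec
    intro h0
    have h1 := hqc m j
    rw [h0, coeff_zero] at h1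
    have h2 : j < 8 := by
      by_contra h
      exact hj (hvan j m (by omega))
    rw [if_pos h2] at h1
    exact hj h1.symm
  have hqdeg : (q m).natDegree ≤ 3 := by
    rw [natDegree_le_iff_coeff_eq_zero]
    intro n hn
    rw [hqc]
    split_ifs with h
    · by_cases h2 : m < n
      · exact hmax' n m h2
      · exact hvan n m (by omega)
    · rfl
  refine part1 hr hφ hinj hlam hS hm1 (a := fun j z => (q j).eval z) isOpen_univ (subset_univ _)
    (fun j _ => (q j).differentiable.differentiableOn) hrel ?_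
  have hroot : ∀ z : ℂ, (q (m - 1)).eval z = 0 → ¬ MildAt m (fun j z => (q j).eval z) z →
      1 < (q m).rootMultiplicity z := by
    intro z h1 h2
    have h3 : (q m).eval z = 0 := by
      by_contra h
      exact h2 (mild_of_ne (fun j _ => (q j).continuous.continuousAt) h)
    have h4 : (derivative (q m)).eval z = 0 := by
      by_contra h
      refine h2 (mild_of_deriv hm1 (fun j _ => (q j).differentiable.differentiableAt) h3 ?_ h1)
      rw [Polynomial.deriv]
      exact h
    exact (one_lt_rootMultiplicity_iff_isRoot hqm0).2 ⟨h3, h4⟩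
  rintro z ⟨-, hz1, hz2⟩ z' ⟨-, hz1', hz2'⟩
  by_contra hne
  have h1 := hroot z hz1 hz2
  have h2 := hroot z' hz1' hz2'
  have h3 : (X - C z) ^ 2 ∣ q m := (pow_dvd_pow _ h1).trans (pow_rootMultiplicity_dvd _ _)
  have h4 : (X - C z') ^ 2 ∣ q m := (pow_dvd_pow _ h2).trans (pow_rootMultiplicity_dvd _ _)
  have h5 : IsCoprime ((X - C z) ^ 2) ((X - C z') ^ 2 : ℂ[X]) :=
    (isCoprime_X_sub_C_of_isUnit_sub (sub_ne_zero.2 hne).isUnit).pow
  have h6 := h5.mul_dvd h3 h4
  have h7 := natDegree_le_of_dvd h6 hqm0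
  rw [natDegree_mul (pow_ne_zero _ (X_sub_C_ne_zero _)) (pow_ne_zero _ (X_sub_C_ne_zero _)),
    natDegree_pow, natDegree_pow, natDegree_X_sub_C, natDegree_X_sub_C] at h7
  omega

open Polynomial in
/-- Lemniscates. -/
theorem part3 {φ : ℂ → ℂ} {r : ℝ} (hr : 1 < r) (hφ : DifferentiableOn ℂ φ (ball 0 r))
    (hinj : InjOn φ (ball 0 r)) {lam : ℝ} (hlam : 0 < lam) (hS : Solvable (φ '' ball 0 1) lam)
    {Q : ℂ[X]} (hQ : 1 ≤ Q.natDegree) {R : ℝ} (hR : 0 < R)
    (hQR : ∀ z ∈ frontier (φ '' ball 0 1), ‖Q.eval z‖ = R) :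
    ∃ (p : ℂ) (r0 : ℝ), 0 < r0 ∧ φ '' ball 0 1 = ball p r0 := by
  classical
  set n : ℕ := Q.natDegree with hn
  have hQ0 : Q ≠ 0 := by
    rintro rfl
    simp at hn
    omega
  have hlc : Q.coeff n ≠ 0 := by
    have : Q.leadingCoeff ≠ 0 := leadingCoeff_ne_zero.2 hQ0
    exact this
  by_cases hmul : ∃ z1 : ℂ, n ≤ Q.rootMultiplicity z1
  · obtain ⟨z1, hz1⟩ := hmul
    obtain ⟨T, hT⟩ := (pow_dvd_pow (X - C z1) hz1).trans (pow_rootMultiplicity_dvd Q z1)
    have hT0 : T ≠ 0 := by
      rintro rfl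
      rw [mul_zero] at hT
      exact hQ0 hT
    have hTd : T.natDegree = 0 := by
      have h1 := congrArg natDegree hT
      rw [natDegree_mul (pow_ne_zero _ (X_sub_C_ne_zero _)) hT0, natDegree_pow,
        natDegree_X_sub_C] at h1
      omega
    obtain ⟨t, ht⟩ := natDegree_eq_zero.1 hTd
    have ht0 : t ≠ 0 := by
      rintro rfl
      rw [map_zero] at ht
      exact hT0 ht.symm
    have heval : ∀ z, Q.eval z = (z - z1) ^ n * t := by
      intro z
      rw [hT, ← ht]
      simp
    have hcirc : ∀ w ∈ sphere (0 : ℂ) 1,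
        (conj (φ w) - conj z1) * (φ w - z1) = (((R / ‖t‖) ^ (1 / (n : ℝ)) : ℝ) : ℂ) ^ 2 := by
      intro w hw
      have h1 := hQR (φ w) (frontier_mem hr hφ hinj (mem_sphere_zero_iff_norm.1 hw))
      rw [heval, norm_mul, norm_pow] at h1
      have h2 : ‖φ w - z1‖ ^ n = R / ‖t‖ := by
        rw [eq_div_iff (norm_ne_zero_iff.2 ht0)]; exact h1
      have h3 : ‖φ w - z1‖ = (R / ‖t‖) ^ (1 / (n : ℝ)) := by
        rw [← h2, one_div, Real.pow_rpow_inv_natCast (norm_nonneg _) (by omega)]
      rw [← h3, ← map_sub, mul_comm, Complex.mul_conj, Complex.normSq_eq_norm_sq]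
      push_cast
      ring
    refine Pool.Agent.Y427.SC.geo φ r _ (conj z1) z1 hr hφ hinj ?_ hcirc
    have : 0 < (R / ‖t‖) ^ (1 / (n : ℝ)) :=
      Real.rpow_pos_of_pos (div_pos hR (norm_pos_iff.2 ht0)) _
    exact pow_ne_zero _ (by exact_mod_cast this.ne')
  · push Not at hmul
    set a : ℕ → ℂ → ℂ := fun j z =>
      conj (Q.coeff j) * Q.eval z - (if j = 0 then (R : ℂ) ^ 2 else 0) with ha
    have han : ∀ z, a n z = conj (Q.coeff n) * Q.eval z := by
      intro z
      simp only [ha]
      rw [if_neg (by omega), sub_zero]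
    have hcn : conj (Q.coeff n) ≠ 0 := (_root_.map_ne_zero _).2 hlc
    refine part1 hr hφ hinj hlam hS hQ (a := a) isOpen_univ (subset_univ _) ?_ ?_ ?_
    · intro j _
      exact ((Q.differentiable.const_mul _).sub_const _).differentiableOn
    · intro z hz
      have h1 := hQR z hz
      have h2 : Q.eval z * conj (Q.eval z) = (R : ℂ) ^ 2 := by
        rw [Complex.mul_conj, Complex.normSq_eq_norm_sq, h1]
        push_cast
        ring
      have h3 : conj (Q.eval z) = ∑ j ∈ Finset.range (n + 1), conj (Q.coeff j) * conj z ^ j := by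
        rw [eval_eq_sum_range, map_sum]
        refine Finset.sum_congr rfl fun j _ => ?_
        rw [map_mul, map_pow]
      have h4 : ∑ j ∈ Finset.range (n + 1), a j z * conj z ^ j =
          Q.eval z * ∑ j ∈ Finset.range (n + 1), conj (Q.coeff j) * conj z ^ j - (R : ℂ) ^ 2 := by
        simp only [ha, sub_mul, Finset.sum_sub_distrib]
        congr 1
        · rw [Finset.mul_sum]
          refine Finset.sum_congr rfl fun j _ => ?_
          ring
        · rw [Finset.sum_eq_single 0]
          · simp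
          · intro b _ hb
            rw [if_neg hb, zero_mul]
          · intro h'
            exact absurd (Finset.mem_range.2 (by omega)) h'
      rw [h4, ← h3, h2, sub_self]
    · have hall : ∀ z1 : ℂ, MildAt n a z1 := by
        intro z1
        have hk := hmul z1
        set k : ℕ := Q.rootMultiplicity z1 with hkdef
        obtain ⟨T, hT⟩ := pow_rootMultiplicity_dvd Q z1
        rw [← hkdef] at hT
        have hT1 : T.eval z1 ≠ 0 := by
          intro h0
          have h1 : (X - C z1) ^ (k + 1) ∣ Q := by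
            obtain ⟨T', hT'⟩ := dvd_iff_isRoot.2 h0
            refine ⟨T', ?_⟩
            rw [hT, hT', pow_succ, mul_assoc]
          have h2 := (le_rootMultiplicity_iff hQ0).2 h1
          omega
        have hQev : ∀ z, Q.eval z = (z - z1) ^ k * T.eval z := by
          intro z
          nth_rewrite 1 [hT]
          simp
        have hTne : ∀ᶠ z in 𝓝[≠] z1, T.eval z ≠ 0 :=
          eventually_nhdsWithin_of_eventually_nhds (T.continuous.continuousAt.eventually_ne hT1)
        have hne : ∀ᶠ z in 𝓝[≠] z1, z - z1 ≠ 0 := by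
          filter_upwards [self_mem_nhdsWithin] with z hz
          exact sub_ne_zero.2 hz
        have hQne : ∀ᶠ z in 𝓝[≠] z1, Q.eval z ≠ 0 := by
          filter_upwards [hTne, hne] with z h1 h2
          rw [hQev]
          exact mul_ne_zero (pow_ne_zero _ h2) h1
        have hpow : ∀ i : ℕ, i ≠ 0 → Tendsto (fun z : ℂ => (z - z1) ^ i) (𝓝[≠] z1) (𝓝 0) := by
          intro i hi
          have h1 : Continuous fun z : ℂ => (z - z1) ^ i := by fun_prop
          have h2 := h1.tendsto z1
          rw [sub_self, zero_pow hi] at h2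
          exact h2.mono_left nhdsWithin_le_nhds
        refine ⟨?_, fun j hj => ?_⟩
        · filter_upwards [hQne] with z hz
          rw [han]
          exact mul_ne_zero hcn hz
        · by_cases hj0 : j = 0
          · subst hj0
            have h1 : Tendsto (fun z : ℂ => conj (Q.coeff 0) / conj (Q.coeff n) * (z - z1) ^ n -
                (R : ℂ) ^ 2 / conj (Q.coeff n) * ((z - z1) ^ (n - k) * (T.eval z)⁻¹)) (𝓝[≠] z1)
                (𝓝 (conj (Q.coeff 0) / conj (Q.coeff n) * 0 -
                  (R : ℂ) ^ 2 / conj (Q.coeff n) * (0 * (T.eval z1)⁻¹))) := by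
              refine Tendsto.sub ((hpow n (by omega)).const_mul _) (Tendsto.const_mul _ ?_)
              refine (hpow (n - k) (by omega)).mul ?_
              exact ((T.continuous.tendsto z1).mono_left nhdsWithin_le_nhds).inv₀ hT1
            simp only [mul_zero, zero_mul, sub_zero] at h1
            refine h1.congr' ?_
            filter_upwards [hTne, hne] with z h2 h3
            rw [han]
            simp only [ha, if_true, Nat.sub_zero]
            have h4 : (z - z1) ^ n = (z - z1) ^ (n - k) * (z - z1) ^ k := by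
              rw [← pow_add, Nat.sub_add_cancel hk.le]
            have h5 : (z - z1) ^ k ≠ 0 := pow_ne_zero _ h3
            rw [hQev, h4]
            field_simp
          · have h1 := (hpow (n - j) (by omega)).const_mul (conj (Q.coeff j) / conj (Q.coeff n))
            rw [mul_zero] at h1
            refine h1.congr' ?_
            filter_upwards [hQne] with z hz
            rw [han]
            simp only [ha, if_neg hj0, sub_zero]
            congr 1
            rw [mul_div_mul_right _ _ hz]
      rintro z ⟨-, -, hz⟩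
      exact absurd (hall z) hz

end Pool.Agent.Q162.Sch
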