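import Pool.Agent.Q162.Sch.Poly

/-!
Complex polynomials in `z` and `conj z` with a leading coefficient of degree at most three.
-/

set_option autoImplicit false

open MeasureTheory Metric Set Filter Topology ComplexConjugate
open Pool.Agent.Results.MP_83fd13_an.BranchSingularities

namespace Pool.Agent.Q162.Sch

open Polynomial in
theorem poly_data (P : MvPolynomial (Fin 2) ℂ) (hP0 : P ≠ 0)
    (hdeg : P.totalDegree ≤ P.degreeOf 1 + 3) :
    ∃ (m : ℕ) (q : ℕ → ℂ[X]),
      (∀ z ζ : ℂ, MvPolynomial.eval ![z, ζ] P =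
        ∑ j ∈ Finset.range (m + 1), (q j).eval z * ζ ^ j) ∧ q m ≠ 0 ∧ (q m).natDegree ≤ 3 := by
  classical
  set m : ℕ := P.degreeOf 1 with hm
  set q : ℕ → ℂ[X] := fun k => ∑ s ∈ P.support with s 1 = k, C (P.coeff s) * X ^ (s 0) with hq
  refine ⟨m, q, ?_, ?_, ?_⟩
  · intro z ζ
    rw [MvPolynomial.eval_eq']
    have h1 := Finset.sum_fiberwise_of_maps_to (s := P.support) (t := Finset.range (m + 1))
      (g := fun s : Fin 2 →₀ ℕ => s 1) (by
        intro s hs
        rw [Finset.mem_range]
        have := MvPolynomial.monomial_le_degreeOf 1 hs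
        omega) (fun s => P.coeff s * ∏ i, ![z, ζ] i ^ s i)
    rw [← h1]
    refine Finset.sum_congr rfl fun k _ => ?_
    simp only [hq]
    rw [eval_finsetSum, Finset.sum_mul]
    refine Finset.sum_congr rfl fun s hs => ?_
    rw [Finset.mem_filter] at hs
    rw [Fin.prod_univ_two, eval_mul, eval_C, eval_pow, eval_X]
    simp only [Matrix.cons_val_zero, Matrix.cons_val_one]
    rw [hs.2]
    ring
  · have hne : P.support.Nonempty := by
      rw [Finset.nonempty_iff_ne_empty]
      intro h
      exact hP0 (MvPolynomial.support_eq_empty.1 h)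
    obtain ⟨s0, hs0, hs0m⟩ : ∃ s ∈ P.support, s 1 = m := by
      obtain ⟨s, hs, hsup⟩ := Finset.exists_mem_eq_sup P.support hne (fun s => s 1)
      refine ⟨s, hs, ?_⟩
      rw [hm, MvPolynomial.degreeOf_eq_sup]
      exact hsup.symm
    intro h0
    have h1 : (q m).coeff (s0 0) = P.coeff s0 := by
      simp only [hq, finsetSum_coeff, coeff_C_mul, coeff_X_pow]
      rw [Finset.sum_eq_single s0]
      · simp
      · intro s hs hne'
        rw [Finset.mem_filter] at hs
        rw [if_neg, mul_zero]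
        intro h2
        apply hne'
        ext i
        fin_cases i
        · exact h2.symm
        · show s 1 = s0 1
          rw [hs.2, hs0m]
      · intro h2
        exact absurd (Finset.mem_filter.2 ⟨hs0, hs0m⟩) h2
    rw [h0, coeff_zero] at h1
    exact (MvPolynomial.mem_support_iff.1 hs0) h1.symm
  · refine natDegree_sum_le_of_forall_le _ _ fun s hs => ?_
    rw [Finset.mem_filter] at hs
    have h1 : s 0 + s 1 ≤ P.totalDegree := by
      have := MvPolynomial.le_totalDegree hs.1
      rw [Finsupp.sum_fintype _ _ (fun _ => rfl), Fin.sum_univ_two] at this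
      exact this
    have h2 := natDegree_C_mul_X_pow_le (P.coeff s) (s 0)
    omega

open Polynomial in
/-- the exceptional set of a relation with a leading coefficient of degree at most three -/
theorem bad_small {m : ℕ} {q : ℕ → ℂ[X]} (hqm0 : q m ≠ 0) (hqdeg : (q m).natDegree ≤ 3)
    {a : ℕ → ℂ → ℂ} (ha0 : ∀ z, a 0 z = 0) (ha : ∀ j z, a (j + 1) z = (q j).eval z) (S : Set ℂ) :
    {z : ℂ | z ∈ S ∧ a (m + 1 - 1) z = 0 ∧ ¬ MildAt (m + 1) a z}.Subsingleton := by
  have had : ∀ j z, DifferentiableAt ℂ (a j) z := by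
    intro j z
    rcases j with _ | j
    · have : a 0 = fun _ => 0 := funext ha0
      rw [this]
      exact differentiableAt_const _
    · have : a (j + 1) = fun z => (q j).eval z := funext (ha j)
      rw [this]
      exact (q j).differentiable z
  have hroot : ∀ z : ℂ, a (m + 1 - 1) z = 0 → ¬ MildAt (m + 1) a z →
      1 < (q m).rootMultiplicity z := by
    intro z h1 h2
    have h3 : (q m).eval z = 0 := by
      by_contra h
      exact h2 (mild_of_ne (fun j _ => (had j z).continuousAt) (by rw [ha]; exact h))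
    have h4 : (derivative (q m)).eval z = 0 := by
      by_contra h
      refine h2 (mild_of_deriv (by omega) (fun j _ => had j z) (by rw [ha]; exact h3) ?_ h1)
      have : a (m + 1) = fun z => (q m).eval z := funext (ha m)
      rw [this, Polynomial.deriv]
      exact h
    exact (one_lt_rootMultiplicity_iff_isRoot hqm0).2 ⟨h3, h4⟩
  rintro z ⟨-, hz1, hz2⟩ z' ⟨-, hz1', hz2'⟩
  by_contra hne
  have h1 := hroot z hz1 hz2
  have h2 := hroot z' hz1' hz2'
  have h3 : (X - C z) ^ 2 ∣ q m := (pow_dvd_pow _ h1).trans (pow_rootMultiplicity_dvd _ _)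
  have h4 : (X - C z') ^ 2 ∣ q m := (pow_dvd_pow _ h2).trans (pow_rootMultiplicity_dvd _ _)
  have h5 : IsCoprime ((X - C z) ^ 2) ((X - C z') ^ 2 : ℂ[X]) :=
    (isCoprime_X_sub_C_of_isUnit_sub (sub_ne_zero.2 hne).isUnit).pow
  have h6 := h5.mul_dvd h3 h4
  have h7 := natDegree_le_of_dvd h6 hqm0
  rw [natDegree_mul (pow_ne_zero _ (X_sub_C_ne_zero _)) (pow_ne_zero _ (X_sub_C_ne_zero _)),
    natDegree_pow, natDegree_pow, natDegree_X_sub_C, natDegree_X_sub_C] at h7
  omega

/-- the shifted coefficients -/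
noncomputable def shift (q : ℕ → Polynomial ℂ) : ℕ → ℂ → ℂ
  | 0 => fun _ => 0
  | j + 1 => fun z => (q j).eval z

theorem shift_diff (q : ℕ → Polynomial ℂ) (j : ℕ) : Differentiable ℂ (shift q j) := by
  rcases j with _ | j
  · exact differentiable_const _
  · exact (q j).differentiable

theorem shift_sum (q : ℕ → Polynomial ℂ) (m : ℕ) (z ζ : ℂ) :
    ∑ j ∈ Finset.range (m + 1 + 1), shift q j z * ζ ^ j =
      ζ * ∑ j ∈ Finset.range (m + 1), (q j).eval z * ζ ^ j := by
  rw [Finset.sum_range_succ', Finset.mul_sum]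
  simp only [shift, zero_mul, add_zero]
  refine Finset.sum_congr rfl fun j _ => ?_
  ring

/-- complex polynomials in `z`, `conj z` on the boundary of `Ω` -/
theorem partC {φ : ℂ → ℂ} {r : ℝ} (hr : 1 < r) (hφ : DifferentiableOn ℂ φ (ball 0 r))
    (hinj : InjOn φ (ball 0 r)) {lam : ℝ} (hlam : 0 < lam) (hS : Solvable (φ '' ball 0 1) lam)
    {P : MvPolynomial (Fin 2) ℂ} (hP0 : P ≠ 0) (hdeg : P.totalDegree ≤ P.degreeOf 1 + 3)
    (hP : ∀ z ∈ frontier (φ '' ball 0 1), MvPolynomial.eval ![z, conj z] P = 0) :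
    ∃ (p : ℂ) (r0 : ℝ), 0 < r0 ∧ φ '' ball 0 1 = ball p r0 := by
  obtain ⟨m, q, hev, hq0, hqd⟩ := poly_data P hP0 hdeg
  refine part1 hr hφ hinj hlam hS (m := m + 1) (by omega) (a := shift q) isOpen_univ
    (subset_univ _) (fun j _ => (shift_diff q j).differentiableOn) ?_
    (bad_small hq0 hqd (fun _ => rfl) (fun _ _ => rfl) _)
  intro z hz
  rw [shift_sum, ← hev, hP z hz, mul_zero]

end Pool.Agent.Q162.Sch
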