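import Pool.Agent.Q162.Sch.Green10
import Pool.Agent.Q162.Sch.PolyB

/-!
Complex polynomials in `z` and `conj z` with a leading coefficient of degree at most three:
the boundary of the image of the unit disc.
-/

set_option autoImplicit false

open MeasureTheory Metric Set Filter Topology ComplexConjugate
open Pool.Agent.Results.MP_83fd13_an.BranchSingularities

namespace Pool.Agent.Q162.Sch

theorem zero_of_sq {z : ℂ} (h : z.re ^ 2 + z.im ^ 2 = 0) : z = 0 := by
  have h5 : z.re = 0 := by nlinarith [sq_nonneg z.re, sq_nonneg z.im]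
  have h6 : z.im = 0 := by nlinarith [sq_nonneg z.re, sq_nonneg z.im]
  exact Complex.ext h5 h6

theorem eval_conj_analytic (P : MvPolynomial (Fin 2) ℂ) (z : ℂ) :
    AnalyticAt ℝ (fun z : ℂ => MvPolynomial.eval ![z, conj z] P) z := by
  induction P using MvPolynomial.induction_on with
  | C a => simpa using analyticAt_const
  | add p q hp hq =>
    simp only [map_add]
    exact hp.fun_add hq
  | mul_X p i hp =>
    have hX : AnalyticAt ℝ (fun z : ℂ => (![z, conj z] : Fin 2 → ℂ) i) z := by
      fin_cases i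
      · exact analyticAt_id
      · exact Complex.conjCLE.toContinuousLinearMap.analyticAt z
    simp only [map_mul, MvPolynomial.eval_X]
    exact hp.fun_mul hX

/-- complex polynomials in `z`, `conj z` on the boundary of `W` -/
theorem partC_level {f F : ℂ → ℂ} {R t lam : ℝ} (hf : DifferentiableOn ℂ f (ball 0 1))
    (hinj : InjOn f (ball 0 1)) (hR : 1 < R) (hF : DifferentiableOn ℂ F (ball 0 R))
    (hFf : ∀ v ∈ ball (0 : ℂ) 1, F v = f v) (ht : 0 < t) (ht1 : t < 1) (hlam : 0 < lam)
    (hS : Solvable (f '' ball 0 t) lam)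
    {P : MvPolynomial (Fin 2) ℂ} (hP0 : P ≠ 0) (hdeg : P.totalDegree ≤ P.degreeOf 1 + 3)
    (hP : ∀ z ∈ frontier (f '' ball 0 1), MvPolynomial.eval ![z, conj z] P = 0) :
    ∃ (p : ℂ) (r0 : ℝ), 0 < r0 ∧ f '' ball 0 t = ball p r0 := by
  obtain ⟨m, q, hev, hq0, hqd⟩ := poly_data P hP0 hdeg
  refine part1_level hf hinj hR hF hFf ht ht1 hlam hS (m := m + 1) (by omega) (a := shift q)
    isOpen_univ (subset_univ _) (fun j _ => (shift_diff q j).differentiableOn) ?_
    (bad_small hq0 hqd (fun _ => rfl) (fun _ _ => rfl) _)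
  intro z hz
  rw [shift_sum, ← hev, hP z hz, mul_zero]

end Pool.Agent.Q162.Sch
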