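import Pool.Agent.Q162.Sch.PolyB

/-!
Real polynomials the top degree part of which is not divisible by `(x ^ 2 + y ^ 2) ^ 4`.
-/

set_option autoImplicit false

open Metric Set ComplexConjugate
open Pool.Agent.Results.MP_83fd13_an.BranchSingularities

namespace Pool.Agent.Q162.Sch

open MvPolynomial

/-- `x = (z + conj z) / 2` and `y = (z - conj z) / (2 i)` -/
noncomputable def lin : Fin 2 → MvPolynomial (Fin 2) ℂ :=
  ![C (1 / 2 : ℂ) * (X 0 + X 1), C (1 / (2 * Complex.I) : ℂ) * (X 0 - X 1)]

/-- the substitution -/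
noncomputable def toC : MvPolynomial (Fin 2) ℝ →+* MvPolynomial (Fin 2) ℂ :=
  eval₂Hom (C.comp Complex.ofRealHom) lin

/-- the inverse substitution -/
noncomputable def fromC : MvPolynomial (Fin 2) ℂ →+* MvPolynomial (Fin 2) ℂ :=
  eval₂Hom C ![X 0 + C Complex.I * X 1, X 0 - C Complex.I * X 1]

theorem toC_C (r : ℝ) : toC (C r) = C (r : ℂ) := by simp [toC]

theorem toC_X0 : toC (X 0) = C (1 / 2 : ℂ) * (X 0 + X 1) := by simp [toC, lin]

theorem toC_X1 : toC (X 1) = C (1 / (2 * Complex.I) : ℂ) * (X 0 - X 1) := by simp [toC, lin]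

theorem fromC_toC (p : MvPolynomial (Fin 2) ℝ) : fromC (toC p) = map Complex.ofRealHom p := by
  have h : fromC.comp toC = map Complex.ofRealHom := by
    refine MvPolynomial.ringHom_ext ?_ ?_
    · intro r
      rw [RingHom.comp_apply, toC_C]
      simp [fromC]
    · intro i
      rw [RingHom.comp_apply]
      fin_cases i
      · show fromC (toC (X 0)) = map Complex.ofRealHom (X 0)
        rw [toC_X0, map_X]
        simp only [fromC, map_mul, map_add, coe_eval₂Hom, eval₂_C, eval₂_X,
          Matrix.cons_val_zero, Matrix.cons_val_one]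
        have : (X 0 + C Complex.I * X 1 + (X 0 - C Complex.I * X 1) : MvPolynomial (Fin 2) ℂ) =
            C 2 * X 0 := by
          rw [show (C 2 : MvPolynomial (Fin 2) ℂ) = 2 from rfl]; ring
        rw [this, ← mul_assoc, ← C_mul]
        norm_num
      · show fromC (toC (X 1)) = map Complex.ofRealHom (X 1)
        rw [toC_X1, map_X]
        simp only [fromC, map_mul, map_sub, coe_eval₂Hom, eval₂_C, eval₂_X,
          Matrix.cons_val_zero, Matrix.cons_val_one]
        have : (X 0 + C Complex.I * X 1 - (X 0 - C Complex.I * X 1) : MvPolynomial (Fin 2) ℂ) =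
            C (2 * Complex.I) * X 1 := by
          rw [C_mul, show (C 2 : MvPolynomial (Fin 2) ℂ) = 2 from rfl]; ring
        rw [this, ← mul_assoc, ← C_mul, one_div, inv_mul_cancel₀ (by simp), C_1, one_mul]
  exact DFunLike.congr_fun h p

theorem eval_toC (p : MvPolynomial (Fin 2) ℝ) (z : ℂ) :
    eval ![z, conj z] (toC p) = ((eval ![z.re, z.im] p : ℝ) : ℂ) := by
  have h : (eval ![z, conj z]).comp toC = Complex.ofRealHom.comp (eval ![z.re, z.im]) := by
    refine MvPolynomial.ringHom_ext ?_ ?_
    · intro r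
      rw [RingHom.comp_apply, toC_C]
      simp
    · intro i
      rw [RingHom.comp_apply]
      fin_cases i
      · show eval ![z, conj z] (toC (X 0)) = _
        rw [toC_X0]
        simp
        rw [Complex.re_eq_add_conj]
        ring
      · show eval ![z, conj z] (toC (X 1)) = _
        rw [toC_X1]
        simp
        rw [Complex.im_eq_sub_conj]
        field_simp
        try rw [Complex.I_sq]
        try ring
  exact DFunLike.congr_fun h p

/-- `toC p` is Hermitian -/
theorem toC_herm (p : MvPolynomial (Fin 2) ℝ) :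
    rename (Equiv.swap (0 : Fin 2) 1) (map (starRingEnd ℂ) (toC p)) = toC p := by
  have h : ((rename (Equiv.swap (0 : Fin 2) 1)).toRingHom.comp
      (map (starRingEnd ℂ))).comp toC = toC := by
    refine MvPolynomial.ringHom_ext ?_ ?_
    · intro r
      rw [RingHom.comp_apply, RingHom.comp_apply, toC_C, map_C, Complex.conj_ofReal]
      exact rename_C _ _
    · intro i
      rw [RingHom.comp_apply, RingHom.comp_apply]
      fin_cases i
      · show (rename (Equiv.swap (0 : Fin 2) 1)) (map (starRingEnd ℂ) (toC (X 0))) = toC (X 0)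
        rw [toC_X0]
        simp only [map_mul, map_C, map_add, map_X, rename_X, rename_C, Equiv.swap_apply_left,
          Equiv.swap_apply_right, map_div₀, map_one, map_ofNat]
        rw [add_comm (X 1 : MvPolynomial (Fin 2) ℂ)]
      · show (rename (Equiv.swap (0 : Fin 2) 1)) (map (starRingEnd ℂ) (toC (X 1))) = toC (X 1)
        rw [toC_X1]
        simp only [map_mul, map_C, map_sub, map_X, rename_X, rename_C, Equiv.swap_apply_left,
          Equiv.swap_apply_right, map_div₀, map_one, map_ofNat, Complex.conj_I]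
        rw [mul_neg, div_neg, C_neg]
        ring
  exact DFunLike.congr_fun h p

theorem toC_coeff_swap (p : MvPolynomial (Fin 2) ℝ) (s : Fin 2 →₀ ℕ) :
    (toC p).coeff (s.mapDomain (Equiv.swap (0 : Fin 2) 1)) = conj ((toC p).coeff s) := by
  nth_rewrite 1 [← toC_herm p]
  rw [coeff_rename_mapDomain _ (Equiv.swap (0 : Fin 2) 1).injective, coeff_map]

theorem lin_hom (i : Fin 2) : (lin i).IsHomogeneous 1 := by
  fin_cases i
  · show (C (1 / 2 : ℂ) * (X 0 + X 1) : MvPolynomial (Fin 2) ℂ).IsHomogeneous 1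
    exact ((isHomogeneous_X ℂ 0).add (isHomogeneous_X ℂ 1)).C_mul _
  · show (C (1 / (2 * Complex.I) : ℂ) * (X 0 - X 1) : MvPolynomial (Fin 2) ℂ).IsHomogeneous 1
    exact ((isHomogeneous_X ℂ 0).sub (isHomogeneous_X ℂ 1)).C_mul _

theorem toC_hom {p : MvPolynomial (Fin 2) ℝ} {k : ℕ} (hp : p.IsHomogeneous k) :
    (toC p).IsHomogeneous k := by
  have := hp.eval₂ (C.comp Complex.ofRealHom) lin (fun r => isHomogeneous_C _ _) lin_hom
  rwa [one_mul] at this

/-- real and imaginary part of a polynomial -/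
theorem re_im (V : MvPolynomial (Fin 2) ℂ) : ∃ A B : MvPolynomial (Fin 2) ℝ,
    V = map Complex.ofRealHom A + C Complex.I * map Complex.ofRealHom B := by
  induction V using MvPolynomial.induction_on with
  | C a =>
    refine ⟨C a.re, C a.im, ?_⟩
    rw [map_C, map_C, ← C_mul, ← C_add]
    congr 1
    simp only [Complex.ofRealHom_eq_coe]
    rw [mul_comm, Complex.re_add_im]
  | add p q hp hq =>
    obtain ⟨A, B, h⟩ := hp
    obtain ⟨A', B', h'⟩ := hq
    refine ⟨A + A', B + B', ?_⟩
    rw [h, h', map_add, map_add]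
    ring
  | mul_X p i hp =>
    obtain ⟨A, B, h⟩ := hp
    refine ⟨A * X i, B * X i, ?_⟩
    rw [h, map_mul, map_mul, map_X]
    ring

theorem real_dvd {D T : MvPolynomial (Fin 2) ℝ}
    (h : map Complex.ofRealHom D ∣ map Complex.ofRealHom T) : D ∣ T := by
  obtain ⟨V, hV⟩ := h
  obtain ⟨A, B, hAB⟩ := re_im V
  refine ⟨A, ?_⟩
  have h1 : map Complex.ofRealHom (T - D * A) = C Complex.I * map Complex.ofRealHom (D * B) := by
    rw [map_sub, hV, hAB, map_mul, map_mul]
    ring
  rw [← sub_eq_zero]
  ext s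
  have h2 := congrArg (fun W => (coeff s W).re) h1
  simp only [coeff_map, coeff_C_mul, Complex.ofRealHom_eq_coe, Complex.ofReal_re,
    Complex.mul_re, Complex.I_re, Complex.I_im, Complex.ofReal_im, zero_mul, mul_zero,
    sub_zero] at h2
  rw [h2, coeff_zero]

theorem real_data (p : MvPolynomial (Fin 2) ℝ)
    (hdiv : ¬ ((X 0 ^ 2 + X 1 ^ 2) ^ 4 ∣ homogeneousComponent p.totalDegree p)) :
    toC p ≠ 0 ∧ (toC p).totalDegree ≤ (toC p).degreeOf 1 + 3 := by
  classical
  set n := p.totalDegree with hn
  set T := homogeneousComponent n p with hT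
  have hsum : toC p = ∑ k ∈ Finset.range (n + 1), toC (homogeneousComponent k p) := by
    rw [← map_sum, sum_homogeneousComponent]
  have hcoeff : ∀ s : Fin 2 →₀ ℕ, s.degree = n → (toC p).coeff s = (toC T).coeff s := by
    intro s hs
    rw [hsum, coeff_sum, Finset.sum_eq_single n]
    · intro k _ hk
      exact (toC_hom (homogeneousComponent_isHomogeneous k p)).coeff_eq_zero (by
        rw [hs]; exact fun h => hk h.symm)
    · intro h
      exact absurd (Finset.mem_range.2 (Nat.lt_succ_self n)) h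
  have hdeg : (toC p).totalDegree ≤ n := by
    rw [hsum]
    refine totalDegree_finsetSum_le fun k hk => ?_
    exact (toC_hom (homogeneousComponent_isHomogeneous k p)).totalDegree_le.trans
      (Nat.lt_succ_iff.1 (Finset.mem_range.1 hk))
  refine ⟨?_, ?_⟩
  · intro h0
    apply hdiv
    have h1 := fromC_toC p
    rw [h0, map_zero] at h1
    have h2 : p = 0 := by
      apply map_injective Complex.ofRealHom Complex.ofRealHom.injective
      rw [← h1, map_zero]
    rw [hT, h2, map_zero]
    exact dvd_zero _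
  · by_contra hlt
    apply hdiv
    have hs1 : ∀ s : Fin 2 →₀ ℕ, (toC T).coeff s ≠ 0 → s.degree = n ∧ 4 ≤ s 0 := by
      intro s hs
      have h1 : s.degree = n := by
        by_contra h
        exact hs ((toC_hom (homogeneousComponent_isHomogeneous n p)).coeff_eq_zero h)
      refine ⟨h1, ?_⟩
      have h2 : s ∈ (toC p).support := by
        rw [mem_support_iff, hcoeff s h1]
        exact hs
      have h3 := monomial_le_degreeOf 1 h2
      have h4 : s 0 + s 1 = n := by
        rw [← h1, Finsupp.degree_eq_sum, Fin.sum_univ_two]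
      omega
    have hs2 : ∀ s : Fin 2 →₀ ℕ, (toC T).coeff s ≠ 0 → 4 ≤ s 0 ∧ 4 ≤ s 1 := by
      intro s hs
      refine ⟨(hs1 s hs).2, ?_⟩
      have h1 : (toC T).coeff (s.mapDomain (Equiv.swap (0 : Fin 2) 1)) ≠ 0 := by
        rw [toC_coeff_swap]
        exact (map_ne_zero _).2 hs
      have h2 := (hs1 _ h1).2
      have h3 : (s.mapDomain (Equiv.swap (0 : Fin 2) 1)) ((Equiv.swap (0 : Fin 2) 1) 1) = s 1 :=
        Finsupp.mapDomain_apply (Equiv.swap (0 : Fin 2) 1).injective _ _
      rw [Equiv.swap_apply_right] at h3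
      omega
    have hd1 : (monomial (Finsupp.single 0 4 + Finsupp.single 1 4) (1 : ℂ)) ∣ toC T := by
      rw [monomial_one_dvd_iff_modMonomial_eq_zero]
      ext s
      rw [coeff_zero]
      by_cases hle : (Finsupp.single 0 4 + Finsupp.single 1 4 : Fin 2 →₀ ℕ) ≤ s
      · exact coeff_modMonomial_of_le _ hle
      · rw [coeff_modMonomial_of_not_le _ hle]
        by_contra hne
        apply hle
        obtain ⟨h1, h2⟩ := hs2 s hne
        intro i
        fin_cases i
        · simpa using h1
        · simpa using h2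
    have hd2 : (monomial (Finsupp.single 0 4 + Finsupp.single 1 4) (1 : ℂ)) =
        ((X 0 * X 1) ^ 4 : MvPolynomial (Fin 2) ℂ) := by
      rw [mul_pow, X_pow_eq_monomial, X_pow_eq_monomial, monomial_mul, one_mul]
    rw [hd2] at hd1
    have hd3 := map_dvd fromC hd1
    rw [fromC_toC, map_pow, map_mul] at hd3
    have h5 : fromC (X 0) * fromC (X 1) = map Complex.ofRealHom (X 0 ^ 2 + X 1 ^ 2) := by
      simp only [fromC, coe_eval₂Hom, eval₂_X, Matrix.cons_val_zero, Matrix.cons_val_one,
        map_add, map_pow, map_X]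
      have h6 : (C Complex.I * C Complex.I : MvPolynomial (Fin 2) ℂ) = -1 := by
        rw [← C_mul, Complex.I_mul_I, C_neg, C_1]
      linear_combination (-(X 1 : MvPolynomial (Fin 2) ℂ) ^ 2) * h6
    rw [h5, ← map_pow] at hd3
    exact real_dvd hd3

/-- real polynomials of any degree on the boundary of `Ω` -/
theorem partR {φ : ℂ → ℂ} {r : ℝ} (hr : 1 < r) (hφ : DifferentiableOn ℂ φ (ball 0 r))
    (hinj : InjOn φ (ball 0 r)) {lam : ℝ} (hlam : 0 < lam) (hS : Solvable (φ '' ball 0 1) lam)
    {p : MvPolynomial (Fin 2) ℝ}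
    (hdiv : ¬ ((X 0 ^ 2 + X 1 ^ 2) ^ 4 ∣ homogeneousComponent p.totalDegree p))
    (hp : ∀ z ∈ frontier (φ '' ball 0 1), eval ![z.re, z.im] p = 0) :
    ∃ (c : ℂ) (r0 : ℝ), 0 < r0 ∧ φ '' ball 0 1 = ball c r0 := by
  obtain ⟨h1, h2⟩ := real_data p hdiv
  refine partC hr hφ hinj hlam hS h1 h2 fun z hz => ?_
  rw [eval_toC, hp z hz, Complex.ofReal_zero]

end Pool.Agent.Q162.Sch
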